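import Pool.Agent.H36.GM.Df

/-!
ROW Th (MP_78d38b_GM, helper36, about 90 lines): three roots in the completion.

PROOF. `w := dn M W`, `n m ∈ 𝓞 M` with `n m ≡ r m mod W` (`hn`). `f(n m) ≡ 0 mod w`; the `n m` are distinct modulo `w`, and `∏_{m' ≠ m} (n m - n m') ∉ w` is `f'(n m)` modulo `w` (`f(x) ≡ ∏ (x - n m)` in `𝓞 M ⧸ w ⊆ 𝓞 E ⧸ W`; `f'(n m) = 3 (n m)^2 + A ≡ ∏_{m' ≠ m} (n m - n m')`). Hensel: `H30ZO.Bd_hens` (Pool/Agent/H30/ZO/Bd.lean)
for `g(y) = f(n m + y) = f(n m) + (3 (n m)^2 + A) y + 3 (n m) y^2 + y^3` in `F := w.adicCompletion M` (`Valued.v (f (n m)) < 1`, `Valued.v (3 (n m)^2 + A) = 1`): `e m := n m + y m`, `Valued.v (y m) < 1`, `f(e m) = 0`. The `e m` are distinct (`Valued.v (n m - n m') = 1`), so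
`x^3 + A x + B = ∏ (x - e m)` (three distinct roots), which gives `s1, s2, s3` of `H30OR.R3`: subtract `f(e 0) = f(e 1)` etc. and divide by the differences: `e0^2 + e0 e1 + e1^2 + A = 0`, `e0^2 + e0 e2 + e2^2 + A = 0`, so `e0 + e1 + e2 = 0`, ...
-/

set_option autoImplicit false
set_option linter.unusedSectionVars false
open scoped Classical

open WithZero NumberField IsDedekindDomain H38RT
open H38T1 (SC sc scu rep eo la si OddP)
open H76PP (Cub LC ev scm dn)
open H88OD H26OD H76GM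

namespace H36GM

private theorem Th_lt {M : Type} [Field M] [NumberField M] (w : HeightOneSpectrum (𝓞 M))
    {x : 𝓞 M} (hx : x ∈ w.asIdeal) :
    Valued.v (algebraMap M (w.adicCompletion M) (x : M)) < 1 := by
  have h := HeightOneSpectrum.valuedAdicCompletion_eq_valuation' w (x : M)
  have h1 : w.valuation M (algebraMap (𝓞 M) M x) < 1 := (w.valuation_lt_one_iff_mem (K := M) x).2 hx
  rw [← h] at h1
  exact h1

private theorem Th_le {M : Type} [Field M] [NumberField M] (w : HeightOneSpectrum (𝓞 M))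
    (x : 𝓞 M) : Valued.v (algebraMap M (w.adicCompletion M) (x : M)) ≤ 1 := by
  have h := HeightOneSpectrum.valuedAdicCompletion_eq_valuation' w (x : M)
  have h1 : w.valuation M (algebraMap (𝓞 M) M x) ≤ 1 := w.valuation_le_one x
  rw [← h] at h1
  exact h1

private theorem Th_one {M : Type} [Field M] [NumberField M] (w : HeightOneSpectrum (𝓞 M))
    {x : 𝓞 M} (hx : x ∉ w.asIdeal) :
    Valued.v (algebraMap M (w.adicCompletion M) (x : M)) = 1 := by
  have h := HeightOneSpectrum.valuedAdicCompletion_eq_valuation' w (x : M)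
  have h1 : w.valuation M (algebraMap (𝓞 M) M x) = 1 :=
    (w.valuation_eq_one_iff_notMem (K := M)).2 hx
  rw [← h] at h1
  exact h1

/-- One root. -/
private theorem Th_root {M E : Type} [Field M] [NumberField M] [Field E] [NumberField E]
    [Algebra M E] {W : HeightOneSpectrum (𝓞 E)} {A B : 𝓞 M} {r0 r1 r2 : 𝓞 E}
    (h1 : r0 + r1 + r2 = 0)
    (h2 : r0 * r1 + r0 * r2 + r1 * r2 = algebraMap (𝓞 M) (𝓞 E) A)
    (h3 : r0 * r1 * r2 = -algebraMap (𝓞 M) (𝓞 E) B) (h01 : r0 - r1 ∉ W.asIdeal)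
    (h02 : r0 - r2 ∉ W.asIdeal) {n : 𝓞 M} (hn : algebraMap (𝓞 M) (𝓞 E) n - r0 ∈ W.asIdeal) :
    ∃ e : (dn M W).adicCompletion M,
      Valued.v (e - algebraMap M ((dn M W).adicCompletion M) (n : M)) < 1 ∧
      e ^ 3 + algebraMap M ((dn M W).adicCompletion M) (A : M) * e +
        algebraMap M ((dn M W).adicCompletion M) (B : M) = 0 := by
  have hP := W.isPrime
  have hf0 : n ^ 3 + A * n + B ∈ (dn M W).asIdeal := by
    have e : algebraMap (𝓞 M) (𝓞 E) (n ^ 3 + A * n + B) =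
        (algebraMap (𝓞 M) (𝓞 E) n - r0) * ((algebraMap (𝓞 M) (𝓞 E) n - r1) *
          (algebraMap (𝓞 M) (𝓞 E) n - r2)) := by
      rw [map_add, map_add, map_mul, map_pow]
      linear_combination (-algebraMap (𝓞 M) (𝓞 E) n) * h2 + h3 +
        algebraMap (𝓞 M) (𝓞 E) n ^ 2 * h1
    change algebraMap (𝓞 M) (𝓞 E) (n ^ 3 + A * n + B) ∈ W.asIdeal
    rw [e]
    exact Ideal.mul_mem_right _ _ hn
  have hf1 : 3 * n ^ 2 + A ∉ (dn M W).asIdeal := by
    intro h
    have h' : algebraMap (𝓞 M) (𝓞 E) (3 * n ^ 2 + A) ∈ W.asIdeal := h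
    have e : (r0 - r1) * (r0 - r2) = algebraMap (𝓞 M) (𝓞 E) (3 * n ^ 2 + A) -
        (algebraMap (𝓞 M) (𝓞 E) n - r0) * (3 * (algebraMap (𝓞 M) (𝓞 E) n + r0)) := by
      rw [map_add, map_mul, map_pow, map_ofNat]
      linear_combination h2 + (-2 * r0) * h1
    have h4 : (r0 - r1) * (r0 - r2) ∈ W.asIdeal := by
      rw [e]
      exact sub_mem h' (Ideal.mul_mem_right _ _ hn)
    rcases hP.mem_or_mem h4 with h5 | h5
    · exact h01 h5
    · exact h02 h5
  obtain ⟨φ, hφ⟩ : ∃ φ : 𝓞 M →+* (dn M W).adicCompletion M,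
      ∀ x : 𝓞 M, φ x = algebraMap M ((dn M W).adicCompletion M) (x : M) :=
    ⟨(algebraMap M ((dn M W).adicCompletion M)).comp (algebraMap (𝓞 M) M), fun _ => rfl⟩
  have hg0 : Valued.v (φ (n ^ 3 + A * n + B)) < 1 := by
    rw [hφ]
    exact Th_lt _ hf0
  have hg1 : Valued.v (φ (3 * n ^ 2 + A)) = 1 := by
    rw [hφ]
    exact Th_one _ hf1
  have hg2 : Valued.v (φ (3 * n)) ≤ 1 := by
    rw [hφ]
    exact Th_le _ _
  have hg3 : Valued.v (1 : (dn M W).adicCompletion M) ≤ 1 := le_of_eq (map_one _)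
  obtain ⟨y, hy1, hy⟩ := H30ZO.Bd_hens hg0 hg1 hg2 hg3
  refine ⟨φ n + y, ?_, ?_⟩
  · rw [hφ, add_sub_cancel_left]
    exact hy1
  · rw [← hφ, ← hφ]
    simp only [map_add, map_mul, map_pow, map_ofNat] at hy
    linear_combination hy

/-- Three different roots. -/
private theorem Th_R3 {F : Type} [Field F] {a b : F} {e : Fin 3 → F}
    (h : ∀ i, e i ^ 3 + a * e i + b = 0) (h01 : e 0 ≠ e 1) (h02 : e 0 ≠ e 2) (h12 : e 1 ≠ e 2) :
    H30OR.R3 a b e := by
  have q1 : e 0 ^ 2 + e 0 * e 1 + e 1 ^ 2 + a = 0 := by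
    have h3 : (e 0 - e 1) * (e 0 ^ 2 + e 0 * e 1 + e 1 ^ 2 + a) = 0 := by
      linear_combination h 0 - h 1
    exact (mul_eq_zero.1 h3).resolve_left (sub_ne_zero.2 h01)
  have q2 : e 0 ^ 2 + e 0 * e 2 + e 2 ^ 2 + a = 0 := by
    have h3 : (e 0 - e 2) * (e 0 ^ 2 + e 0 * e 2 + e 2 ^ 2 + a) = 0 := by
      linear_combination h 0 - h 2
    exact (mul_eq_zero.1 h3).resolve_left (sub_ne_zero.2 h02)
  have s1 : e 0 + e 1 + e 2 = 0 := by
    have h3 : (e 1 - e 2) * (e 0 + e 1 + e 2) = 0 := by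
      linear_combination q1 - q2
    exact (mul_eq_zero.1 h3).resolve_left (sub_ne_zero.2 h12)
  have s2 : e 0 * e 1 + e 0 * e 2 + e 1 * e 2 = a := by
    linear_combination (e 0 + e 1) * s1 - q1
  have s3 : e 0 * e 1 * e 2 = -b := by
    linear_combination h 0 + e 0 * s2 - e 0 ^ 2 * s1
  exact ⟨s1, s2, s3, h01, h02, h12⟩

theorem three_roots {M E : Type} [Field M] [NumberField M] [Field E] [NumberField E] [Algebra M E]
    {W : HeightOneSpectrum (𝓞 E)} {A B : 𝓞 M} {r : Fin 3 → 𝓞 E}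
    (hr : ∀ x : 𝓞 E, x ^ 3 + algebraMap (𝓞 M) (𝓞 E) A * x + algebraMap (𝓞 M) (𝓞 E) B =
      (x - r 0) * (x - r 1) * (x - r 2)) (hd : ∀ m m', m ≠ m' → r m - r m' ∉ W.asIdeal)
    {n : Fin 3 → 𝓞 M} (hn : ∀ m, algebraMap (𝓞 M) (𝓞 E) (n m) - r m ∈ W.asIdeal) :
    ∃ e : Fin 3 → (dn M W).adicCompletion M,
      H30OR.R3 (algebraMap M ((dn M W).adicCompletion M) (A : M))
        (algebraMap M ((dn M W).adicCompletion M) (B : M)) e := by
  have h0 := hr 0
  have h1 := hr 1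
  have h2 := hr (-1)
  have two : (2 : 𝓞 E) ≠ 0 := two_ne_zero
  have s3 : r 0 * r 1 * r 2 = -algebraMap (𝓞 M) (𝓞 E) B := by
    linear_combination h0
  have s1 : r 0 + r 1 + r 2 = 0 := by
    have h4 : (2 : 𝓞 E) * (r 0 + r 1 + r 2) = 0 := by
      linear_combination h1 + h2 - 2 * h0
    exact (mul_eq_zero.1 h4).resolve_left two
  have s2 : r 0 * r 1 + r 0 * r 2 + r 1 * r 2 = algebraMap (𝓞 M) (𝓞 E) A := by
    have h4 : (2 : 𝓞 E) * (r 0 * r 1 + r 0 * r 2 + r 1 * r 2 -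
        algebraMap (𝓞 M) (𝓞 E) A) = 0 := by
      linear_combination h2 - h1
    exact sub_eq_zero.1 ((mul_eq_zero.1 h4).resolve_left two)
  have hroot : ∀ m : Fin 3, ∃ e : (dn M W).adicCompletion M,
      Valued.v (e - algebraMap M ((dn M W).adicCompletion M) (n m : M)) < 1 ∧
      e ^ 3 + algebraMap M ((dn M W).adicCompletion M) (A : M) * e +
        algebraMap M ((dn M W).adicCompletion M) (B : M) = 0 := by
    intro m
    fin_cases m
    · exact Th_root s1 s2 s3 (hd 0 1 (by decide)) (hd 0 2 (by decide)) (hn 0)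
    · exact Th_root (r0 := r 1) (r1 := r 0) (r2 := r 2) (by linear_combination s1)
        (by linear_combination s2) (by linear_combination s3) (hd 1 0 (by decide))
        (hd 1 2 (by decide)) (hn 1)
    · exact Th_root (r0 := r 2) (r1 := r 0) (r2 := r 1) (by linear_combination s1)
        (by linear_combination s2) (by linear_combination s3) (hd 2 0 (by decide))
        (hd 2 1 (by decide)) (hn 2)
  choose e he1 he2 using hroot
  have hne : ∀ m m' : Fin 3, m ≠ m' → e m ≠ e m' := by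
    intro m m' hmm h
    have h3 : n m - n m' ∉ (dn M W).asIdeal := by
      intro h4
      have h5 : algebraMap (𝓞 M) (𝓞 E) (n m - n m') ∈ W.asIdeal := h4
      refine hd m m' hmm ?_
      have e1 : r m - r m' = algebraMap (𝓞 M) (𝓞 E) (n m - n m') -
          (algebraMap (𝓞 M) (𝓞 E) (n m) - r m) + (algebraMap (𝓞 M) (𝓞 E) (n m') - r m') := by
        rw [map_sub]
        ring
      rw [e1]
      exact add_mem (sub_mem h5 (hn m)) (hn m')
    have h6 := Th_one _ h3
    have e2 : algebraMap M ((dn M W).adicCompletion M) ((n m - n m' : 𝓞 M) : M) =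
        (e m' - algebraMap M ((dn M W).adicCompletion M) (n m' : M)) -
          (e m - algebraMap M ((dn M W).adicCompletion M) (n m : M)) := by
      have e3 : ((n m - n m' : 𝓞 M) : M) = (n m : M) - (n m' : M) := map_sub (algebraMap (𝓞 M) M) _ _
      rw [e3, map_sub, h]
      ring
    have h7 : Valued.v (algebraMap M ((dn M W).adicCompletion M) ((n m - n m' : 𝓞 M) : M)) < 1 := by
      rw [e2]
      exact lt_of_le_of_lt (Valuation.map_sub _ _ _) (max_lt (he1 m') (he1 m))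
    rw [h6] at h7
    exact lt_irrefl _ h7
  exact ⟨e, Th_R3 he2 (hne 0 1 (by decide)) (hne 0 2 (by decide)) (hne 1 2 (by decide))⟩

end H36GM
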