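import Pool.Agent.H36.GM.Ba

/-!
Assembly of part B of MP_78d38b_GM (helper36, no row), part 2: the prime `q`.
-/

set_option autoImplicit false
set_option linter.unusedSectionVars false
open scoped Classical

open WithZero NumberField IsDedekindDomain H38RT
open H38T1 (SC sc scu rep eo la si OddP)
open H76PP (Cub LC ev scm dn)
open H88OD H26OD H76GM

namespace H36GM

/-- The automorphism `τ` of `E`, of type (3-cycle, 3-cycle). -/
structure TauD {K M N N2 E : Type} [Field K] [Field M] [Field N] [Field N2] [Field E]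
    [Algebra K M] [Algebra K N] [Algebra N N2] [Algebra K E] [Algebra N2 E] (r : Fin 3 → N2)
    (o1 o2 o3 : M →ₐ[K] N) (γ : N ≃ₐ[K] N) (τ : E ≃ₐ[K] E) : Prop where
  h12 : o1 ≠ o2
  h23 : o2 ≠ o3
  h31 : o3 ≠ o1
  g1 : γ.toAlgHom.comp o1 = o2
  g2 : γ.toAlgHom.comp o2 = o3
  g3 : γ.toAlgHom.comp o3 = o1
  g4 : ∀ o : M →ₐ[K] N, o ≠ o1 → o ≠ o2 → o ≠ o3 → γ.toAlgHom.comp o = o
  tN : ∀ z : N, τ (algebraMap N2 E (algebraMap N N2 z)) = algebraMap N2 E (algebraMap N N2 (γ z))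
  tr : ∀ m, τ (algebraMap N2 E (r m)) = algebraMap N2 E (r (m + 1))

section Tau

variable {K M N N2 LM E : Type} [Field K] [Field M] [Field N] [Field N2] [Field LM] [Field E]
  [Algebra K M] [Algebra K N] [Algebra N N2] [Algebra K E] [Algebra N2 E] [Algebra M LM]
  {r : Fin 3 → N2} {o1 o2 o3 : M →ₐ[K] N} {γ : N ≃ₐ[K] N} {τ : E ≃ₐ[K] E}

theorem TauD.cyc3 (T : TauD r o1 o2 o3 γ τ) (o : M →ₐ[K] N) :
    γ.toAlgHom.comp (γ.toAlgHom.comp (γ.toAlgHom.comp o)) = o := by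
  by_cases e1 : o = o1
  · rw [e1, T.g1, T.g2, T.g3]
  by_cases e2 : o = o2
  · rw [e2, T.g2, T.g3, T.g1]
  by_cases e3 : o = o3
  · rw [e3, T.g3, T.g1, T.g2]
  rw [T.g4 o e1 e2 e3, T.g4 o e1 e2 e3, T.g4 o e1 e2 e3]

theorem TauD.t3o (T : TauD r o1 o2 o3 γ τ) (o : M →ₐ[K] N) (x : M) :
    τ (τ (τ (algebraMap N2 E (algebraMap N N2 (o x))))) =
      algebraMap N2 E (algebraMap N N2 (o x)) := by
  rw [T.tN, T.tN, T.tN]
  have h := T.cyc3 o
  have h1 : γ (γ (γ (o x))) = o x := DFunLike.congr_fun h x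
  rw [h1]

theorem TauD.t3r (T : TauD r o1 o2 o3 γ τ) (m : Fin 3) :
    τ (τ (τ (algebraMap N2 E (r m)))) = algebraMap N2 E (r m) := by
  rw [T.tr, T.tr, T.tr]
  have h : m + 1 + 1 + 1 = m := by
    revert m
    decide
  rw [h]

theorem TauD.t3e (T : TauD r o1 o2 o3 γ τ) {A B : M} {θ : LM} (hc : Cub M LM A B θ)
    {ε : (M →ₐ[K] N) → Fin 3 → (LM →+* N2)} (hε : EpsD θ r ε) (o : M →ₐ[K] N) (m : Fin 3) (x : LM) :
    τ (τ (τ (algebraMap N2 E (ε o m x)))) = algebraMap N2 E (ε o m x) := by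
  obtain ⟨c0, c1, c2, rfl⟩ := hc.sp x
  simp only [map_add, map_mul, map_pow, hε.m, hε.θ, T.t3o, T.t3r]

/-- The symmetric functions of the roots. -/
theorem roots_sym [CharZero N2] {a b : K} [Algebra K N2] (D : N2D K N N2 a b r) :
    r 0 + r 1 + r 2 = 0 ∧ r 0 * r 1 + r 0 * r 2 + r 1 * r 2 = algebraMap K N2 a ∧
      r 0 * r 1 * r 2 = - algebraMap K N2 b := by
  have h0 := D.roots 0
  have h1 := D.roots 1
  have h2 := D.roots (-1)
  have hb : r 0 * r 1 * r 2 = - algebraMap K N2 b := by linear_combination h0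
  have hs2 : (2 : N2) * (r 0 + r 1 + r 2) = 0 := by
    linear_combination h1 + h2 - 2 * h0
  have hs : r 0 + r 1 + r 2 = 0 := (mul_eq_zero.1 hs2).resolve_left two_ne_zero
  refine ⟨hs, ?_, hb⟩
  linear_combination -h1 + hs + h0

end Tau

section Choose

variable {K E : Type} [Field K] [NumberField K] [Field E] [NumberField E] [Algebra K E]

theorem fin_bad (S : Finset (𝓞 E)) (hS : ∀ x ∈ S, x ≠ 0) :
    {v : HeightOneSpectrum (𝓞 K) | ∃ W : HeightOneSpectrum (𝓞 E), dn K W = v ∧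
      ∃ x ∈ S, x ∈ W.asIdeal}.Finite := by
  have h1 : (⋃ x ∈ S, (dn K) '' {W : HeightOneSpectrum (𝓞 E) | x ∈ W.asIdeal}).Finite :=
    Set.Finite.biUnion S.finite_toSet fun x hx => (H30MQ.fin_mem (hS x hx)).image (dn K)
  refine h1.subset ?_
  rintro v ⟨W, rfl, x, hx, hW⟩
  exact Set.mem_biUnion hx ⟨W, hW, rfl⟩

/-- A place with Frobenius element generating the same group as `τ`, outside a finite set. -/
theorem choose_frob [IsGalois K E] (τ : E ≃ₐ[K] E) (S : Finset (𝓞 E)) (hS : ∀ x ∈ S, x ≠ 0)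
    {A : Set (HeightOneSpectrum (𝓞 K))} (hA : A.Finite) :
    ∃ (g : E ≃ₐ[K] E) (W : HeightOneSpectrum (𝓞 E)), Subgroup.zpowers g = Subgroup.zpowers τ ∧
      IsArithFrobAt (𝓞 K) g W.asIdeal ∧ dn K W ∉ A ∧ ∀ x ∈ S, x ∉ W.asIdeal := by
  obtain ⟨v, ⟨g, hg, W, hW, hfr⟩, hv⟩ := ((H30MQ.frob_infK τ).sdiff
    (hA.union (fin_bad (K := K) S hS))).nonempty
  have hdn : dn K W = v := by
    apply HeightOneSpectrum.ext
    rw [hW.over]
    rfl
  refine ⟨g, W, hg, hfr, ?_, fun x hx hxW => ?_⟩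
  · rw [hdn]
    exact fun h => hv (Or.inl h)
  · exact hv (Or.inr ⟨W, hdn, x, hx, hxW⟩)

/-- The ramified places. -/
theorem ram_fin' (K N : Type) [Field K] [NumberField K] [Field N] [NumberField N] [Algebra K N] :
    {V : HeightOneSpectrum (𝓞 N) | H73P2.Ram K V}.Finite := by
  have h1 : {v : HeightOneSpectrum (𝓞 N) | v.asIdeal ∣ differentIdeal (𝓞 K) (𝓞 N)}.Finite := by
    refine Ideal.finite_factors ?_
    exact differentIdeal_ne_bot
  refine h1.subset fun V hV => ?_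
  change V.asIdeal ∣ _
  by_contra h
  have h2 : Algebra.IsUnramifiedAt (𝓞 K) V.asIdeal := not_dvd_differentIdeal_iff.1 h
  have h3 := Ideal.ramificationIdx_eq_one V.asIdeal (𝓞 K)
  have h4 : (dn K V).asIdeal.map (algebraMap (𝓞 K) (𝓞 N)) ≤ V.asIdeal ^ 2 := hV
  have hlo : V.asIdeal.LiesOver (dn K V).asIdeal := ⟨rfl⟩
  have hinj : Function.Injective (algebraMap (𝓞 K) (𝓞 N)) := by
    intro x y hxy
    apply RingOfIntegers.ext
    have h5 := congrArg (fun z : 𝓞 N => (z : N)) hxy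
    exact (algebraMap K N).injective h5
  have hb : (dn K V).asIdeal.map (algebraMap (𝓞 K) (𝓞 N)) ≠ ⊥ := by
    intro h5
    exact (dn K V).ne_bot ((Ideal.map_eq_bot_iff_of_injective hinj).1 h5)
  rw [← Ideal.ramificationIdx'_eq_ramificationIdx (dn K V).asIdeal V.asIdeal (dn K V).ne_bot] at h3
  have h5 := Ideal.IsDedekindDomain.ramificationIdx'_eq_normalizedFactors_count hb V.isPrime V.ne_bot
  rw [h3] at h5
  have h6 : V.asIdeal ^ 2 ∣ (dn K V).asIdeal.map (algebraMap (𝓞 K) (𝓞 N)) := Ideal.dvd_iff_le.2 h4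
  have hV2 : V.asIdeal ^ 2 ≠ 0 := pow_ne_zero 2 V.ne_bot
  have h7 := (UniqueFactorizationMonoid.dvd_iff_normalizedFactors_le_normalizedFactors hV2 hb).1 h6
  have h8 := Multiset.count_le_of_le V.asIdeal h7
  rw [← h5, UniqueFactorizationMonoid.normalizedFactors_pow, Multiset.count_nsmul,
    UniqueFactorizationMonoid.normalizedFactors_irreducible V.irreducible, normalize_eq,
    Multiset.count_singleton_self] at h8
  omega

/-- Two different embeddings differ at an integer. -/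
theorem exists_diff {M N : Type} [Field M] [NumberField M] [Field N] [Algebra K M] [Algebra K N]
    {o o' : M →ₐ[K] N} (h : o ≠ o') : ∃ y : 𝓞 M, o (y : M) ≠ o' (y : M) := by
  by_contra hcon
  push Not at hcon
  apply h
  apply AlgHom.ext
  intro x
  obtain ⟨α, β, hβ, hxy⟩ := IsFractionRing.div_surjective (A := 𝓞 M) x
  rw [← hxy, map_div₀, map_div₀]
  have h1 : o (algebraMap (𝓞 M) M α) = o' (algebraMap (𝓞 M) M α) := hcon α
  have h2 : o (algebraMap (𝓞 M) M β) = o' (algebraMap (𝓞 M) M β) := hcon β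
  rw [h1, h2]

theorem three_below {M E : Type} [Field M] [NumberField M] [Field E] [NumberField E] {f : M →+* E}
    {W : HeightOneSpectrum (𝓞 E)} {A B : 𝓞 M} {r : Fin 3 → 𝓞 E}
    (hr : ∀ x : 𝓞 E, x ^ 3 + im f A * x + im f B = (x - r 0) * (x - r 1) * (x - r 2))
    (hd : ∀ m m', m ≠ m' → r m - r m' ∉ W.asIdeal) {n : Fin 3 → 𝓞 M}
    (hn : ∀ m, im f (n m) - r m ∈ W.asIdeal) :
    ∃ e : Fin 3 → (below f W).adicCompletion M,
      H30OR.R3 (algebraMap M ((below f W).adicCompletion M) (A : M))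
        (algebraMap M ((below f W).adicCompletion M) (B : M)) e := by
  let _ : Algebra M E := f.toAlgebra
  exact three_roots hr hd hn

end Choose

end H36GM
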