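import Pool.Agent.H36.GM.Hs

/-!
ROW Kc (MP_78d38b_GM, helper36, about 120 lines): the map `HH(M) → SC(N2)` is injective.

PROOF. `c = sc z`, `z ≠ 0`, `norm_{LM/M} z = t^2`; `ε o 0 z = y^2`, `y ∈ N2` (`cl_sc`, `H38T1.sc_eq_zero`). Let `ρ ∈ Gal(N2/K)` be the lift (`D.lift 1 (finRotate 3)`) which is trivial on `N` and maps `r m` to `r (m+1)`. `P(y) := y * ρ y * ρ (ρ y)`,
`P(y)^2 = ε o 0 z * ε o 1 z * ε o 2 z = (algebraMap N N2 (o t))^2` (`eps_act`, `eps_norm`), so replacing `y` by `-y` if necessary (`P(-y) = -P(y)`) we may assume `P(y) = algebraMap N N2 (o t)` (which is not `0`).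
CLAIM: every `g ∈ Gal(N2/K)` with `g (ε o 0 v) = ε o 0 v` for all `v ∈ LM` fixes `y`. `g` fixes `o(M)` and `r 0`; so `g (y)^2 = y^2`, `g y = y` or `g y = -y`. Let `γ = g` on `N` (`N / K` is normal: `g` maps the image of `N` into itself; `AlgEquiv.restrictNormal`), `γ (o x) = o x`; `σ` the permutation of the roots,
`σ 0 = 0`. `ρ g` and `g ρ^{±1}` agree on `N` and on the roots, so they are equal (`D.gen` applied to the quotient): if `σ = 1`: `ρ g = g ρ`, `ρρ g = g ρρ`; if `σ = swap 1 2`: `ρ g = g ρρ`, `ρρ g = g ρ` (`ρρρ = 1` by `D.gen`). In both cases `P(g y) = g (P(y)) = g (algebraMap N N2 (o t)) = P(y)`,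
while `P(-y) = -P(y) ≠ P(y)`. So `g y = y`.
With the algebra structure `LM → N2` given by `ε o 0` (`letI := (ε o 0).toAlgebra`, tower `K → LM → N2` with `K → LM` := `algebraMap M LM ∘ algebraMap K M`) `N2 / LM` is Galois (`IsGalois.tower_top_of_isGalois K LM N2`), so by the claim `y = ε o 0 y'` (`IsGalois.mem_range_algebraMap_iff_fixed`), `z = y'^2`
(`ε o 0` is injective), `c = 0`.
-/

set_option autoImplicit false
set_option linter.unusedSectionVars false
open scoped Classical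

open WithZero NumberField IsDedekindDomain H38RT
open H38T1 (SC sc scu rep eo la si OddP)
open H76PP (Cub LC ev scm dn)
open H88OD H26OD H76GM

namespace H36GM

theorem Kc_agr {K N N2 : Type} [Field K] [Field N] [Field N2] [Algebra K N] [Algebra K N2]
    [Algebra N N2] {a b : K} {r : Fin 3 → N2} (D : N2D K N N2 a b r) {g₁ g₂ : N2 ≃ₐ[K] N2}
    (h1 : ∀ z : N, g₁ (algebraMap N N2 z) = g₂ (algebraMap N N2 z))
    (h2 : ∀ m, g₁ (r m) = g₂ (r m)) (x : N2) : g₁ x = g₂ x := by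
  have h3 : g₂⁻¹ * g₁ = 1 := by
    apply D.gen
    · intro z
      rw [AlgEquiv.mul_apply, h1, ← AlgEquiv.mul_apply, inv_mul_cancel, AlgEquiv.one_apply]
    · intro m
      rw [AlgEquiv.mul_apply, h2, ← AlgEquiv.mul_apply, inv_mul_cancel, AlgEquiv.one_apply]
  have h4 : g₁ = g₂ := by
    have h5 := congrArg (fun t => g₂ * t) h3
    simpa using h5
  rw [h4]

theorem Kc_root {K N N2 : Type} [Field K] [Field N] [Field N2] [Algebra K N] [Algebra K N2]
    [Algebra N N2] {a b : K} {r : Fin 3 → N2} (D : N2D K N N2 a b r) (g : N2 ≃ₐ[K] N2)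
    (m : Fin 3) : g (r m) = r 0 ∨ g (r m) = r 1 ∨ g (r m) = r 2 := by
  have h1 : (r m) ^ 3 + algebraMap K N2 a * r m + algebraMap K N2 b = 0 := by
    rw [D.roots]
    fin_cases m <;> simp
  have h2 := congrArg g h1
  simp only [map_add, map_mul, map_pow, map_zero, AlgEquiv.commutes] at h2
  rw [D.roots, mul_eq_zero, mul_eq_zero, sub_eq_zero, sub_eq_zero, sub_eq_zero] at h2
  tauto

theorem Kc_cases {K N N2 : Type} [Field K] [Field N] [Field N2] [Algebra K N] [Algebra K N2]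
    [Algebra N N2] {a b : K} {r : Fin 3 → N2} (D : N2D K N N2 a b r) (g : N2 ≃ₐ[K] N2)
    (h0 : g (r 0) = r 0) :
    (g (r 1) = r 1 ∧ g (r 2) = r 2) ∨ (g (r 1) = r 2 ∧ g (r 2) = r 1) := by
  have hne : ∀ i j : Fin 3, i ≠ j → r i ≠ r j := fun i j hij h => hij (D.inj h)
  have hg : ∀ i j : Fin 3, i ≠ j → g (r i) ≠ g (r j) := fun i j hij h =>
    hne i j hij (g.injective h)
  have h01 := hg 0 1 (by decide)
  have h02 := hg 0 2 (by decide)
  have h12 := hg 1 2 (by decide)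
  rw [h0] at h01 h02
  rcases Kc_root D g 1 with h | h | h
  · exact absurd h.symm h01
  · rcases Kc_root D g 2 with h' | h' | h'
    · exact absurd h'.symm h02
    · exact absurd (h.trans h'.symm) h12
    · exact Or.inl ⟨h, h'⟩
  · rcases Kc_root D g 2 with h' | h' | h'
    · exact absurd h'.symm h02
    · exact Or.inr ⟨h, h'⟩
    · exact absurd (h.trans h'.symm) h12

/-- the product over the cyclic group commutes with `g` -/
theorem Kc_P {K N N2 : Type} [Field K] [Field N] [Field N2] [Algebra K N] [Algebra K N2]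
    [Algebra N N2] [IsScalarTower K N N2] [IsGalois K N] {a b : K} {r : Fin 3 → N2}
    (D : N2D K N N2 a b r) {ρ : N2 ≃ₐ[K] N2}
    (hρ1 : ∀ z : N, ρ (algebraMap N N2 z) = algebraMap N N2 z)
    (hρ2 : ∀ m, ρ (r m) = r (finRotate 3 m)) (g : N2 ≃ₐ[K] N2) (h0 : g (r 0) = r 0) (y : N2) :
    g y * ρ (g y) * ρ (ρ (g y)) = g (y * ρ y * ρ (ρ y)) := by
  have hN : ∀ z : N, ∃ z' : N, g (algebraMap N N2 z) = algebraMap N N2 z' := fun z =>
    ⟨g.restrictNormal N z, (AlgEquiv.restrictNormal_commutes g N z).symm⟩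
  have r0 : ρ (r 0) = r 1 := hρ2 0
  have r1 : ρ (r 1) = r 2 := hρ2 1
  have r2 : ρ (r 2) = r 0 := hρ2 2
  rcases Kc_cases D g h0 with ⟨h1, h2⟩ | ⟨h1, h2⟩
  · have e1 : ∀ x, ρ (g x) = g (ρ x) := by
      intro x
      have := Kc_agr D (g₁ := ρ * g) (g₂ := g * ρ) (fun z => ?_) (fun m => ?_) x
      · simpa only [AlgEquiv.mul_apply] using this
      · obtain ⟨z', hz'⟩ := hN z
        rw [AlgEquiv.mul_apply, AlgEquiv.mul_apply, hz', hρ1, hρ1, hz']
      · rw [AlgEquiv.mul_apply, AlgEquiv.mul_apply]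
        fin_cases m
        · show ρ (g (r 0)) = g (ρ (r 0))
          rw [h0, r0, h1]
        · show ρ (g (r 1)) = g (ρ (r 1))
          rw [h1, r1, h2]
        · show ρ (g (r 2)) = g (ρ (r 2))
          rw [h2, r2, h0]
    rw [e1, e1, map_mul, map_mul]
  · have e1 : ∀ x, ρ (g x) = g (ρ (ρ x)) := by
      intro x
      have := Kc_agr D (g₁ := ρ * g) (g₂ := g * (ρ * ρ)) (fun z => ?_) (fun m => ?_) x
      · simpa only [AlgEquiv.mul_apply] using this
      · obtain ⟨z', hz'⟩ := hN z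
        rw [AlgEquiv.mul_apply, AlgEquiv.mul_apply, AlgEquiv.mul_apply, hz', hρ1, hρ1, hρ1, hz']
      · rw [AlgEquiv.mul_apply, AlgEquiv.mul_apply, AlgEquiv.mul_apply]
        fin_cases m
        · show ρ (g (r 0)) = g (ρ (ρ (r 0)))
          rw [h0, r0, r1, h2]
        · show ρ (g (r 1)) = g (ρ (ρ (r 1)))
          rw [h1, r1, r2, h0]
        · show ρ (g (r 2)) = g (ρ (ρ (r 2)))
          rw [h2, r2, r0, h1, r1]
    have e2 : ∀ x, ρ (ρ (g x)) = g (ρ x) := by
      intro x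
      have := Kc_agr D (g₁ := ρ * (ρ * g)) (g₂ := g * ρ) (fun z => ?_) (fun m => ?_) x
      · simpa only [AlgEquiv.mul_apply] using this
      · obtain ⟨z', hz'⟩ := hN z
        rw [AlgEquiv.mul_apply, AlgEquiv.mul_apply, AlgEquiv.mul_apply, hz', hρ1, hρ1, hρ1, hz']
      · rw [AlgEquiv.mul_apply, AlgEquiv.mul_apply, AlgEquiv.mul_apply]
        fin_cases m
        · show ρ (ρ (g (r 0))) = g (ρ (r 0))
          rw [h0, r0, r1, h1]
        · show ρ (ρ (g (r 1))) = g (ρ (r 1))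
          rw [h1, r2, r0, r1, h2]
        · show ρ (ρ (g (r 2))) = g (ρ (r 2))
          rw [h2, r1, r2, h0]
    rw [e2, e1, map_mul, map_mul]
    ring

theorem eps_inj {K M N N2 LM : Type} [Field K] [NumberField K] [Field M] [NumberField M] [Field N]
    [NumberField N] [Field N2] [NumberField N2] [Field LM] [NumberField LM] [Algebra K M]
    [Algebra K N] [Algebra K N2] [Algebra N N2] [IsScalarTower K N N2] [Algebra M LM] [IsGalois K N]
    {a b : K} {θ : LM} {r : Fin 3 → N2} (hc : Cub M LM (algebraMap K M a) (algebraMap K M b) θ)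
    (D : N2D K N N2 a b r) {ε : (M →ₐ[K] N) → Fin 3 → (LM →+* N2)} (hε : EpsD θ r ε)
    (o : M →ₐ[K] N) {c : SC LM} (hcH : c ∈ H30ZO.HH M LM) (h : cl (ε o 0) c = 0) : c = 0 := by
  obtain ⟨z, hz, rfl⟩ := H38T1.sc_surj c
  have hz0 : ε o 0 z ≠ 0 := (map_ne_zero _).2 hz
  rw [cl_sc _ hz, H38T1.sc_eq_zero hz0] at h
  obtain ⟨t, ht⟩ := (H30ZO.mem_HH hz).1 hcH
  obtain ⟨y0, hy0⟩ := h
  obtain ⟨ρ, hρ1', hρ2⟩ := D.lift 1 (finRotate 3)
  have hρ1 : ∀ z : N, ρ (algebraMap N N2 z) = algebraMap N N2 z := hρ1'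
  have ho : ((1 : N ≃ₐ[K] N).toAlgHom.comp o) = o := by
    ext x
    rfl
  have hact : ∀ (i : Fin 3) (v : LM), ρ (ε o i v) = ε o (finRotate 3 i) v := by
    intro i v
    have h1 := eps_act hc hε hρ1' hρ2 o i
    rw [ho] at h1
    exact congrArg (fun f : LM →+* N2 => f v) h1
  have a0 : ρ (ε o 0 z) = ε o 1 z := hact 0 z
  have a1 : ρ (ε o 1 z) = ε o 2 z := hact 1 z
  -- the normalised square root
  have hnorm := eps_norm hc D hε o z
  have hsq : ∀ y : N2, y * y = ε o 0 z →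
      (y * ρ y * ρ (ρ y)) ^ 2 = (algebraMap N N2 (o t)) ^ 2 := by
    intro y hy
    have h1 : ρ y * ρ y = ε o 1 z := by rw [← map_mul, hy, a0]
    have h2 : ρ (ρ y) * ρ (ρ y) = ε o 2 z := by rw [← map_mul, h1, a1]
    have h3 : (y * ρ y * ρ (ρ y)) ^ 2 = (y * y) * (ρ y * ρ y) * (ρ (ρ y) * ρ (ρ y)) := by ring
    rw [h3, hy, h1, h2, hnorm, ht, map_mul, map_mul, sq]
  obtain ⟨y, hy, hP⟩ : ∃ y : N2, y * y = ε o 0 z ∧ y * ρ y * ρ (ρ y) = algebraMap N N2 (o t) := by
    rcases sq_eq_sq_iff_eq_or_eq_neg.1 (hsq y0 hy0.symm) with h1 | h1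
    · exact ⟨y0, hy0.symm, h1⟩
    · refine ⟨-y0, by rw [neg_mul_neg, hy0], ?_⟩
      rw [map_neg, map_neg]
      have h2 : -y0 * -ρ y0 * -ρ (ρ y0) = -(y0 * ρ y0 * ρ (ρ y0)) := by ring
      rw [h2, h1, neg_neg]
  have hyne : y ≠ 0 := by
    rintro rfl
    exact hz0 (by rw [← hy, mul_zero])
  have hT : algebraMap N N2 (o t) ≠ 0 := by
    rw [← hP]
    exact mul_ne_zero (mul_ne_zero hyne ((map_ne_zero ρ).2 hyne))
      ((map_ne_zero ρ).2 ((map_ne_zero ρ).2 hyne))
  have claim : ∀ g : N2 ≃ₐ[K] N2, (∀ v : LM, g (ε o 0 v) = ε o 0 v) → g y = y := by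
    intro g hg
    have hgy : g y * g y = y * y := by rw [← map_mul, hy, hg]
    rcases mul_self_eq_mul_self_iff.1 hgy with h1 | h1
    · exact h1
    exfalso
    have hr0 : g (r 0) = r 0 := by
      rw [← hε.θ o 0]
      exact hg θ
    have h2 := Kc_P D hρ1 hρ2 g hr0 y
    have h3 : g (algebraMap N N2 (o t)) = algebraMap N N2 (o t) := by
      rw [← hε.m o 0 t]
      exact hg _
    rw [hP, h3, h1, map_neg, map_neg] at h2
    have h4 : -y * -ρ y * -ρ (ρ y) = -(y * ρ y * ρ (ρ y)) := by ring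
    rw [h4, hP] at h2
    have h5 : (2 : N2) * algebraMap N N2 (o t) = 0 := by
      rw [two_mul]
      nth_rewrite 1 [← h2]
      exact neg_add_cancel _
    rcases mul_eq_zero.1 h5 with h6 | h6
    · exact two_ne_zero h6
    · exact hT h6
  letI iA : Algebra LM N2 := (ε o 0).toAlgebra
  letI iB : Algebra K LM := ((algebraMap M LM).comp (algebraMap K M)).toAlgebra
  haveI : IsScalarTower K LM N2 := IsScalarTower.of_algebraMap_eq (fun x => by
    show algebraMap K N2 x = ε o 0 (algebraMap M LM (algebraMap K M x))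
    rw [hε.m, AlgHom.commutes, ← IsScalarTower.algebraMap_apply])
  haveI := D.gal
  haveI : IsGalois LM N2 := IsGalois.tower_top_of_isGalois K LM N2
  have hfix : ∀ f : N2 ≃ₐ[LM] N2, f y = y := by
    intro f
    have h1 := claim (f.restrictScalars K) (fun v => f.commutes v)
    exact h1
  obtain ⟨y', hy'⟩ := (IsGalois.mem_range_algebraMap_iff_fixed y).2 hfix
  have hy'' : ε o 0 y' = y := hy'
  rw [H38T1.sc_eq_zero hz]
  refine ⟨y', (ε o 0).injective ?_⟩
  rw [map_mul, hy'', hy]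

end H36GM
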