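import Pool.Agent.H36.GM.Df
import Pool.Agent.H76.OD.Cha

/-!
ROW Nr (MP_78d38b_GM, helper36, about 70 lines): no root at `q`.

PROOF. Suppose `f(t) = t^3 + a t + b ∈ q := dn K W`. In `𝓞 E ⧸ W`: `∏_m (t - r m) = 0`, so `t ≡ r m mod W` for some `m` (`W` prime). Apply `τ`: `τ (r m) = r (π m)` and `τ • x ≡ x^Q`, `t^Q ≡ τ • t = t` (`t ∈ 𝓞 K`), so `r (π m) = τ • r m ≡ (r m)^Q ≡ t^Q ≡ t ≡ r m mod W` with `π m ≠ m`: against `hd`.
-/

set_option autoImplicit false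
set_option linter.unusedSectionVars false
open scoped Classical

open WithZero NumberField IsDedekindDomain H38RT
open H38T1 (SC sc scu rep eo la si OddP)
open H76PP (Cub LC ev scm dn)
open H88OD H26OD H76GM

namespace H36GM

theorem noroot_q {K E : Type} [Field K] [NumberField K] [Field E] [NumberField E] [Algebra K E]
    [IsGalois K E] {τ : E ≃ₐ[K] E} {W : HeightOneSpectrum (𝓞 E)}
    (hfr : IsArithFrobAt (𝓞 K) τ W.asIdeal) {a b : 𝓞 K} {r : Fin 3 → 𝓞 E}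
    (hr : ∀ x : 𝓞 E, x ^ 3 + algebraMap (𝓞 K) (𝓞 E) a * x + algebraMap (𝓞 K) (𝓞 E) b =
      (x - r 0) * (x - r 1) * (x - r 2)) {π : Fin 3 → Fin 3} (hπ : ∀ m, π m ≠ m)
    (hτ : ∀ m, τ (r m : E) = (r (π m) : E)) (hd : ∀ m m', m ≠ m' → r m - r m' ∉ W.asIdeal) :
    ∀ t : 𝓞 K, t ^ 3 + a * t + b ∉ (dn K W).asIdeal := by
  intro t ht
  have hmaxW : W.asIdeal.IsMaximal := W.isMaximal
  have h1 : algebraMap (𝓞 K) (𝓞 E) (t ^ 3 + a * t + b) ∈ W.asIdeal := ht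
  rw [map_add, map_add, map_mul, map_pow, hr] at h1
  have hτ' : ∀ m, (MulSemiringAction.toAlgHom (𝓞 K) (𝓞 E) τ) (r m) = r (π m) := by
    intro m
    apply RingOfIntegers.ext
    exact hτ m
  have key : ∀ m, algebraMap (𝓞 K) (𝓞 E) t - r m ∈ W.asIdeal → False := by
    intro m hm
    have h2 := AlgHom.IsArithFrobAt.le_comap hfr hm
    rw [Ideal.mem_comap, map_sub, AlgHom.commutes, hτ' m] at h2
    apply hd (π m) m (hπ m)
    have h3 := W.asIdeal.sub_mem hm h2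
    have e : algebraMap (𝓞 K) (𝓞 E) t - r m - (algebraMap (𝓞 K) (𝓞 E) t - r (π m)) =
        r (π m) - r m := by ring
    rwa [e] at h3
  rcases hmaxW.isPrime.mem_or_mem h1 with h | h
  · rcases hmaxW.isPrime.mem_or_mem h with h | h
    · exact key 0 h
    · exact key 1 h
  · exact key 2 h

end H36GM
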