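import Pool.Agent.H36.GM.Df
import Pool.Agent.H76.OD.Cha

/-!
No root of `x^3 + a x + b` at the places `u` of `M` above `q` other than the one below `o1`
(project MP_78d38b_GM; proved by helper71).
-/

set_option autoImplicit false
set_option linter.unusedSectionVars false
open scoped Classical

open WithZero NumberField IsDedekindDomain H38RT
open H38T1 (SC sc scu rep eo la si OddP)
open H76PP (Cub LC ev scm dn)
open H88OD H26OD H76GM

namespace H36GM

private theorem Ot_mem {F E : Type} [Field F] [NumberField F] [Field E] [NumberField E]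
    (f : F →+* E) (W : HeightOneSpectrum (𝓞 E)) (x : 𝓞 F) :
    x ∈ (below f W).asIdeal ↔ RingOfIntegers.mapRingHom f x ∈ W.asIdeal := Iff.rfl

private theorem Ot_memA {F E : Type} [Field F] [NumberField F] [Field E] [NumberField E]
    [Algebra F E] (W : HeightOneSpectrum (𝓞 E)) (x : 𝓞 F) :
    x ∈ (dn F W).asIdeal ↔ algebraMap (𝓞 F) (𝓞 E) x ∈ W.asIdeal := Iff.rfl

private theorem Ot_conj {K N : Type} [Field K] [NumberField K] [Field N] [NumberField N]
    [Algebra K N] [IsGalois K N]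
    {W W' : HeightOneSpectrum (𝓞 N)} (h : dn K W' = dn K W) :
    ∃ g : N ≃ₐ[K] N, ∀ x : 𝓞 N, x ∈ W'.asIdeal ↔ g • x ∈ W.asIdeal := by
  have hp : (dn K W).asIdeal = W.asIdeal.comap (algebraMap (𝓞 K) (𝓞 N)) := rfl
  have hp' : (dn K W).asIdeal = W'.asIdeal.comap (algebraMap (𝓞 K) (𝓞 N)) := by
    rw [← h]
    rfl
  have i1 : W.asIdeal.IsPrime := W.isPrime
  have i2 : W'.asIdeal.IsPrime := W'.isPrime
  have i3 : W.asIdeal.LiesOver (dn K W).asIdeal := ⟨hp⟩
  have i4 : W'.asIdeal.LiesOver (dn K W).asIdeal := ⟨hp'⟩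
  obtain ⟨g, hg⟩ := Ideal.exists_smul_eq_of_isGaloisGroup (dn K W).asIdeal W'.asIdeal W.asIdeal
    (N ≃ₐ[K] N)
  refine ⟨g, fun x => ?_⟩
  rw [← hg]
  exact Ideal.smul_mem_pointwise_smul_iff.symm

open scoped Pointwise in
private theorem Ot_fr {K E : Type} [Field K] [NumberField K] [Field E] [NumberField E]
    [Algebra K E] [IsGalois K E] {τ : E ≃ₐ[K] E} {W : HeightOneSpectrum (𝓞 E)}
    (hfr : IsArithFrobAt (𝓞 K) τ W.asIdeal) (y : 𝓞 E) : τ • y ∈ W.asIdeal ↔ y ∈ W.asIdeal := by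
  have i1 : W.asIdeal.IsPrime := W.isPrime
  have h := hfr.mem_stabilizer
  rw [MulAction.mem_stabilizer_iff] at h
  conv_lhs => rw [← h]
  exact Ideal.smul_mem_pointwise_smul_iff

/-- Every place above `dn K W` is below `W` for some embedding. -/
private theorem Ot_emb {K M N E : Type} [Field K] [NumberField K] [Field M] [NumberField M]
    [Field N] [NumberField N] [Field E] [NumberField E] [Algebra K M] [Algebra K N] [Algebra M N]
    [IsScalarTower K M N] [Algebra K E] [Algebra N E] [IsScalarTower K N E] [IsGalois K N]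
    [IsGalois K E] {W : HeightOneSpectrum (𝓞 E)} {u : HeightOneSpectrum (𝓞 M)}
    (hu : dn K u = dn K W) :
    ∃ o : M →ₐ[K] N, u = below ((algebraMap N E).comp (o : M →+* N)) W := by
  let _ : Algebra M E := ((algebraMap N E).comp (algebraMap M N)).toAlgebra
  have t1 : IsScalarTower M N E := IsScalarTower.of_algebraMap_eq fun _ => rfl
  have t2 : IsScalarTower K M E := IsScalarTower.of_algebraMap_eq fun x => by
    rw [IsScalarTower.algebraMap_apply K N E, IsScalarTower.algebraMap_apply K M N]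
    rfl
  obtain ⟨W', hW'⟩ := H76PP.exists_above (K := M) (L := E) u
  have h1 : dn K W' = dn K W := by
    rw [← hu, ← hW']
    apply HeightOneSpectrum.ext
    ext x
    rw [Ot_memA, Ot_memA, Ot_memA, ← IsScalarTower.algebraMap_apply (𝓞 K) (𝓞 M) (𝓞 E)]
  obtain ⟨g, hg⟩ := Ot_conj h1
  refine ⟨(g.restrictNormal N : N ≃ₐ[K] N).toAlgHom.comp (IsScalarTower.toAlgHom K M N), ?_⟩
  apply HeightOneSpectrum.ext
  ext x
  rw [Ot_mem, ← hW', Ot_memA, hg]
  have e : g • algebraMap (𝓞 M) (𝓞 E) x = RingOfIntegers.mapRingHom ((algebraMap N E).comp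
      (((g.restrictNormal N : N ≃ₐ[K] N).toAlgHom.comp (IsScalarTower.toAlgHom K M N) :
        M →ₐ[K] N) : M →+* N)) x := by
    apply RingOfIntegers.ext
    change g (algebraMap N E (algebraMap M N (x : M))) =
      algebraMap N E (g.restrictNormal N (algebraMap M N (x : M)))
    rw [AlgEquiv.restrictNormal_commutes]
  rw [e]

theorem noroot_oth {K M N E : Type} [Field K] [NumberField K] [Field M] [NumberField M] [Field N]
    [NumberField N] [Field E] [NumberField E] [Algebra K M] [Algebra K N] [Algebra M N]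
    [IsScalarTower K M N] [Algebra K E] [Algebra N E] [IsScalarTower K N E] [IsGalois K N]
    [IsGalois K E] {τ : E ≃ₐ[K] E} {W : HeightOneSpectrum (𝓞 E)}
    (hfr : IsArithFrobAt (𝓞 K) τ W.asIdeal) {γ : N ≃ₐ[K] N}
    (hγ : ∀ z : N, τ (algebraMap N E z) = algebraMap N E (γ z)) {o1 : M →ₐ[K] N}
    (hfix : ∀ o : M →ₐ[K] N, γ.toAlgHom.comp o = o ∨ o = o1 ∨ o = γ.toAlgHom.comp o1 ∨
      o = γ.toAlgHom.comp (γ.toAlgHom.comp o1)) {a b : 𝓞 K}
    (hnr : ∀ t : 𝓞 K, t ^ 3 + a * t + b ∉ (dn K W).asIdeal) {u : HeightOneSpectrum (𝓞 M)}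
    (hu : dn K u = dn K W) (huw : u ≠ below ((algebraMap N E).comp (o1 : M →+* N)) W) :
    ∀ t : 𝓞 M, t ^ 3 + algebraMap (𝓞 K) (𝓞 M) a * t + algebraMap (𝓞 K) (𝓞 M) b ∉ u.asIdeal := by
  obtain ⟨o, ho⟩ := Ot_emb (N := N) hu
  -- the action of the Frobenius
  have hact : ∀ (o' : M →ₐ[K] N) (x : 𝓞 M),
      RingOfIntegers.mapRingHom ((algebraMap N E).comp ((γ.toAlgHom.comp o' : M →ₐ[K] N) :
        M →+* N)) x = τ • RingOfIntegers.mapRingHom ((algebraMap N E).comp (o' : M →+* N)) x := by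
    intro o' x
    apply RingOfIntegers.ext
    change algebraMap N E (γ (o' (x : M))) = τ (algebraMap N E (o' (x : M)))
    rw [hγ]
  have hbel : ∀ o' : M →ₐ[K] N,
      below ((algebraMap N E).comp ((γ.toAlgHom.comp o' : M →ₐ[K] N) : M →+* N)) W =
        below ((algebraMap N E).comp (o' : M →+* N)) W := by
    intro o'
    apply HeightOneSpectrum.ext
    ext x
    rw [Ot_mem, Ot_mem, hact, Ot_fr hfr]
  rcases hfix o with h | h | h | h
  · intro t ht
    obtain ⟨y, hy⟩ : ∃ y : 𝓞 E,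
        y = RingOfIntegers.mapRingHom ((algebraMap N E).comp (o : M →+* N)) t := ⟨_, rfl⟩
    have hfy : τ • y = y := by
      rw [hy, ← hact, h]
    have hlies : W.asIdeal.LiesOver (dn K W).asIdeal := ⟨rfl⟩
    obtain ⟨n, hn⟩ := H76OD.int_of_frobW hlies hfr hfy
    apply hnr n
    rw [Ot_memA]
    rw [ho, Ot_mem] at ht
    have hc : ∀ z : 𝓞 K, RingOfIntegers.mapRingHom ((algebraMap N E).comp (o : M →+* N))
        (algebraMap (𝓞 K) (𝓞 M) z) = algebraMap (𝓞 K) (𝓞 E) z := by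
      intro z
      apply RingOfIntegers.ext
      change algebraMap N E (o (algebraMap K M (z : K))) = algebraMap K E (z : K)
      rw [AlgHom.commutes, ← IsScalarTower.algebraMap_apply]
    rw [map_add, map_add, map_mul, map_pow, hc, hc, ← hy] at ht
    rw [map_add, map_add, map_mul, map_pow]
    have e : algebraMap (𝓞 K) (𝓞 E) n ^ 3 + algebraMap (𝓞 K) (𝓞 E) a * algebraMap (𝓞 K) (𝓞 E) n +
        algebraMap (𝓞 K) (𝓞 E) b =
        (y ^ 3 + algebraMap (𝓞 K) (𝓞 E) a * y + algebraMap (𝓞 K) (𝓞 E) b) +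
        (algebraMap (𝓞 K) (𝓞 E) n - y) * (algebraMap (𝓞 K) (𝓞 E) n ^ 2 +
          algebraMap (𝓞 K) (𝓞 E) n * y + y ^ 2 + algebraMap (𝓞 K) (𝓞 E) a) := by
      ring
    rw [e]
    exact W.asIdeal.add_mem ht (W.asIdeal.mul_mem_right _ hn)
  · exact absurd (by rw [ho, h]) huw
  · exact absurd (by rw [ho, h, hbel]) huw
  · exact absurd (by rw [ho, h, hbel, hbel]) huw

end H36GM
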