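import Pool.Agent.H36.GM.Fr
import Pool.Agent.H36.GM.Nr
import Pool.Agent.H36.GM.Ot
import Pool.Agent.H36.GM.Th

/-!
Assembly of part B of MP_78d38b_GM (helper36, no row), part 1: the Frobenius element and the places.
-/

set_option autoImplicit false
set_option linter.unusedSectionVars false
open scoped Classical

open WithZero NumberField IsDedekindDomain H38RT
open H38T1 (SC sc scu rep eo la si OddP)
open H76PP (Cub LC ev scm dn)
open H88OD H26OD H76GM

namespace H36GM

section Grp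

variable {G : Type} [Group G] {g τ : G}

theorem zp_cube (h : Subgroup.zpowers g = Subgroup.zpowers τ) :
    Subgroup.zpowers (g * (g * g)) = Subgroup.zpowers (τ * (τ * τ)) := by
  have h1 : g ∈ Subgroup.zpowers τ := by
    rw [← h]
    exact Subgroup.mem_zpowers _
  have h2 : τ ∈ Subgroup.zpowers g := by
    rw [h]
    exact Subgroup.mem_zpowers _
  have key : ∀ a b : G, a ∈ Subgroup.zpowers b →
      Subgroup.zpowers (a * (a * a)) ≤ Subgroup.zpowers (b * (b * b)) := by
    intro a b hab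
    rw [Subgroup.zpowers_le]
    obtain ⟨n, rfl⟩ := Subgroup.mem_zpowers_iff.1 hab
    refine Subgroup.mem_zpowers_iff.2 ⟨n, ?_⟩
    have e1 : b * (b * b) = b ^ (3 : ℤ) := by
      rw [show (3 : ℤ) = 1 + (1 + 1) by norm_num, zpow_add, zpow_add, zpow_one]
    rw [e1, ← zpow_mul, ← zpow_add, ← zpow_add]
    congr 1
    ring
  exact le_antisymm (key g τ h1) (key τ g h2)

end Grp

section Cases

variable {K E : Type} [Field K] [Field E] [Algebra K E] {g τ : E ≃ₐ[K] E}

/-- The powers of the cube fix the elements fixed by the cube. -/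
theorem fix_zp {x : E} (hx : τ (τ (τ x)) = x) (j : ℤ) : (τ ^ (3 * j)) x = x := by
  have h1 : Subgroup.zpowers (τ ^ (3 : ℤ)) ≤ MulAction.stabilizer (E ≃ₐ[K] E) x := by
    rw [Subgroup.zpowers_le, MulAction.mem_stabilizer_iff]
    rw [show (3 : ℤ) = 1 + (1 + 1) by norm_num, zpow_add, zpow_add, zpow_one]
    exact hx
  have h2 : τ ^ (3 * j) ∈ Subgroup.zpowers (τ ^ (3 : ℤ)) := by
    rw [zpow_mul]
    exact Subgroup.zpow_mem_zpowers _ _
  exact MulAction.mem_stabilizer_iff.1 (h1 h2)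

/-- A generator of the group generated by `τ` acts as `τ` or as `τ²` on the elements fixed by `τ³`. -/
theorem cases3 (h : Subgroup.zpowers g = Subgroup.zpowers τ) {x0 : E} (hx0 : τ (τ (τ x0)) = x0)
    (hne : τ x0 ≠ x0) :
    (∀ x, τ (τ (τ x)) = x → g x = τ x) ∨ (∀ x, τ (τ (τ x)) = x → g x = τ (τ x)) := by
  have h1 : g ∈ Subgroup.zpowers τ := by
    rw [← h]
    exact Subgroup.mem_zpowers _
  have h2 : τ ∈ Subgroup.zpowers g := by
    rw [h]
    exact Subgroup.mem_zpowers _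
  obtain ⟨k, hk⟩ := Subgroup.mem_zpowers_iff.1 h1
  have hk3 : k % 3 = 0 ∨ k % 3 = 1 ∨ k % 3 = 2 := by omega
  have hdiv : k = k % 3 + 3 * (k / 3) := by omega
  rcases hk3 with h3 | h3 | h3
  · exfalso
    have h4 : g x0 = x0 := by
      rw [← hk, hdiv, h3, zero_add]
      exact fix_zp hx0 _
    apply hne
    have h5 : Subgroup.zpowers g ≤ MulAction.stabilizer (E ≃ₐ[K] E) x0 := by
      rw [Subgroup.zpowers_le, MulAction.mem_stabilizer_iff]
      exact h4
    exact MulAction.mem_stabilizer_iff.1 (h5 h2)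
  · left
    intro x hx
    rw [← hk, hdiv, h3, zpow_add, zpow_one]
    change τ ((τ ^ (3 * (k / 3))) x) = τ x
    rw [fix_zp hx]
  · right
    intro x hx
    rw [← hk, hdiv, h3, zpow_add, show (2 : ℤ) = 1 + 1 by norm_num, zpow_add, zpow_one]
    change τ (τ ((τ ^ (3 * (k / 3))) x)) = τ (τ x)
    rw [fix_zp hx]

theorem fix3 (h : Subgroup.zpowers g = Subgroup.zpowers τ) {x : E} (hx : τ (τ (τ x)) = x) :
    g (g (g x)) = x := by
  have h1 : g ∈ Subgroup.zpowers τ := by
    rw [← h]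
    exact Subgroup.mem_zpowers _
  obtain ⟨k, hk⟩ := Subgroup.mem_zpowers_iff.1 h1
  have h2 : (g * (g * g)) x = x := by
    rw [← hk, ← zpow_add, ← zpow_add, show k + (k + k) = 3 * k by ring]
    exact fix_zp hx k
  exact h2

end Cases

section Below

variable {F E : Type} [Field F] [NumberField F] [Field E] [NumberField E]

theorem mem_below {f : F →+* E} {W : HeightOneSpectrum (𝓞 E)} {x : 𝓞 F} {y : 𝓞 E}
    (h : (y : E) = f (x : F)) : x ∈ (below f W).asIdeal ↔ y ∈ W.asIdeal := by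
  let _ := f.toAlgebra
  have h1 : y = algebraMap (𝓞 F) (𝓞 E) x := by
    apply RingOfIntegers.ext
    exact h
  rw [h1]
  rfl

/-- The image of an integer. -/
noncomputable def im (f : F →+* E) : 𝓞 F →+* 𝓞 E := RingOfIntegers.mapRingHom f

theorem im_coe (f : F →+* E) (x : 𝓞 F) : ((im f x : 𝓞 E) : E) = f (x : F) := rfl

theorem mem_below' (f : F →+* E) (W : HeightOneSpectrum (𝓞 E)) (x : 𝓞 F) :
    x ∈ (below f W).asIdeal ↔ im f x ∈ W.asIdeal := mem_below (im_coe f x)

theorem im_ne {f : F →+* E} {x : 𝓞 F} (h : x ≠ 0) : im f x ≠ 0 := by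
  intro h1
  apply h
  have h2 : f (x : F) = 0 := by
    rw [← im_coe, h1]
    rfl
  have h3 : (x : F) = 0 := (map_eq_zero f).1 h2
  exact RingOfIntegers.ext h3

end Below

section LaBelow

variable {K F E : Type} [Field K] [NumberField K] [Field F] [NumberField F] [Field E]
  [NumberField E] [Algebra K F] [Algebra K E] [IsGalois K E]

/-- The Legendre class at the place below, of residue degree three. -/
theorem la_below {f : F →+* E} (hf : ∀ x : K, f (algebraMap K F x) = algebraMap K E x)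
    {g : E ≃ₐ[K] E} {W : HeightOneSpectrum (𝓞 E)} (hfr : IsArithFrobAt (𝓞 K) g W.asIdeal)
    (h3 : ∀ x : F, g (g (g (f x))) = f x) {y : 𝓞 F} {y' : 𝓞 E}
    (hy : (y' : E) = g (f (y : F)) - f (y : F)) (hy' : y' ∉ W.asIdeal)
    (h2 : (2 : 𝓞 E) ∉ W.asIdeal) {d : 𝓞 F} (hd : im f d ∉ W.asIdeal) {s : E}
    (hs : s ^ 2 = f (d : F)) {e : ZMod 2} (he : g (g (g s)) = if e = 0 then s else - s) :
    la (below f W) (sc (d : F)) = e := by
  let _ : Algebra F E := f.toAlgebra
  have hT : IsScalarTower K F E := IsScalarTower.of_algebraMap_eq fun x => (hf x).symm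
  have hG : IsGalois F E := IsGalois.tower_top_of_isGalois K F E
  have hne : ∃ y : 𝓞 F, g • (algebraMap (𝓞 F) (𝓞 E) y) - algebraMap (𝓞 F) (𝓞 E) y ∉ W.asIdeal := by
    refine ⟨y, ?_⟩
    have h4 : g • (algebraMap (𝓞 F) (𝓞 E) y) - algebraMap (𝓞 F) (𝓞 E) y = y' := by
      apply RingOfIntegers.ext
      exact hy.symm
    rw [h4]
    exact hy'
  obtain ⟨g', hg', hlo, hfr'⟩ := frob3 (F := F) hfr h3 hne
  have hF : Pool.Agent.H42.PC.IsFr F E (dn F W) g' := ⟨W, hlo, hfr'⟩
  have h2' : (2 : 𝓞 F) ∉ (dn F W).asIdeal := by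
    intro h
    apply h2
    have h5 : algebraMap (𝓞 F) (𝓞 E) 2 ∈ W.asIdeal := h
    rwa [map_ofNat] at h5
  have hd' : d ∉ (dn F W).asIdeal := by
    intro h
    apply hd
    exact (mem_below' f W d).1 h
  exact H30MQ.la_of_frob hF h2' hd' hs (by rw [hg']; exact he)

/-- Integers of `F` are congruent to elements fixed by the cube of the Frobenius element. -/
theorem int_below {f : F →+* E} (hf : ∀ x : K, f (algebraMap K F x) = algebraMap K E x)
    {g : E ≃ₐ[K] E} {W : HeightOneSpectrum (𝓞 E)} (hfr : IsArithFrobAt (𝓞 K) g W.asIdeal)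
    (h3 : ∀ x : F, g (g (g (f x))) = f x) {y : 𝓞 F} {y' : 𝓞 E}
    (hy : (y' : E) = g (f (y : F)) - f (y : F)) (hy' : y' ∉ W.asIdeal) {x : 𝓞 E}
    (hx : g (g (g (x : E))) = x) : ∃ n : 𝓞 F, im f n - x ∈ W.asIdeal := by
  let _ : Algebra F E := f.toAlgebra
  have hT : IsScalarTower K F E := IsScalarTower.of_algebraMap_eq fun x => (hf x).symm
  have hG : IsGalois F E := IsGalois.tower_top_of_isGalois K F E
  have hne : ∃ y : 𝓞 F, g • (algebraMap (𝓞 F) (𝓞 E) y) - algebraMap (𝓞 F) (𝓞 E) y ∉ W.asIdeal := by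
    refine ⟨y, ?_⟩
    have h4 : g • (algebraMap (𝓞 F) (𝓞 E) y) - algebraMap (𝓞 F) (𝓞 E) y = y' := by
      apply RingOfIntegers.ext
      exact hy.symm
    rw [h4]
    exact hy'
  obtain ⟨g', hg', hlo, hfr'⟩ := frob3 (F := F) hfr h3 hne
  obtain ⟨n, hn⟩ := H76OD.int_of_frobW (K := F) hlo hfr' (x := x) (by
    apply RingOfIntegers.ext
    change g' (x : E) = x
    rw [hg', hx])
  exact ⟨n, hn⟩

end LaBelow

end H36GM
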