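import Pool.Agent.H36.GM.Bb

/-!
Assembly of part B of MP_78d38b_GM (helper36, no row), part 3: the theorem on the prime `q`.
-/

set_option autoImplicit false
set_option linter.unusedSectionVars false
open scoped Classical

open WithZero NumberField IsDedekindDomain H38RT
open H38T1 (SC sc scu rep eo la si OddP)
open H76PP (Cub LC ev scm dn)
open H88OD H26OD H76GM

namespace H36GM

theorem arith {K M N N2 LM E : Type} [Field K] [NumberField K] [Field M] [NumberField M] [Field N]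
    [NumberField N] [Field N2] [NumberField N2] [Field LM] [NumberField LM] [Field E]
    [NumberField E] [Algebra K M] [Algebra K N] [Algebra M N] [IsScalarTower K M N] [Algebra K N2]
    [Algebra N N2] [IsScalarTower K N N2] [Algebra M LM] [Algebra K E] [Algebra N2 E]
    [Algebra N E] [IsScalarTower K N E] [IsScalarTower N N2 E] [IsScalarTower K N2 E]
    [IsGalois K N] [IsGalois K E] {a b : 𝓞 K} {θ : LM} {r : Fin 3 → N2}
    (hc : Cub M LM (algebraMap K M (a : K)) (algebraMap K M (b : K)) θ)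
    (D : N2D K N N2 (a : K) (b : K) r) {ε : (M →ₐ[K] N) → Fin 3 → (LM →+* N2)}
    (hε : EpsD θ r ε) {o1 o2 o3 : M →ₐ[K] N} {γ : N ≃ₐ[K] N} {τ : E ≃ₐ[K] E}
    (T : TauD r o1 o2 o3 γ τ) (β : Finset (𝓞 K)) (hβ : ∀ d ∈ β, d ≠ 0) (sβ : 𝓞 K → E)
    (hsβ : ∀ d ∈ β, sβ d ^ 2 = algebraMap K E (d : K)) (hτβ : ∀ d ∈ β, τ (sβ d) = sβ d)
    {ι : Type} [Fintype ι] (z : ι → 𝓞 LM) (hz : ∀ i, z i ≠ 0) (m : ι → Fin 3) (s : ι → E)
    (hs : ∀ i, s i ^ 2 = algebraMap N2 E (ε o1 (m i) (z i : LM))) (e : ι → ZMod 2)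
    (hτs : ∀ i, τ (τ (τ (s i))) = if e i = 0 then s i else - s i)
    {A₀ : Set (HeightOneSpectrum (𝓞 K))} (hA₀ : A₀.Finite) :
    ∃ (q : HeightOneSpectrum (𝓞 K)) (w : HeightOneSpectrum (𝓞 M))
      (t : Fin 3 → HeightOneSpectrum (𝓞 LM)), q ∉ A₀ ∧ Pr3 a b q w ∧
      (∀ d ∈ β, la q (sc (d : K)) = 0) ∧ (∀ j, dn M (t j) = w) ∧ (∀ j, OddP (t j)) ∧
      ∀ i, la (t (m i)) (sc (z i : LM)) = e i := by
  -- the integers of `E`
  obtain ⟨A, hA⟩ : ∃ A : 𝓞 M, A = algebraMap (𝓞 K) (𝓞 M) a := ⟨_, rfl⟩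
  obtain ⟨B, hB⟩ : ∃ B : 𝓞 M, B = algebraMap (𝓞 K) (𝓞 M) b := ⟨_, rfl⟩
  have hA' : (A : M) = algebraMap K M (a : K) := by
    rw [hA]
    rfl
  have hB' : (B : M) = algebraMap K M (b : K) := by
    rw [hB]
    rfl
  obtain ⟨θ', hθ'⟩ := H76PP.theta_int (K := M) (L := LM) (A := A) (B := B) (θ := θ) (by
    rw [hA', hB']
    exact hc)
  let f : (M →ₐ[K] N) → (M →+* E) := fun o => (algebraMap N E).comp (o : M →+* N)
  let ρ : Fin 3 → (LM →+* E) := fun j => (algebraMap N2 E).comp (ε o1 j)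
  have hNE : ∀ x : N, algebraMap N E x = algebraMap N2 E (algebraMap N N2 x) :=
    fun x => IsScalarTower.algebraMap_apply N N2 E x
  have hfK : ∀ (o : M →ₐ[K] N) (x : K), f o (algebraMap K M x) = algebraMap K E x := by
    intro o x
    change algebraMap N E (o (algebraMap K M x)) = _
    rw [AlgHom.commutes, ← IsScalarTower.algebraMap_apply K N E]
  have hρM : ∀ (j : Fin 3) (x : M), ρ j (algebraMap M LM x) = f o1 x := by
    intro j x
    change algebraMap N2 E (ε o1 j (algebraMap M LM x)) = algebraMap N E (o1 x)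
    rw [hε.m, hNE]
  obtain ⟨rE, hrE⟩ : ∃ rE : Fin 3 → 𝓞 E, rE = fun j => im (ρ j) θ' := ⟨_, rfl⟩
  have hrE' : ∀ j, (rE j : E) = algebraMap N2 E (r j) := by
    intro j
    rw [hrE]
    change algebraMap N2 E (ε o1 j (θ' : LM)) = _
    rw [hθ', hε.θ]
  have hrne : ∀ j j', j ≠ j' → rE j - rE j' ≠ 0 := by
    intro j j' hjj h
    have h1 : (rE j : E) - (rE j' : E) = 0 := by
      have h2 := congrArg (fun x : 𝓞 E => (x : E)) h
      exact h2
    rw [hrE', hrE', ← map_sub] at h1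
    have h2 := (map_eq_zero (algebraMap N2 E)).1 h1
    exact hjj (D.inj (sub_eq_zero.1 h2))
  obtain ⟨y1, hy1⟩ := exists_diff (K := K) T.h12
  obtain ⟨y2, hy2⟩ := exists_diff (K := K) (Ne.symm T.h31)
  have hd1 : im (f o2) y1 - im (f o1) y1 ≠ 0 := by
    intro h
    have h1 : (f o2 (y1 : M)) - (f o1 (y1 : M)) = 0 := by
      have h2 := congrArg (fun x : 𝓞 E => (x : E)) h
      exact h2
    have h2 : algebraMap N E (o2 (y1 : M)) = algebraMap N E (o1 (y1 : M)) := sub_eq_zero.1 h1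
    exact hy1 ((algebraMap N E).injective h2).symm
  have hd2 : im (f o3) y2 - im (f o1) y2 ≠ 0 := by
    intro h
    have h1 : (f o3 (y2 : M)) - (f o1 (y2 : M)) = 0 := by
      have h2 := congrArg (fun x : 𝓞 E => (x : E)) h
      exact h2
    have h2 : algebraMap N E (o3 (y2 : M)) = algebraMap N E (o1 (y2 : M)) := sub_eq_zero.1 h1
    exact hy2 ((algebraMap N E).injective h2).symm
  -- the bad integers
  obtain ⟨S, hS⟩ : ∃ S : Finset (𝓞 E), S = {(2 : 𝓞 E), im (f o2) y1 - im (f o1) y1,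
      im (f o3) y2 - im (f o1) y2} ∪
      (((Finset.univ : Finset (Fin 3 × Fin 3)).filter fun p => p.1 ≠ p.2).image
        fun p => rE p.1 - rE p.2) ∪ β.image (algebraMap (𝓞 K) (𝓞 E)) ∪
      Finset.univ.image (fun i => im (ρ (m i)) (z i)) := ⟨_, rfl⟩
  have hinjK : ∀ d : 𝓞 K, d ≠ 0 → algebraMap (𝓞 K) (𝓞 E) d ≠ 0 := by
    intro d hd h
    apply hd
    apply RingOfIntegers.ext
    have h5 : algebraMap K E (d : K) = 0 := by
      have h6 := congrArg (fun z : 𝓞 E => (z : E)) h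
      exact h6
    exact (map_eq_zero (algebraMap K E)).1 h5
  have hS0 : ∀ x ∈ S, x ≠ 0 := by
    intro x hx
    rw [hS] at hx
    simp only [Finset.mem_union, Finset.mem_insert, Finset.mem_singleton, Finset.mem_image,
      Finset.mem_filter, Finset.mem_univ, true_and] at hx
    rcases hx with ((((rfl | rfl | rfl) | ⟨p, hp, rfl⟩) | ⟨d, hd, rfl⟩) | ⟨i, rfl⟩)
    · exact two_ne_zero
    · exact hd1
    · exact hd2
    · exact hrne _ _ hp
    · exact hinjK d (hβ d hd)
    · exact im_ne (hz i)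
  obtain ⟨g, W, hg, hfr, hWA, hWS⟩ := choose_frob τ S hS0
    (hA₀.union ((ram_fin' K M).image (dn K)))
  have h2W : (2 : 𝓞 E) ∉ W.asIdeal := hWS _ (by rw [hS]; simp)
  have hd1W : im (f o2) y1 - im (f o1) y1 ∉ W.asIdeal := hWS _ (by rw [hS]; simp)
  have hd2W : im (f o3) y2 - im (f o1) y2 ∉ W.asIdeal := hWS _ (by rw [hS]; simp)
  have hrW : ∀ j j', j ≠ j' → rE j - rE j' ∉ W.asIdeal := by
    intro j j' hjj
    refine hWS _ ?_
    rw [hS]
    simp only [Finset.mem_union, Finset.mem_image, Finset.mem_filter, Finset.mem_univ, true_and]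
    exact Or.inl (Or.inl (Or.inr ⟨(j, j'), hjj, rfl⟩))
  have hβW : ∀ d ∈ β, algebraMap (𝓞 K) (𝓞 E) d ∉ W.asIdeal := by
    intro d hd
    refine hWS _ ?_
    rw [hS]
    simp only [Finset.mem_union, Finset.mem_image]
    exact Or.inl (Or.inr ⟨d, hd, rfl⟩)
  have hzW : ∀ i, im (ρ (m i)) (z i) ∉ W.asIdeal := by
    intro i
    refine hWS _ ?_
    rw [hS]
    simp only [Finset.mem_union, Finset.mem_image, Finset.mem_univ, true_and]
    exact Or.inr ⟨i, rfl⟩
  -- the action of `g`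
  have hcase := cases3 hg (x0 := algebraMap N2 E (r 0)) (T.t3r 0) (by
    rw [T.tr]
    intro h
    have h1 := D.inj ((algebraMap N2 E).injective h)
    revert h1
    decide)
  have hfix3 : ∀ x : E, τ (τ (τ x)) = x → g (g (g x)) = x := fun x hx => fix3 hg hx
  have hρ3 : ∀ (j : Fin 3) (x : LM), g (g (g (ρ j x))) = ρ j x :=
    fun j x => hfix3 _ (T.t3e hc hε o1 j x)
  have hf3 : ∀ (o : M →ₐ[K] N) (x : M), τ (τ (τ (f o x))) = f o x := by
    intro o x
    change τ (τ (τ (algebraMap N E (o x)))) = algebraMap N E (o x)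
    rw [hNE]
    exact T.t3o o x
  have hτf : ∀ (o : M →ₐ[K] N) (x : M), τ (f o x) = f (γ.toAlgHom.comp o) x := by
    intro o x
    change τ (algebraMap N E (o x)) = algebraMap N E (γ (o x))
    rw [hNE, hNE]
    exact T.tN (o x)
  obtain ⟨π, hπ, hgr⟩ : ∃ π : Fin 3 → Fin 3, (∀ j, π j ≠ j) ∧
      ∀ j, g (rE j : E) = (rE (π j) : E) := by
    rcases hcase with h | h
    · refine ⟨fun j => j + 1, by decide, fun j => ?_⟩
      rw [hrE', hrE', h _ (T.t3r j), T.tr]
    · refine ⟨fun j => j + 1 + 1, by decide, fun j => ?_⟩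
      rw [hrE', hrE', h _ (T.t3r j), T.tr, T.tr]
  obtain ⟨y, y', hyy, hyW⟩ : ∃ (y : 𝓞 M) (y' : 𝓞 E), (y' : E) = g (f o1 (y : M)) - f o1 (y : M) ∧
      y' ∉ W.asIdeal := by
    rcases hcase with h | h
    · refine ⟨y1, im (f o2) y1 - im (f o1) y1, ?_, hd1W⟩
      rw [h _ (hf3 o1 _), hτf, T.g1]
      rfl
    · refine ⟨y2, im (f o3) y2 - im (f o1) y2, ?_, hd2W⟩
      rw [h _ (hf3 o1 _), hτf, hτf, T.g1, T.g2]
      rfl
  obtain ⟨γ', hγ'⟩ : ∃ γ' : N ≃ₐ[K] N, ∀ x : N, g (algebraMap N E x) = algebraMap N E (γ' x) :=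
    ⟨g.restrictNormal N, fun x => (g.restrictNormal_commutes N x).symm⟩
  have hcomp : ∀ o : M →ₐ[K] N, (∀ x, g (f o x) = f (γ.toAlgHom.comp o) x) →
      γ'.toAlgHom.comp o = γ.toAlgHom.comp o := by
    intro o ho
    apply AlgHom.ext
    intro x
    apply (algebraMap N E).injective
    have h1 := ho x
    have h2 : g (f o x) = algebraMap N E (γ' (o x)) := hγ' (o x)
    rw [h2] at h1
    exact h1
  have hcomp2 : ∀ o : M →ₐ[K] N, (∀ x, g (f o x) = f (γ.toAlgHom.comp (γ.toAlgHom.comp o)) x) →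
      γ'.toAlgHom.comp o = γ.toAlgHom.comp (γ.toAlgHom.comp o) := by
    intro o ho
    apply AlgHom.ext
    intro x
    apply (algebraMap N E).injective
    have h1 := ho x
    have h2 : g (f o x) = algebraMap N E (γ' (o x)) := hγ' (o x)
    rw [h2] at h1
    exact h1
  have hfix : ∀ o : M →ₐ[K] N, γ'.toAlgHom.comp o = o ∨ o = o1 ∨ o = γ'.toAlgHom.comp o1 ∨
      o = γ'.toAlgHom.comp (γ'.toAlgHom.comp o1) := by
    intro o
    by_cases e1 : o = o1
    · exact Or.inr (Or.inl e1)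
    rcases hcase with h | h
    · have h1 : ∀ o, γ'.toAlgHom.comp o = γ.toAlgHom.comp o :=
        fun o => hcomp o fun x => by rw [h _ (hf3 o x), hτf]
      by_cases e2 : o = o2
      · right; right; left
        rw [h1, T.g1, e2]
      by_cases e3 : o = o3
      · right; right; right
        rw [h1, h1, T.g1, T.g2, e3]
      left
      rw [h1, T.g4 o e1 e2 e3]
    · have h1 : ∀ o, γ'.toAlgHom.comp o = γ.toAlgHom.comp (γ.toAlgHom.comp o) :=
        fun o => hcomp2 o fun x => by rw [h _ (hf3 o x), hτf, hτf]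
      by_cases e2 : o = o2
      · right; right; right
        rw [h1, h1, T.g1, T.g2, T.g3, T.g1, e2]
      by_cases e3 : o = o3
      · right; right; left
        rw [h1, T.g1, T.g2, e3]
      left
      rw [h1, T.g4 o e1 e2 e3, T.g4 o e1 e2 e3]
  -- the places
  have hwq : dn K (below (f o1) W) = dn K W := by
    apply HeightOneSpectrum.ext
    ext x
    change algebraMap (𝓞 K) (𝓞 M) x ∈ (below (f o1) W).asIdeal ↔
      algebraMap (𝓞 K) (𝓞 E) x ∈ W.asIdeal
    refine mem_below ?_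
    change algebraMap K E (x : K) = f o1 (algebraMap K M (x : K))
    rw [hfK]
  have htw : ∀ j, dn M (below (ρ j) W) = below (f o1) W := by
    intro j
    apply HeightOneSpectrum.ext
    ext x
    rw [mem_below' (f o1) W x]
    change algebraMap (𝓞 M) (𝓞 LM) x ∈ (below (ρ j) W).asIdeal ↔ _
    refine mem_below ?_
    change f o1 (x : M) = ρ j (algebraMap M LM (x : M))
    rw [hρM]
  obtain ⟨hs1, hs2, hs3⟩ := roots_sym D
  have hrootsE : ∀ x : 𝓞 E, x ^ 3 + algebraMap (𝓞 K) (𝓞 E) a * x + algebraMap (𝓞 K) (𝓞 E) b =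
      (x - rE 0) * (x - rE 1) * (x - rE 2) := by
    intro x
    apply RingOfIntegers.ext
    change (x : E) ^ 3 + algebraMap K E (a : K) * (x : E) + algebraMap K E (b : K) =
      ((x : E) - (rE 0 : E)) * ((x : E) - (rE 1 : E)) * ((x : E) - (rE 2 : E))
    rw [hrE', hrE', hrE']
    have t1 := congrArg (algebraMap N2 E) hs1
    have t2 := congrArg (algebraMap N2 E) hs2
    have t3 := congrArg (algebraMap N2 E) hs3
    simp only [map_add, map_mul, map_neg, map_zero, ← IsScalarTower.algebraMap_apply K N2 E] at t1 t2 t3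
    linear_combination (x : E) ^ 2 * t1 - (x : E) * t2 + t3
  have hwn : ¬ H73P2.Ram K (below (f o1) W) := by
    intro h
    exact hWA (Or.inr ⟨_, h, hwq⟩)
  have hnr := noroot_q hfr hrootsE hπ hgr hrW
  have hPr : Pr3 a b (dn K W) (below (f o1) W) := by
    refine ⟨hwq, fun x hx => ?_, hnr, fun u hu huw => ?_, ?_⟩
    · rw [← hwq]
      exact H73P2.unram_ord hwn hx
    · exact noroot_oth hfr hγ' hfix hnr hu huw
    · have hn : ∀ j, ∃ n : 𝓞 M, im (f o1) n - rE j ∈ W.asIdeal := by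
        intro j
        refine int_below (hfK o1) hfr (fun x => hfix3 _ (hf3 o1 x)) hyy hyW (hfix3 _ ?_)
        rw [hrE']
        exact T.t3r j
      choose n hn using hn
      have h1 := three_below (f := f o1) (W := W) (A := A) (B := B) (r := rE) (by
        intro x
        rw [← hrootsE x]
        have e1 : im (f o1) A = algebraMap (𝓞 K) (𝓞 E) a := by
          apply RingOfIntegers.ext
          change f o1 (A : M) = algebraMap K E (a : K)
          rw [hA', hfK]
        have e2 : im (f o1) B = algebraMap (𝓞 K) (𝓞 E) b := by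
          apply RingOfIntegers.ext
          change f o1 (B : M) = algebraMap K E (b : K)
          rw [hB', hfK]
        rw [e1, e2]) hrW hn
      rw [hA', hB'] at h1
      exact h1
  refine ⟨dn K W, below (f o1) W, fun j => below (ρ j) W, fun h => hWA (Or.inl h), hPr,
    fun d hd => ?_, htw, fun j => H30MQ.oddP_of fun h => h2W ?_, fun i => ?_⟩
  · have hF : Pool.Agent.H42.PC.IsFr K E (dn K W) g := ⟨W, ⟨rfl⟩, hfr⟩
    have h2' : (2 : 𝓞 K) ∉ (dn K W).asIdeal := by
      intro h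
      apply h2W
      have h5 : algebraMap (𝓞 K) (𝓞 E) 2 ∈ W.asIdeal := h
      rwa [map_ofNat] at h5
    refine H30MQ.la_of_frob hF h2' (hβW d hd) (hsβ d hd) ?_
    exact H30MQ.same_sign hg (by rw [if_pos rfl]; exact hτβ d hd)
  · have h5 := (mem_below' (ρ j) W 2).1 h
    rwa [map_ofNat] at h5
  · have hLK : ∀ x : K, ρ (m i) (algebraMap M LM (algebraMap K M x)) = algebraMap K E x := by
      intro x
      rw [hρM, hfK]
    let _ : Algebra K LM := ((algebraMap M LM).comp (algebraMap K M)).toAlgebra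
    refine la_below (K := K) (F := LM) (f := ρ (m i)) hLK hfr (hρ3 (m i))
      (y := algebraMap (𝓞 M) (𝓞 LM) y) (y' := y') ?_ hyW h2W (hzW i) (hs i) ?_
    · rw [hyy]
      have e1 : ρ (m i) ((algebraMap (𝓞 M) (𝓞 LM) y : 𝓞 LM) : LM) = f o1 (y : M) := hρM (m i) (y : M)
      rw [e1]
    · have h1 := H30MQ.same_sign (zp_cube hg) (s := s i) (e := e i) (hτs i)
      exact h1

end H36GM
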