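import Pool.Agent.H36.GM.Df

/-!
ROW Cn (MP_78d38b_GM, helper36, about 130 lines): the combinatorial part of the independence.

PROOF. `C m m' o := X o m + Y o m'`. `R` for `(g, σ)` reads `C (σ 0) (σ 1) (g∘o1) + C (σ 1) (σ 2) (g∘o2) + C (σ 2) (σ 0) (g∘o3) = k`. `h2 : w + w = 0`.
`Fintype.card (M →ₐ[K] N) = Module.finrank K M` (odd, not `1`): it is `3` or at least `5`.
CASE >= 4 embeddings different from .. (`finrank ≠ 3`): let `o4 ∉ {o1, o2, o3}`, choose `o5 ∉ {o1, o2, o3, o4}` (at least five embeddings). `G.cyc o3 o4 o5`: an element `g` with `o3 ↦ o4`, fixing `o1`, `o2`. `R g σ` minus `R 1 σ`: `C (σ 2) (σ 0) o4 = C (σ 2) (σ 0) o3` for all `σ`. In the same way with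
`o1`, `o2` in place of `o3`. As `σ` is arbitrary (for `m ≠ m'` there is `σ` with `σ 0 = m, σ 1 = m'`, etc.: `decide`), `C m m' o = C m m' o4` for `o = o1, o2, o3`, all `m ≠ m'` and ALL `o4` outside; so `C m m'` is constant.
CASE three embeddings (every embedding is `o1`, `o2` or `o3`): `G.swap o1 o2`: `g` exchanges `o1`, `o2`, so it fixes `o3`. `R g σ + R 1 σ`: `C (σ0)(σ1) o1 + C (σ1)(σ2) o1 = C (σ0)(σ1) o2 + C (σ1)(σ2) o2`; and `C (σ0)(σ1) o + C (σ1)(σ2) o + C (σ2)(σ0) o = 0` by `hX`, `hY`; so `C (σ2)(σ0) o1 = C (σ2)(σ0) o2`.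
The same for `o1, o3` and `o2, o3`.
In both cases `C m m'` is constant on the embeddings for `m ≠ m'`. With `{m, m', m''} = {0,1,2}`: `C m m' o + C m m'' o = Y o m' + Y o m'' = Y o m` is constant (`hY`), so `Y · m` is constant, and `X o m = C m m' o + Y o m'` too.
-/

set_option autoImplicit false
set_option linter.unusedSectionVars false
open scoped Classical

open WithZero NumberField IsDedekindDomain H38RT
open H38T1 (SC sc scu rep eo la si OddP)
open H76PP (Cub LC ev scm dn)
open H88OD H26OD H76GM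

namespace H36GM

lemma cn_card {K M N : Type} [Field K] [NumberField K] [Field M] [NumberField M] [Field N]
    [NumberField N] [Algebra K M] [Algebra K N] [Algebra M N] [IsScalarTower K M N] [IsGalois K N] :
    Fintype.card (M →ₐ[K] N) = Module.finrank K M := by
  refine AlgHom.card_of_splits K M N (fun x => ?_)
  have h := (inferInstance : Normal K N).splits (algebraMap M N x)
  rwa [minpoly.algebraMap_eq (algebraMap M N).injective] at h

lemma cn_perm (m m' : Fin 3) (h : m ≠ m') :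
    (∃ σ : Equiv.Perm (Fin 3), σ 0 = m ∧ σ 1 = m') ∧ (∃ σ : Equiv.Perm (Fin 3), σ 1 = m ∧ σ 2 = m') ∧
      ∃ σ : Equiv.Perm (Fin 3), σ 2 = m ∧ σ 0 = m' := by
  revert m m'; decide

/-- From the constancy of the sums `X o m + Y o m'`. -/
lemma cn_fin {O W : Type} [AddCommGroup W] (h2 : ∀ w : W, w + w = 0) (X Y : O → Fin 3 → W)
    (hY : ∀ o, Y o 0 + Y o 1 + Y o 2 = 0)
    (hC : ∀ (o o' : O) (m m' : Fin 3), m ≠ m' → X o m + Y o m' = X o' m + Y o' m') :
    (∀ (o o' : O) (m : Fin 3), X o m = X o' m) ∧ ∀ (o o' : O) (m : Fin 3), Y o m = Y o' m := by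
  have key : ∀ (o : O) (m m' m'' : Fin 3), m ≠ m' → m ≠ m'' → m' ≠ m'' →
      Y o m = (X o m + Y o m') + (X o m + Y o m'') := by
    intro o m m' m'' a b c
    have h3 : Y o m + (Y o m' + Y o m'') = 0 := by
      have := hY o
      fin_cases m <;> fin_cases m' <;> fin_cases m'' <;>
        first | exact absurd rfl a | exact absurd rfl b | exact absurd rfl c | skip
      all_goals
        simp only [Fin.zero_eta, Fin.mk_one, Fin.reduceFinMk, Fin.isValue] at *
        rw [← this]
        abel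
    have e1 : (X o m + Y o m') + (X o m + Y o m'') = Y o m + Y o m + (Y o m' + Y o m'') := by
      rw [h2 (Y o m), zero_add]
      calc (X o m + Y o m') + (X o m + Y o m'') = (X o m + X o m) + (Y o m' + Y o m'') := by abel
        _ = _ := by rw [h2 (X o m), zero_add]
    rw [e1, add_assoc, h3, add_zero]
  have hY' : ∀ (o o' : O) (m : Fin 3), Y o m = Y o' m := by
    intro o o' m
    obtain ⟨m', m'', a, b, c⟩ : ∃ m' m'' : Fin 3, m ≠ m' ∧ m ≠ m'' ∧ m' ≠ m'' := by
      revert m; decide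
    rw [key o m m' m'' a b c, key o' m m' m'' a b c, hC o o' m m' a, hC o o' m m'' b]
  refine ⟨fun o o' m => ?_, hY'⟩
  obtain ⟨m', a⟩ : ∃ m' : Fin 3, m ≠ m' := by revert m; decide
  have := hC o o' m m' a
  rw [hY' o o' m'] at this
  exact add_right_cancel this

theorem const_of_rel {K M N : Type} [Field K] [NumberField K] [Field M] [NumberField M] [Field N]
    [NumberField N] [Algebra K M] [Algebra K N] [Algebra M N] [IsScalarTower K M N] [IsGalois K N]
    (hodd : Odd (Module.finrank K M)) (h1 : Module.finrank K M ≠ 1) (G : Gen K M N) {W : Type}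
    [AddCommGroup W] (h2 : ∀ w : W, w + w = 0) (X Y : (M →ₐ[K] N) → Fin 3 → W) (k : W)
    (hX : ∀ o, X o 0 + X o 1 + X o 2 = 0) (hY : ∀ o, Y o 0 + Y o 1 + Y o 2 = 0)
    {o1 o2 o3 : M →ₐ[K] N} (h12 : o1 ≠ o2) (h23 : o2 ≠ o3) (h31 : o3 ≠ o1)
    (R : ∀ (g : N ≃ₐ[K] N) (σ : Equiv.Perm (Fin 3)),
      X (g.toAlgHom.comp o1) (σ 0) + X (g.toAlgHom.comp o2) (σ 1) + X (g.toAlgHom.comp o3) (σ 2) +
      (Y (g.toAlgHom.comp o1) (σ 1) + Y (g.toAlgHom.comp o2) (σ 2) +
        Y (g.toAlgHom.comp o3) (σ 0)) = k) :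
    (∀ (o o' : M →ₐ[K] N) (m : Fin 3), X o m = X o' m) ∧
      ∀ (o o' : M →ₐ[K] N) (m : Fin 3), Y o m = Y o' m := by
  set C : Fin 3 → Fin 3 → (M →ₐ[K] N) → W := fun m m' o => X o m + Y o m' with hCd
  have R1 : ∀ (g : N ≃ₐ[K] N) (σ : Equiv.Perm (Fin 3)),
      C (σ 0) (σ 1) (g.toAlgHom.comp o1) + C (σ 1) (σ 2) (g.toAlgHom.comp o2) +
        C (σ 2) (σ 0) (g.toAlgHom.comp o3) = k := by
    intro g σ
    rw [← R g σ]
    simp only [hCd]
    abel
  have R0 : ∀ σ : Equiv.Perm (Fin 3),
      C (σ 0) (σ 1) o1 + C (σ 1) (σ 2) o2 + C (σ 2) (σ 0) o3 = k := by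
    intro σ
    have := R1 AlgEquiv.refl σ
    have e : ∀ o : M →ₐ[K] N, (AlgEquiv.refl : N ≃ₐ[K] N).toAlgHom.comp o = o := by
      intro o; ext x; rfl
    rwa [e, e, e] at this
  have hS : ∀ (σ : Equiv.Perm (Fin 3)) (o : M →ₐ[K] N),
      C (σ 0) (σ 1) o + C (σ 1) (σ 2) o + C (σ 2) (σ 0) o = 0 := by
    intro σ o
    have e : ∀ Z : Fin 3 → W, Z (σ 0) + Z (σ 1) + Z (σ 2) = Z 0 + Z 1 + Z 2 := by
      intro Z
      have := Equiv.sum_comp σ Z
      simpa [Fin.sum_univ_three] using this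
    have a := e (X o)
    have b := e (Y o)
    rw [hX o] at a
    rw [hY o] at b
    simp only [hCd]
    calc _ = (X o (σ 0) + X o (σ 1) + X o (σ 2)) + (Y o (σ 0) + Y o (σ 1) + Y o (σ 2)) := by abel
      _ = 0 := by rw [a, b, add_zero]
  have hcomp : ∀ (g : N ≃ₐ[K] N) (o o' : M →ₐ[K] N),
      g.toAlgHom.comp o = g.toAlgHom.comp o' → o = o' := by
    intro g o o' h
    ext x
    have := DFunLike.congr_fun h x
    exact g.injective this
  have hcard : Fintype.card (M →ₐ[K] N) = Module.finrank K M := cn_card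
  have hC : ∀ (o o' : M →ₐ[K] N) (m m' : Fin 3), m ≠ m' → C m m' o = C m m' o' := by
    by_cases h3 : Module.finrank K M = 3
    · -- three embeddings
      have hall : ∀ o : M →ₐ[K] N, o = o1 ∨ o = o2 ∨ o = o3 := by
        intro o
        by_contra hne
        push Not at hne
        have hc : ({o, o1, o2, o3} : Finset (M →ₐ[K] N)).card = 4 := by
          rw [Finset.card_insert_of_notMem, Finset.card_insert_of_notMem,
            Finset.card_insert_of_notMem, Finset.card_singleton]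
          · simpa using h23
          · simp only [Finset.mem_insert, Finset.mem_singleton, not_or]
            exact ⟨h12, h31.symm⟩
          · simp only [Finset.mem_insert, Finset.mem_singleton, not_or]
            exact hne
        have := Finset.card_le_univ ({o, o1, o2, o3} : Finset (M →ₐ[K] N))
        rw [hc, hcard, h3] at this
        omega
      obtain ⟨g, hg1, hg2⟩ := G.swap h3 o1 o2 h12
      have hg3 : g.toAlgHom.comp o3 = o3 := by
        rcases hall (g.toAlgHom.comp o3) with h | h | h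
        · exact absurd (hcomp g _ _ (h.trans hg2.symm)) h23.symm
        · exact absurd (hcomp g _ _ (h.trans hg1.symm)) h31
        · exact h
      obtain ⟨g', hg1', hg3'⟩ := G.swap h3 o1 o3 h31.symm
      have hg2' : g'.toAlgHom.comp o2 = o2 := by
        rcases hall (g'.toAlgHom.comp o2) with h | h | h
        · exact absurd (hcomp g' _ _ (h.trans hg3'.symm)) h23
        · exact h
        · exact absurd (hcomp g' _ _ (h.trans hg1'.symm)) h12.symm
      have neg : ∀ w : W, -w = w := fun w => by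
        rw [neg_eq_iff_add_eq_zero]; exact h2 w
      have e12 : ∀ σ : Equiv.Perm (Fin 3), C (σ 2) (σ 0) o1 = C (σ 2) (σ 0) o2 := by
        intro σ
        have a := R1 g σ
        have b := R0 σ
        rw [hg1, hg2, hg3] at a
        have c := hS σ o1
        have d := hS σ o2
        have t : C (σ 2) (σ 0) o1 - C (σ 2) (σ 0) o2 =
            (C (σ 0) (σ 1) o1 + C (σ 1) (σ 2) o1 + C (σ 2) (σ 0) o1) -
            (C (σ 0) (σ 1) o2 + C (σ 1) (σ 2) o2 + C (σ 2) (σ 0) o2) +
            ((C (σ 0) (σ 1) o2 + C (σ 1) (σ 2) o1 + C (σ 2) (σ 0) o3) -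
             (C (σ 0) (σ 1) o1 + C (σ 1) (σ 2) o2 + C (σ 2) (σ 0) o3)) +
            (C (σ 1) (σ 2) o2 - C (σ 1) (σ 2) o1) + (C (σ 1) (σ 2) o2 - C (σ 1) (σ 2) o1) := by abel
        rw [c, d, a, b, sub_self, sub_self, add_zero, zero_add, h2] at t
        exact sub_eq_zero.1 t
      have e13 : ∀ σ : Equiv.Perm (Fin 3), C (σ 1) (σ 2) o1 = C (σ 1) (σ 2) o3 := by
        intro σ
        have a := R1 g' σ
        have b := R0 σ
        rw [hg1', hg2', hg3'] at a
        have c := hS σ o1
        have d := hS σ o3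
        have t : C (σ 1) (σ 2) o1 - C (σ 1) (σ 2) o3 =
            (C (σ 0) (σ 1) o1 + C (σ 1) (σ 2) o1 + C (σ 2) (σ 0) o1) -
            (C (σ 0) (σ 1) o3 + C (σ 1) (σ 2) o3 + C (σ 2) (σ 0) o3) +
            ((C (σ 0) (σ 1) o3 + C (σ 1) (σ 2) o2 + C (σ 2) (σ 0) o1) -
             (C (σ 0) (σ 1) o1 + C (σ 1) (σ 2) o2 + C (σ 2) (σ 0) o3)) +
            (C (σ 2) (σ 0) o3 - C (σ 2) (σ 0) o1) + (C (σ 2) (σ 0) o3 - C (σ 2) (σ 0) o1) := by abel
        rw [c, d, a, b, sub_self, sub_self, add_zero, zero_add, h2] at t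
        exact sub_eq_zero.1 t
      have f1 : ∀ (o : M →ₐ[K] N) (m m' : Fin 3), m ≠ m' → C m m' o = C m m' o1 := by
        intro o m m' hm
        rcases hall o with rfl | rfl | rfl
        · rfl
        · obtain ⟨σ, rfl, rfl⟩ := (cn_perm m m' hm).2.2
          exact (e12 σ).symm
        · obtain ⟨σ, rfl, rfl⟩ := (cn_perm m m' hm).2.1
          exact (e13 σ).symm
      intro o o' m m' hm
      rw [f1 o m m' hm, f1 o' m m' hm]
    · -- at least five embeddings
      have h5 : 5 ≤ Module.finrank K M := by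
        have hc : ({o1, o2, o3} : Finset (M →ₐ[K] N)).card = 3 := by
          rw [Finset.card_insert_of_notMem, Finset.card_insert_of_notMem, Finset.card_singleton]
          · simpa using h23
          · simp only [Finset.mem_insert, Finset.mem_singleton, not_or]
            exact ⟨h12, h31.symm⟩
        have := Finset.card_le_univ ({o1, o2, o3} : Finset (M →ₐ[K] N))
        rw [hc, hcard] at this
        rcases hodd with ⟨r, hr⟩
        omega
      have key : ∀ o4 : M →ₐ[K] N, o4 ≠ o1 → o4 ≠ o2 → o4 ≠ o3 → ∀ (m m' : Fin 3), m ≠ m' →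
          C m m' o1 = C m m' o4 ∧ C m m' o2 = C m m' o4 ∧ C m m' o3 = C m m' o4 := by
        intro o4 n1 n2 n3 m m' hm
        obtain ⟨o5, k5⟩ : ∃ o5 : M →ₐ[K] N, o5 ∉ ({o1, o2, o3, o4} : Finset (M →ₐ[K] N)) := by
          by_contra hne
          push Not at hne
          have hu : (Finset.univ : Finset (M →ₐ[K] N)) ⊆ {o1, o2, o3, o4} := fun o _ => hne o
          have := Finset.card_le_card hu
          have l4 : ({o1, o2, o3, o4} : Finset (M →ₐ[K] N)).card ≤ 4 := Finset.card_le_four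
          rw [Finset.card_univ, hcard] at this
          omega
        simp only [Finset.mem_insert, Finset.mem_singleton, not_or] at k5
        obtain ⟨k1, k2, k3, k4⟩ := k5
        refine ⟨?_, ?_, ?_⟩
        · obtain ⟨σ, rfl, rfl⟩ := (cn_perm m m' hm).1
          obtain ⟨g, ga, -, -, gd⟩ := G.cyc o1 o4 o5 n1.symm (Ne.symm k4) k1
          have a := R1 g σ
          rw [ga, gd o2 h12.symm n2.symm (Ne.symm k2), gd o3 h31 n3.symm (Ne.symm k3), ← R0 σ] at a
          exact (add_right_cancel (add_right_cancel a)).symm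
        · obtain ⟨σ, rfl, rfl⟩ := (cn_perm m m' hm).2.1
          obtain ⟨g, ga, -, -, gd⟩ := G.cyc o2 o4 o5 n2.symm (Ne.symm k4) k2
          have a := R1 g σ
          rw [ga, gd o1 h12 n1.symm (Ne.symm k1), gd o3 h23.symm n3.symm (Ne.symm k3), ← R0 σ] at a
          exact (add_left_cancel (add_right_cancel a)).symm
        · obtain ⟨σ, rfl, rfl⟩ := (cn_perm m m' hm).2.2
          obtain ⟨g, ga, -, -, gd⟩ := G.cyc o3 o4 o5 n3.symm (Ne.symm k4) k3
          have a := R1 g σ
          rw [ga, gd o1 h31.symm n1.symm (Ne.symm k1), gd o2 h23 n2.symm (Ne.symm k2), ← R0 σ] at a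
          exact (add_left_cancel a).symm
      obtain ⟨o4, k4⟩ : ∃ o4 : M →ₐ[K] N, o4 ∉ ({o1, o2, o3} : Finset (M →ₐ[K] N)) := by
        by_contra hne
        push Not at hne
        have hu : (Finset.univ : Finset (M →ₐ[K] N)) ⊆ {o1, o2, o3} := fun o _ => hne o
        have := Finset.card_le_card hu
        have l4 : ({o1, o2, o3} : Finset (M →ₐ[K] N)).card ≤ 3 := Finset.card_le_three
        rw [Finset.card_univ, hcard] at this
        omega
      simp only [Finset.mem_insert, Finset.mem_singleton, not_or] at k4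
      obtain ⟨k1, k2, k3⟩ := k4
      have f1 : ∀ (o : M →ₐ[K] N) (m m' : Fin 3), m ≠ m' → C m m' o = C m m' o1 := by
        intro o m m' hm
        by_cases a1 : o = o1
        · rw [a1]
        by_cases a2 : o = o2
        · rw [a2, (key o4 k1 k2 k3 m m' hm).2.1, (key o4 k1 k2 k3 m m' hm).1]
        by_cases a3 : o = o3
        · rw [a3, (key o4 k1 k2 k3 m m' hm).2.2, (key o4 k1 k2 k3 m m' hm).1]
        exact ((key o a1 a2 a3 m m' hm).1).symm
      intro o o' m m' hm
      rw [f1 o m m' hm, f1 o' m m' hm]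
  exact cn_fin h2 X Y hY (fun o o' m m' h => hC o o' m m' h)

end H36GM
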