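import Pool.Agent.H36.GM.Df
import Pool.Agent.H30.OR.Ta

/-!
ROW Hs (MP_78d38b_GM, helper36, about 50 lines): the three classes of an element of `HH(M)` add up to zero.

PROOF. `x = sc z`, `z ≠ 0` (`H38T1.sc_surj`), `Algebra.norm M z = t^2` (`H30ZO.mem_HH`). With `i := (algebraMap N N2).comp (o : M →+* N)` the `r m` are the three roots of the polynomial with coefficients `i (algebraMap K M a)`, `i (algebraMap K M b)`:
`H30OR.R3 .. r` (compare coefficients of `D.roots`, e.g. at `x = 0, 1, -1`; `D.inj` for `≠`), and `ε o m = H36MX.rh hc i _` (`hom_ext`), so `H30OR.norm_prod3` (Pool/Agent/H30/OR/Ta.lean) gives `ε o 0 z * ε o 1 z * ε o 2 z = i (norm z) = (i t)^2`.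
Then `H38T1.sc_mul`, `H38T1.sc_eq_zero`.
-/

set_option autoImplicit false
set_option linter.unusedSectionVars false
open scoped Classical

open WithZero NumberField IsDedekindDomain H38RT
open H38T1 (SC sc scu rep eo la si OddP)
open H76PP (Cub LC ev scm dn)
open H88OD H26OD H76GM

namespace H36GM

/-- The three roots and the three embeddings. -/
lemma Hs_aux {K M N N2 LM : Type} [Field K] [NumberField K] [Field M] [NumberField M] [Field N]
    [NumberField N] [Field N2] [NumberField N2] [Field LM] [NumberField LM] [Algebra K M]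
    [Algebra K N] [Algebra K N2] [Algebra N N2] [IsScalarTower K N N2] [Algebra M LM] {a b : K}
    {θ : LM} {r : Fin 3 → N2} (hc : Cub M LM (algebraMap K M a) (algebraMap K M b) θ)
    (D : N2D K N N2 a b r) {ε : (M →ₐ[K] N) → Fin 3 → (LM →+* N2)} (hε : EpsD θ r ε)
    (o : M →ₐ[K] N) :
    ∃ hs : H30OR.R3 (((algebraMap N N2).comp (o : M →+* N)) (algebraMap K M a))
      (((algebraMap N N2).comp (o : M →+* N)) (algebraMap K M b)) r,
      ∀ m, ε o m = H36MX.rh hc ((algebraMap N N2).comp (o : M →+* N)) (hs.root m) := by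
  have hf : ∀ (x : K), ((algebraMap N N2).comp (o : M →+* N)) (algebraMap K M x) =
      algebraMap K N2 x := by
    intro x
    rw [RingHom.comp_apply, RingHom.coe_coe, AlgHom.commutes, ← IsScalarTower.algebraMap_apply]
  have hr : ∀ i, (r i) ^ 3 + algebraMap K N2 a * (r i) + algebraMap K N2 b = 0 := by
    intro i
    rw [D.roots]
    fin_cases i <;> simp
  have hs : H30OR.R3 (((algebraMap N N2).comp (o : M →+* N)) (algebraMap K M a))
      (((algebraMap N N2).comp (o : M →+* N)) (algebraMap K M b)) r := by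
    rw [hf, hf]
    refine H30OR.R3.of_roots hr ?_ ?_ ?_
    · exact fun h => absurd (D.inj h) (by decide)
    · exact fun h => absurd (D.inj h) (by decide)
    · exact fun h => absurd (D.inj h) (by decide)
  refine ⟨hs, fun m => hom_ext hc (fun x => ?_) ?_⟩
  · rw [hε.m, H36MX.rh_algebraMap]
    rfl
  · rw [hε.θ, H36MX.rh_theta]

/-- The product of the three conjugates is the image of the norm. -/
theorem eps_norm' {K M N N2 LM : Type} [Field K] [NumberField K] [Field M] [NumberField M] [Field N]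
    [NumberField N] [Field N2] [NumberField N2] [Field LM] [NumberField LM] [Algebra K M]
    [Algebra K N] [Algebra K N2] [Algebra N N2] [IsScalarTower K N N2] [Algebra M LM] {a b : K}
    {θ : LM} {r : Fin 3 → N2} (hc : Cub M LM (algebraMap K M a) (algebraMap K M b) θ)
    (D : N2D K N N2 a b r) {ε : (M →ₐ[K] N) → Fin 3 → (LM →+* N2)} (hε : EpsD θ r ε)
    (o : M →ₐ[K] N) (z : LM) :
    ε o 0 z * ε o 1 z * ε o 2 z = algebraMap N N2 (o (Algebra.norm M z)) := by
  obtain ⟨hs, h⟩ := Hs_aux hc D hε o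
  rw [h 0, h 1, h 2, H30OR.norm_prod3 hc _ hs z]
  rfl

theorem cl_sum {K M N N2 LM : Type} [Field K] [NumberField K] [Field M] [NumberField M] [Field N]
    [NumberField N] [Field N2] [NumberField N2] [Field LM] [NumberField LM] [Algebra K M]
    [Algebra K N] [Algebra K N2] [Algebra N N2] [IsScalarTower K N N2] [Algebra M LM] {a b : K}
    {θ : LM} {r : Fin 3 → N2} (hc : Cub M LM (algebraMap K M a) (algebraMap K M b) θ)
    (D : N2D K N N2 a b r) {ε : (M →ₐ[K] N) → Fin 3 → (LM →+* N2)} (hε : EpsD θ r ε) {x : SC LM}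
    (hx : x ∈ H30ZO.HH M LM) (o : M →ₐ[K] N) :
    cl (ε o 0) x + cl (ε o 1) x + cl (ε o 2) x = 0 := by
  obtain ⟨z, hz, rfl⟩ := H38T1.sc_surj x
  have h0 : ∀ m, ε o m z ≠ 0 := fun m => (map_ne_zero _).2 hz
  rw [cl_sc _ hz, cl_sc _ hz, cl_sc _ hz, ← H38T1.sc_mul (h0 0) (h0 1),
    ← H38T1.sc_mul (mul_ne_zero (h0 0) (h0 1)) (h0 2),
    H38T1.sc_eq_zero (mul_ne_zero (mul_ne_zero (h0 0) (h0 1)) (h0 2)), eps_norm' hc D hε o z]
  obtain ⟨t, ht⟩ := (H30ZO.mem_HH hz).1 hx
  rw [ht]
  exact ⟨algebraMap N N2 (o t), by rw [map_mul, map_mul]⟩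

/-- The product of the three conjugates is the image of the norm. -/
theorem eps_norm {K M N N2 LM : Type} [Field K] [NumberField K] [Field M] [NumberField M] [Field N]
    [NumberField N] [Field N2] [NumberField N2] [Field LM] [NumberField LM] [Algebra K M]
    [Algebra K N] [Algebra K N2] [Algebra N N2] [IsScalarTower K N N2] [Algebra M LM] {a b : K}
    {θ : LM} {r : Fin 3 → N2} (hc : Cub M LM (algebraMap K M a) (algebraMap K M b) θ)
    (D : N2D K N N2 a b r) {ε : (M →ₐ[K] N) → Fin 3 → (LM →+* N2)} (hε : EpsD θ r ε)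
    (o : M →ₐ[K] N) (z : LM) :
    ε o 0 z * ε o 1 z * ε o 2 z = algebraMap N N2 (o (Algebra.norm M z)) := by
  exact eps_norm' hc D hε o z

end H36GM
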