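import Pool.Agent.H36.GM.Kd
import Pool.Agent.H36.GM.Cn
import Pool.Agent.H36.GM.Hs

/-!
ROW Id (MP_78d38b_GM, helper36, about 110 lines): independence of the four sums modulo the classes of `K`.

Here `e • x` for `e : ZMod 2` is written `if e = 0 then 0 else x` (as in `exists_q3`).
PROOF. Let `x := (if α 0 = 0 then 0 else x1) + (if α 2 = 0 then 0 else x2)`, `y := (if α 1 = 0 then 0 else x1) + (if α 3 = 0 then 0 else x2)`, both in `HH M LM`; `X o m := cl (ε o m) x`, `Y o m := cl (ε o m) y` (additive: `cl_add`, `cl_zero`). The hypothesis `h` says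
`X o1 0 + X o2 1 + X o3 2 + (Y o1 1 + Y o2 2 + Y o3 0) = cl (algebraMap K N2) k`. Apply `cl g` for `g ∈ Gal(N2/K)` with `g = γ` on `N`, `g (r m) = r (σ m)` (`D.lift γ σ`): `cl g (cl (ε o m) x) = cl (ε (γ∘o) (σ m)) x` (`cl_comp`, `eps_act`), and `cl g (cl (algebraMap K N2) k) = cl (algebraMap K N2) k`
(`g` fixes `K`). This is the hypothesis `R` of `const_of_rel` (`hX`, `hY`: `cl_sum`; `h2`: `← two_nsmul`, `H38T1.SC.two_smul`). So the conjugates of `x` and of `y` do not depend on the embedding; `from_K`: `x`, `y` come from `HH K L0`; `hno` gives `α 0 = α 2 = 0` and `α 1 = α 3 = 0`.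
-/

set_option autoImplicit false
set_option linter.unusedSectionVars false
open scoped Classical

open WithZero NumberField IsDedekindDomain H38RT
open H38T1 (SC sc scu rep eo la si OddP)
open H76PP (Cub LC ev scm dn)
open H88OD H26OD H76GM

namespace H36GM

theorem indep {K M N N2 LM L0 : Type} [Field K] [NumberField K] [Field M] [NumberField M]
    [Field N] [NumberField N] [Field N2] [NumberField N2] [Field LM] [NumberField LM] [Field L0]
    [NumberField L0] [Algebra K M] [Algebra K N] [Algebra M N] [IsScalarTower K M N] [Algebra K N2]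
    [Algebra N N2] [IsScalarTower K N N2] [Algebra M LM] [Algebra K L0] [Algebra L0 LM]
    [IsGalois K N] (hodd : Odd (Module.finrank K M)) (h1 : Module.finrank K M ≠ 1)
    (G : Gen K M N) {a b : K} {θ0 : L0} {r : Fin 3 → N2}
    (S0 : Ext K K L0 a b θ0) (U : UpN S0 M LM) (D : N2D K N N2 a b r)
    {ε : (M →ₐ[K] N) → Fin 3 → (LM →+* N2)} (hε : EpsD (algebraMap L0 LM θ0) r ε)
    {x1 x2 : SC LM} (hx1 : x1 ∈ H30ZO.HH M LM) (hx2 : x2 ∈ H30ZO.HH M LM)
    (hno : ∀ y0 ∈ H30ZO.HH K L0, ∀ α β : ZMod 2,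
      (if α = 0 then 0 else x1) + (if β = 0 then 0 else x2) =
        scm (algebraMap L0 LM : L0 →* LM) y0 → α = 0 ∧ β = 0)
    {o1 o2 o3 : M →ₐ[K] N} (h12 : o1 ≠ o2) (h23 : o2 ≠ o3) (h31 : o3 ≠ o1) (α : Fin 4 → ZMod 2)
    (k : SC K)
    (h : (if α 0 = 0 then 0 else cl (ε o1 0) x1 + cl (ε o2 1) x1 + cl (ε o3 2) x1) +
      (if α 1 = 0 then 0 else cl (ε o1 1) x1 + cl (ε o2 2) x1 + cl (ε o3 0) x1) +
      (if α 2 = 0 then 0 else cl (ε o1 0) x2 + cl (ε o2 1) x2 + cl (ε o3 2) x2) +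
      (if α 3 = 0 then 0 else cl (ε o1 1) x2 + cl (ε o2 2) x2 + cl (ε o3 0) x2) =
        cl (algebraMap K N2) k) : α = 0 := by
  have h2 : ∀ w : SC N2, w + w = 0 := fun w => by
    rw [← two_nsmul]
    exact H38T1.SC.two_smul w
  have hcub := U.cub
  have hif : ∀ (c : ZMod 2) (f : LM →+* N2) (z : SC LM),
      cl f (if c = 0 then 0 else z) = if c = 0 then 0 else cl f z := by
    intro c f z
    by_cases hc : c = 0
    · rw [if_pos hc, if_pos hc, cl_zero]
    · rw [if_neg hc, if_neg hc]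
  have hsplit : ∀ (c : ZMod 2) (A B C : SC N2), (if c = 0 then 0 else A + B + C) =
      (if c = 0 then 0 else A) + (if c = 0 then 0 else B) + (if c = 0 then 0 else C) := by
    intro c A B C
    by_cases hc : c = 0
    · simp only [if_pos hc, add_zero]
    · simp only [if_neg hc]
  have hmem : ∀ (c : ZMod 2) (z : SC LM), z ∈ H30ZO.HH M LM →
      (if c = 0 then 0 else z) ∈ H30ZO.HH M LM := by
    intro c z hz
    by_cases hc : c = 0
    · rw [if_pos hc]
      exact (H30ZO.HH M LM).zero_mem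
    · rw [if_neg hc]
      exact hz
  obtain ⟨x, hx⟩ : ∃ x : SC LM, x = (if α 0 = 0 then 0 else x1) + (if α 2 = 0 then 0 else x2) :=
    ⟨_, rfl⟩
  obtain ⟨y, hy⟩ : ∃ y : SC LM, y = (if α 1 = 0 then 0 else x1) + (if α 3 = 0 then 0 else x2) :=
    ⟨_, rfl⟩
  have hxm : x ∈ H30ZO.HH M LM := by
    rw [hx]
    exact (H30ZO.HH M LM).add_mem (hmem _ _ hx1) (hmem _ _ hx2)
  have hym : y ∈ H30ZO.HH M LM := by
    rw [hy]
    exact (H30ZO.HH M LM).add_mem (hmem _ _ hx1) (hmem _ _ hx2)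
  have key : cl (ε o1 0) x + cl (ε o2 1) x + cl (ε o3 2) x +
      (cl (ε o1 1) y + cl (ε o2 2) y + cl (ε o3 0) y) = cl (algebraMap K N2) k := by
    rw [← h, hx, hy]
    simp only [cl_add, hif, hsplit]
    abel
  have hg : ∀ (γ : N ≃ₐ[K] N) (σ : Equiv.Perm (Fin 3)),
      cl (ε (γ.toAlgHom.comp o1) (σ 0)) x + cl (ε (γ.toAlgHom.comp o2) (σ 1)) x +
        cl (ε (γ.toAlgHom.comp o3) (σ 2)) x +
      (cl (ε (γ.toAlgHom.comp o1) (σ 1)) y + cl (ε (γ.toAlgHom.comp o2) (σ 2)) y +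
        cl (ε (γ.toAlgHom.comp o3) (σ 0)) y) = cl (algebraMap K N2) k := by
    intro γ σ
    obtain ⟨g, hg1, hg2⟩ := D.lift γ σ
    have hk : cl (g : N2 →+* N2) (cl (algebraMap K N2) k) = cl (algebraMap K N2) k := by
      rw [← cl_comp]
      congr 1
      ext z
      exact g.commutes z
    have he : ∀ (o : M →ₐ[K] N) (m : Fin 3) (z : SC LM),
        cl (g : N2 →+* N2) (cl (ε o m) z) = cl (ε (γ.toAlgHom.comp o) (σ m)) z := by
      intro o m z
      rw [← cl_comp, eps_act hcub hε hg1 hg2 o m]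
    have h3 := congrArg (cl (g : N2 →+* N2)) key
    rw [hk] at h3
    simp only [cl_add, he] at h3
    exact h3
  have hc := const_of_rel hodd h1 G h2 (fun o m => cl (ε o m) x) (fun o m => cl (ε o m) y)
    (cl (algebraMap K N2) k) (fun o => cl_sum hcub D hε hxm o) (fun o => cl_sum hcub D hε hym o)
    h12 h23 h31 hg
  obtain ⟨y0, hy0, hy1⟩ := from_K hodd S0 U D hε hxm hc.1
  obtain ⟨z0, hz0, hz1⟩ := from_K hodd S0 U D hε hym hc.2
  have h02 := hno y0 hy0 (α 0) (α 2) (by rw [hy1, hx])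
  have h13 := hno z0 hz0 (α 1) (α 3) (by rw [hz1, hy])
  funext i
  fin_cases i
  · exact h02.1
  · exact h13.1
  · exact h02.2
  · exact h13.2

end H36GM
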