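import Pool.Agent.H36.GM.Ph
import Pool.Agent.H76.OD.Cha

/-!
ROW Ta (MP_78d38b_GM, helper36, about 150 lines): the automorphism `τ` of `E`.

`s d` is a square root in `E` of `d ∈ 𝓞 N2`, for the `d` in `D` := the images of the elements of `β` and all the `z i j`.
PROOF. Let `T ∈ Gal(E/K)` be a lift of `τ0` (`AlgEquiv.restrictNormalHom_surjective`; `T (algebraMap N2 E x) = algebraMap N2 E (τ0 x)`).
(1) signs: for `d ∈ β`, `T (s d)^2 = (s d)^2` (here `s d` means `s (algebraMap d)`, `d ∈ K` is fixed), so `T (s d) = ± s d`: `e0 d ∈ ZMod 2`. For the `z i j`: `T (s (z i j))^2 = τ0 (z i j) = z i (j+1)`, so `T (s (z i j)) = ± s (z i (j+1))`: `c i j ∈ ZMod 2`.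
(2) `exists_phi` with `ι' := {d // d ∈ β} ⊕ ι`, `v (inl d) := sc (d : N2)`, `v (inr i) := sc (z i 0) + sc (z i 1) + sc (z i 2)`, `t (inl d) := e0 d`, `t (inr i) := e i + c i 0 + c i 1 + c i 2`. The hypothesis: let `∑ = 0`. Then `∑_i (if α i = 0 then 0 else v i) = ∑_d .. = cl (algebraMap K N2) (∑_d (if .. then 0 else sc d))`
(`w = -w`), so by `hind` `α (inr i) = 0` for all `i`; and `∏_{d, α d ≠ 0} d = y^2` with `y ∈ N2` (`H38T1.sc_eq_zero`; `sc` of a product). `Q := ∏_{d, α d ≠ 0} s d`, `Q^2 = algebraMap N2 E y^2`, so `Q = ± algebraMap N2 E y`, and `T Q = (-1)^{∑ α d e0 d} Q`. `τ0 y = y` by `h3` (`y^2 = ∏ d` comes from `K`), so `(-1)^{∑ α d e0 d} = 1` (`y ≠ 0`), `∑_d α d * e0 d = 0`.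
(3) `H30MQ.exists_sigma (K := N2) (L := E) D hD s hs φ`: `κ ∈ Gal(E/N2)` with `κ (s d) = ± s d`, sign `φ (sc d)`. `τ := T ∘ κ` (`κ` first). On `N2` it is `τ0`. `τ (s d) = (-1)^{e0 d + φ (sc d)} s d = s d` for `d ∈ β`. `τ (s (z i j)) = (-1)^{c i j + φ (sc (z i j))} s (z i (j+1))`, so
`τ (τ (τ (s (z i 0)))) = (-1)^{∑_j c i j + φ (v i)} s (z i 0) = (-1)^{e i} s (z i 0)`.
-/

set_option autoImplicit false
set_option linter.unusedSectionVars false
open scoped Classical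

open WithZero NumberField IsDedekindDomain H38RT
open H38T1 (SC sc scu rep eo la si OddP)
open H76PP (Cub LC ev scm dn)
open H88OD H26OD H76GM

namespace H36GM

/-- the sign `a` in front of `x` -/
def Ta_sg {E : Type} [Field E] (a : ZMod 2) (x : E) : E := if a = 0 then x else - x

theorem Ta_two (a : ZMod 2) : a = 0 ∨ a = 1 := by
  revert a
  decide

theorem Ta_sg_sg {E : Type} [Field E] (a b : ZMod 2) (x : E) :
    Ta_sg a (Ta_sg b x) = Ta_sg (a + b) x := by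
  have h11 : (1 : ZMod 2) + 1 = 0 := by decide
  have h10 : (1 : ZMod 2) ≠ 0 := by decide
  unfold Ta_sg
  rcases Ta_two a with rfl | rfl <;> rcases Ta_two b with rfl | rfl
  · rw [if_pos rfl, if_pos rfl, add_zero, if_pos rfl]
  · rw [if_pos rfl, zero_add]
  · rw [if_pos rfl, add_zero]
  · rw [if_neg h10, if_neg h10, h11, if_pos rfl, neg_neg]

theorem Ta_sg_map {K E : Type} [Field K] [Field E] [Algebra K E] (f : E ≃ₐ[K] E) (a : ZMod 2)
    (x : E) : f (Ta_sg a x) = Ta_sg a (f x) := by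
  unfold Ta_sg
  rcases Ta_two a with rfl | rfl
  · rw [if_pos rfl, if_pos rfl]
  · have h10 : (1 : ZMod 2) ≠ 0 := by decide
    rw [if_neg h10, if_neg h10, map_neg]

theorem Ta_sign {E : Type} [Field E] {x y : E} (h : x ^ 2 = y ^ 2) :
    ∃ a : ZMod 2, x = Ta_sg a y := by
  have h10 : (1 : ZMod 2) ≠ 0 := by decide
  rcases sq_eq_sq_iff_eq_or_eq_neg.1 h with h1 | h1
  · exact ⟨0, by unfold Ta_sg; rw [if_pos rfl, h1]⟩
  · exact ⟨1, by unfold Ta_sg; rw [if_neg h10, h1]⟩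

/-- lifts of automorphisms -/
theorem Ta_lift {K N2 E : Type} [Field K] [Field N2] [Field E] [Algebra K N2] [Algebra K E]
    [Algebra N2 E] [IsScalarTower K N2 E] [IsGalois K N2] [IsGalois K E] (τ0 : N2 ≃ₐ[K] N2) :
    ∃ T : E ≃ₐ[K] E, ∀ x : N2, T (algebraMap N2 E x) = algebraMap N2 E (τ0 x) := by
  obtain ⟨T, hT⟩ := AlgEquiv.restrictNormalHom_surjective (F := K) (K₁ := N2) E τ0
  refine ⟨T, fun x => ?_⟩
  rw [← hT]
  exact (AlgEquiv.restrictNormal_commutes T N2 x).symm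

theorem Ta_coe {K N2 : Type} [Field K] [NumberField K] [Field N2] [NumberField N2]
    [Algebra K N2] (d : 𝓞 K) :
    ((algebraMap (𝓞 K) (𝓞 N2) d : 𝓞 N2) : N2) = algebraMap K N2 (d : K) :=
  (IsScalarTower.algebraMap_apply (𝓞 K) (𝓞 N2) N2 d).symm.trans
    (IsScalarTower.algebraMap_apply (𝓞 K) K N2 d)

/-- the relations among the elements of `β` have no sign -/
theorem Ta_rel {K N2 E : Type} [Field K] [NumberField K] [Field N2] [NumberField N2] [Field E]
    [NumberField E] [Algebra K N2] [Algebra K E] [Algebra N2 E] [IsScalarTower K N2 E]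
    [IsGalois K N2] [IsGalois K E] (τ0 : N2 ≃ₐ[K] N2)
    (h3 : ∀ (y : N2) (x : K), y ^ 2 = algebraMap K N2 x → τ0 y = y)
    (T : E ≃ₐ[K] E) (hT : ∀ x : N2, T (algebraMap N2 E x) = algebraMap N2 E (τ0 x))
    {J : Type} (F : Finset J) (d : J → 𝓞 K) (hd : ∀ j ∈ F, d j ≠ 0) (s : J → E)
    (hs : ∀ j ∈ F, s j ^ 2 = algebraMap K E (d j : K)) (b : J → ZMod 2)
    (hb : ∀ j ∈ F, T (s j) = Ta_sg (b j) (s j))
    (h0 : ∑ j ∈ F, sc (algebraMap K N2 (d j : K)) = 0) : ∑ j ∈ F, b j = 0 := by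
  have hdK : ∀ j ∈ F, (d j : K) ≠ 0 := by
    intro j hj h
    exact hd j hj (RingOfIntegers.coe_injective (h.trans (map_zero _).symm))
  have hdN : ∀ j ∈ F, algebraMap K N2 (d j : K) ≠ 0 := fun j hj => (map_ne_zero _).2 (hdK j hj)
  have h1 := H30MQ.sc_prod (K := N2) F (fun j => algebraMap K N2 (d j : K)) hdN
  rw [h0, H38T1.sc_eq_zero (Finset.prod_ne_zero_iff.2 hdN)] at h1
  obtain ⟨y, hy⟩ := h1
  have hy0 : y ≠ 0 := by
    rintro rfl
    rw [mul_zero] at hy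
    exact Finset.prod_ne_zero_iff.2 hdN hy
  have hQ : (∏ j ∈ F, s j) ^ 2 = (algebraMap N2 E y) ^ 2 := by
    rw [← Finset.prod_pow, Finset.prod_congr rfl hs, ← map_pow, sq y, ← hy, map_prod]
    exact Finset.prod_congr rfl fun j _ => IsScalarTower.algebraMap_apply K N2 E _
  have hTQ := H30MQ.sign_prod T F s b hb
  by_contra hne
  rw [if_neg hne] at hTQ
  have hTy : T (algebraMap N2 E y) = - algebraMap N2 E y := by
    rcases sq_eq_sq_iff_eq_or_eq_neg.1 hQ with h2 | h2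
    · rw [← h2]
      exact hTQ
    · rw [h2, map_neg, neg_neg] at hTQ
      have h8 := congrArg Neg.neg hTQ
      rwa [neg_neg] at h8
  rw [hT, ← map_neg] at hTy
  have h4 : τ0 y = - y := (algebraMap N2 E).injective hTy
  have h5 : τ0 y = y := by
    refine h3 y (∏ j ∈ F, (d j : K)) ?_
    rw [map_prod, sq]
    exact hy.symm
  rw [h4] at h5
  have h6 : (2 : N2) * y = 0 := by
    rw [two_mul]
    nth_rewrite 1 [← h5]
    exact neg_add_cancel y
  rcases mul_eq_zero.1 h6 with h7 | h7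
  · exact two_ne_zero h7
  · exact hy0 h7

theorem exists_tau {K N2 E : Type} [Field K] [NumberField K] [Field N2] [NumberField N2] [Field E]
    [NumberField E] [Algebra K N2] [Algebra K E] [Algebra N2 E] [IsScalarTower K N2 E]
    [IsGalois K N2] [IsGalois K E] (τ0 : N2 ≃ₐ[K] N2)
    (h3 : ∀ (y : N2) (x : K), y ^ 2 = algebraMap K N2 x → τ0 y = y)
    (β : Finset (𝓞 K)) (hβ : ∀ d ∈ β, d ≠ 0) {ι : Type} [Fintype ι] (z : ι → Fin 3 → 𝓞 N2)
    (hz0 : ∀ i j, z i j ≠ 0) (hz : ∀ i j, τ0 (z i j : N2) = (z i (j + 1) : N2)) (s : 𝓞 N2 → E)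
    (hsβ : ∀ d ∈ β, s (algebraMap (𝓞 K) (𝓞 N2) d) ^ 2 = algebraMap K E (d : K))
    (hsz : ∀ i j, s (z i j) ^ 2 = algebraMap N2 E (z i j : N2))
    (hind : ∀ (α : ι → ZMod 2) (k : SC K),
      (∑ i, if α i = 0 then 0 else sc (z i 0 : N2) + sc (z i 1 : N2) + sc (z i 2 : N2)) =
        cl (algebraMap K N2) k → α = 0) (e : ι → ZMod 2) :
    ∃ τ : E ≃ₐ[K] E, (∀ x : N2, τ (algebraMap N2 E x) = algebraMap N2 E (τ0 x)) ∧
      (∀ d ∈ β, τ (s (algebraMap (𝓞 K) (𝓞 N2) d)) = s (algebraMap (𝓞 K) (𝓞 N2) d)) ∧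
      ∀ i, τ (τ (τ (s (z i 0)))) = if e i = 0 then s (z i 0) else - s (z i 0) := by
  obtain ⟨T, hT⟩ := Ta_lift (E := E) τ0
  have hgal : IsGalois N2 E := IsGalois.tower_top_of_isGalois K N2 E
  -- signs
  have he0 : ∀ d : {d // d ∈ β}, ∃ a : ZMod 2, T (s (algebraMap (𝓞 K) (𝓞 N2) d.1)) =
      Ta_sg a (s (algebraMap (𝓞 K) (𝓞 N2) d.1)) := by
    intro d
    apply Ta_sign
    rw [← map_pow, hsβ d.1 d.2, AlgEquiv.commutes]
  choose e0 he0 using he0
  have hc : ∀ i j, ∃ a : ZMod 2, T (s (z i j)) = Ta_sg a (s (z i (j + 1))) := by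
    intro i j
    apply Ta_sign
    rw [← map_pow, hsz, hT, hz, hsz]
  choose c hc using hc
  have h2W : ∀ w : SC N2, w + w = 0 := by
    intro w
    rw [← two_nsmul]
    exact H38T1.SC.two_smul w
  -- the functional
  obtain ⟨φ, hφ⟩ := exists_phi h2W (ι := {d // d ∈ β} ⊕ ι)
    (Sum.elim (fun d => sc (algebraMap K N2 (d.1 : K)))
      (fun i => sc (z i 0 : N2) + sc (z i 1 : N2) + sc (z i 2 : N2)))
    (Sum.elim e0 (fun i => e i + c i 0 + c i 1 + c i 2)) (by
      intro α hα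
      rw [Fintype.sum_sum_type] at hα ⊢
      simp only [Sum.elim_inl, Sum.elim_inr] at hα ⊢
      obtain ⟨A1, hA1⟩ : ∃ A1 : SC N2, A1 = ∑ d : {d // d ∈ β},
        (if α (Sum.inl d) = 0 then (0 : SC N2) else sc (algebraMap K N2 (d.1 : K))) := ⟨_, rfl⟩
      obtain ⟨A2, hA2⟩ : ∃ A2 : SC N2, A2 = ∑ i : ι,
        (if α (Sum.inr i) = 0 then (0 : SC N2) else
          sc (z i 0 : N2) + sc (z i 1 : N2) + sc (z i 2 : N2)) := ⟨_, rfl⟩
      rw [← hA1, ← hA2] at hα
      have hA : A2 = A1 := by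
        have h4 : A1 + A2 = A1 + A1 := by rw [hα, h2W]
        exact add_left_cancel h4
      have hcl : A1 = cl (algebraMap K N2) (∑ d : {d // d ∈ β},
          (if α (Sum.inl d) = 0 then (0 : SC K) else sc (d.1 : K))) := by
        rw [hA1]
        unfold cl
        rw [map_sum]
        refine Finset.sum_congr rfl fun d _ => ?_
        by_cases h : α (Sum.inl d) = 0
        · rw [if_pos h, if_pos h, map_zero]
        · rw [if_neg h, if_neg h]
          have hd0 : ((d.1 : 𝓞 K) : K) ≠ 0 := fun h' =>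
            hβ d.1 d.2 (RingOfIntegers.coe_injective (h'.trans (map_zero _).symm))
          exact (cl_sc (algebraMap K N2) hd0).symm
      have hα0 := hind (fun i => α (Sum.inr i)) _ (hA2.symm.trans (hA.trans hcl))
      have hα1 : ∀ i, α (Sum.inr i) = 0 := fun i => congrFun hα0 i
      have hA20 : A2 = 0 := by
        rw [hA2]
        exact Finset.sum_eq_zero fun i _ => if_pos (hα1 i)
      have hA10 : A1 = 0 := hA ▸ hA20
      have hs2 : ∑ i : ι, α (Sum.inr i) * (e i + c i 0 + c i 1 + c i 2) = 0 :=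
        Finset.sum_eq_zero fun i _ => by rw [hα1 i, zero_mul]
      rw [hs2, add_zero]
      have h5 := Ta_rel τ0 h3 T hT
        (Finset.univ.filter fun d : {d // d ∈ β} => ¬ α (Sum.inl d) = 0) (fun d => d.1)
        (fun d _ => hβ d.1 d.2) (fun d => s (algebraMap (𝓞 K) (𝓞 N2) d.1))
        (fun d _ => hsβ d.1 d.2) e0 (fun d _ => he0 d) (by
          rw [Finset.sum_filter]
          refine Eq.trans (Finset.sum_congr rfl fun d _ => ?_) (hA1.symm.trans hA10)
          by_cases h : α (Sum.inl d) = 0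
          · rw [if_neg (not_not.2 h), if_pos h]
          · rw [if_pos h, if_neg h])
      rw [Finset.sum_filter] at h5
      rw [← h5]
      refine Finset.sum_congr rfl fun d _ => ?_
      rcases Ta_two (α (Sum.inl d)) with h | h
      · rw [h, zero_mul, if_neg (not_not.2 rfl)]
      · rw [h, one_mul, if_pos (by decide)])
  have hφ1 : ∀ d : {d // d ∈ β}, φ (sc (algebraMap K N2 (d.1 : K))) = e0 d :=
    fun d => hφ (Sum.inl d)
  have hφ2 : ∀ i, φ (sc (z i 0 : N2)) + φ (sc (z i 1 : N2)) + φ (sc (z i 2 : N2)) =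
      e i + c i 0 + c i 1 + c i 2 := by
    intro i
    rw [← map_add, ← map_add]
    exact hφ (Sum.inr i)
  -- the correction
  obtain ⟨κ, hκ⟩ := H30MQ.exists_sigma (K := N2) (L := E)
    ((β.image (algebraMap (𝓞 K) (𝓞 N2))) ∪
      (Finset.univ.image fun p : ι × Fin 3 => z p.1 p.2)) (by
      intro d hd
      rcases Finset.mem_union.1 hd with hd | hd
      · obtain ⟨x, hx, rfl⟩ := Finset.mem_image.1 hd
        intro h
        apply hβ x hx
        have h4 : ((algebraMap (𝓞 K) (𝓞 N2) x : 𝓞 N2) : N2) = 0 := by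
          rw [h]
          exact map_zero _
        rw [Ta_coe] at h4
        exact RingOfIntegers.coe_injective (((map_eq_zero _).1 h4).trans (map_zero _).symm)
      · obtain ⟨x, -, rfl⟩ := Finset.mem_image.1 hd
        exact hz0 _ _) s (by
      intro d hd
      rcases Finset.mem_union.1 hd with hd | hd
      · obtain ⟨x, hx, rfl⟩ := Finset.mem_image.1 hd
        rw [hsβ x hx, Ta_coe]
        exact IsScalarTower.algebraMap_apply K N2 E (x : K)
      · obtain ⟨x, -, rfl⟩ := Finset.mem_image.1 hd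
        exact hsz _ _) φ
  have hκ1 : ∀ d : {d // d ∈ β}, κ (s (algebraMap (𝓞 K) (𝓞 N2) d.1)) =
      Ta_sg (e0 d) (s (algebraMap (𝓞 K) (𝓞 N2) d.1)) := by
    intro d
    have h4 := hκ (algebraMap (𝓞 K) (𝓞 N2) d.1)
      (Finset.mem_union_left _ (Finset.mem_image_of_mem _ d.2))
    rw [Ta_coe, hφ1] at h4
    exact h4
  have hκ2 : ∀ i j, κ (s (z i j)) = Ta_sg (φ (sc (z i j : N2))) (s (z i j)) := by
    intro i j
    exact hκ (z i j) (Finset.mem_union_right _
      (Finset.mem_image_of_mem (fun p : ι × Fin 3 => z p.1 p.2) (Finset.mem_univ (i, j))))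
  obtain ⟨τ, hτ⟩ : ∃ τ : E ≃ₐ[K] E, ∀ x, τ x = T (κ x) :=
    ⟨(κ.restrictScalars K).trans T, fun x => rfl⟩
  refine ⟨τ, ?_, ?_, ?_⟩
  · intro x
    rw [hτ, AlgEquiv.commutes, hT]
  · intro d hd
    rw [hτ, hκ1 ⟨d, hd⟩, Ta_sg_map, he0 ⟨d, hd⟩, Ta_sg_sg]
    have h11 : e0 ⟨d, hd⟩ + e0 ⟨d, hd⟩ = 0 := by
      rcases Ta_two (e0 ⟨d, hd⟩) with h | h <;> rw [h] <;> decide
    rw [h11]
    exact if_pos rfl
  · intro i
    have hstep : ∀ j, τ (s (z i j)) = Ta_sg (φ (sc (z i j : N2)) + c i j) (s (z i (j + 1))) := by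
      intro j
      rw [hτ, hκ2, Ta_sg_map, hc, Ta_sg_sg]
    have e01 : (0 : Fin 3) + 1 = 1 := rfl
    have e12 : (1 : Fin 3) + 1 = 2 := rfl
    have e20 : (2 : Fin 3) + 1 = 0 := rfl
    rw [hstep 0, e01, Ta_sg_map, hstep 1, e12, Ta_sg_map, Ta_sg_map, hstep 2, e20, Ta_sg_sg,
      Ta_sg_sg]
    have h4 : φ (sc (z i 0 : N2)) + c i 0 + (φ (sc (z i 1 : N2)) + c i 1) +
        (φ (sc (z i 2 : N2)) + c i 2) = e i := by
      have h5 := hφ2 i
      have h6 : φ (sc (z i 0 : N2)) + c i 0 + (φ (sc (z i 1 : N2)) + c i 1) +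
        (φ (sc (z i 2 : N2)) + c i 2) = (φ (sc (z i 0 : N2)) + φ (sc (z i 1 : N2)) +
          φ (sc (z i 2 : N2))) + (c i 0 + c i 1 + c i 2) := by ring
      rw [h6, h5]
      have h7 : (c i 0 + c i 1 + c i 2) + (c i 0 + c i 1 + c i 2) = 0 := by
        rcases Ta_two (c i 0 + c i 1 + c i 2) with h | h <;> rw [h] <;> decide
      calc e i + c i 0 + c i 1 + c i 2 + (c i 0 + c i 1 + c i 2)
          = e i + ((c i 0 + c i 1 + c i 2) + (c i 0 + c i 1 + c i 2)) := by ring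
        _ = e i := by rw [h7, add_zero]
    rw [h4]
    rfl

end H36GM
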