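import Pool.Agent.H36.GM.Nt
import Pool.Agent.H36.GM.Id
import Pool.Agent.H36.GM.Ta
import Pool.Agent.H36.GM.Bc
import Pool.Agent.H26.OD.Na
import Pool.Agent.H76.OD.Ch

/-!
Assembly of part B of MP_78d38b_GM (helper36, no row), part 4.
-/

set_option autoImplicit false
set_option linter.unusedSectionVars false
open scoped Classical

open WithZero NumberField IsDedekindDomain H38RT
open H38T1 (SC sc scu rep eo la si OddP)
open H76PP (Cub LC ev scm dn)
open H88OD H26OD H76GM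

namespace H36GM

/-- Three different embeddings. -/
theorem exists_three {K M N : Type} [Field K] [NumberField K] [Field M] [NumberField M] [Field N]
    [NumberField N] [Algebra K M] [Algebra K N] [Algebra M N] [IsScalarTower K M N] [IsGalois K N]
    (hodd : Odd (Module.finrank K M)) (h1 : Module.finrank K M ≠ 1) :
    ∃ o1 o2 o3 : M →ₐ[K] N, o1 ≠ o2 ∧ o2 ≠ o3 ∧ o3 ≠ o1 := by
  have hfd : FiniteDimensional K M := Module.Finite.of_restrictScalars_finite ℚ K M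
  have hfd2 : FiniteDimensional K N := Module.Finite.of_restrictScalars_finite ℚ K N
  have hcard : Fintype.card (M →ₐ[K] N) = Module.finrank K M := by
    refine AlgHom.card_of_splits K M N fun x => ?_
    have h2 := Normal.splits (F := K) (K := N) inferInstance (algebraMap M N x)
    rwa [minpoly.algebraMap_eq (algebraMap M N).injective] at h2
  have h3 : 2 < Fintype.card (M →ₐ[K] N) := by
    rw [hcard]
    obtain ⟨k, hk⟩ := hodd
    omega
  obtain ⟨o1, o2, o3, h12, h13, h23⟩ := Fintype.two_lt_card_iff.1 h3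
  exact ⟨o1, o2, o3, h12, h23, Ne.symm h13⟩

/-- Part B of the project. -/
theorem exists_q3 {K M N : Type} [Field K] [NumberField K] [Field M] [NumberField M] [Field N]
    [NumberField N] [Algebra K M] [Algebra K N] [Algebra M N] [IsScalarTower K M N] [IsGalois K N]
    (hodd : Odd (Module.finrank K M)) (h1 : Module.finrank K M ≠ 1) (G : Gen K M N) {a b : 𝓞 K}
    (hir : ∀ t : K, t ^ 3 + (a : K) * t + (b : K) ≠ 0)
    (hsq : ¬ IsSquare (algebraMap K N (-(4 * (a : K) ^ 3 + 27 * (b : K) ^ 2))))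
    {L0 LM : Type} [Field L0] [NumberField L0] [Field LM] [NumberField LM] [Algebra K L0]
    [Algebra M LM] [Algebra L0 LM] {θ0 : L0} (S0 : Ext K K L0 (a : K) (b : K) θ0)
    (U : UpN S0 M LM) {x1 x2 : SC LM} (hx1 : x1 ∈ H30ZO.HH M LM) (hx2 : x2 ∈ H30ZO.HH M LM)
    (hno : ∀ y0 ∈ H30ZO.HH K L0, ∀ α β : ZMod 2,
      (if α = 0 then 0 else x1) + (if β = 0 then 0 else x2) =
        scm (algebraMap L0 LM : L0 →* LM) y0 → α = 0 ∧ β = 0)
    {B : Set (SC K)} (hB : B.Finite) {A₀ : Set (HeightOneSpectrum (𝓞 K))} (hA₀ : A₀.Finite) :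
    ∃ (q : HeightOneSpectrum (𝓞 K)) (w : HeightOneSpectrum (𝓞 M)), q ∉ A₀ ∧ Pr3 a b q w ∧
      (∀ β ∈ B, la q β = 0) ∧
      (∃ t : HeightOneSpectrum (𝓞 LM), dn M t = w ∧ la t x1 = 1) ∧
      (∃ t : HeightOneSpectrum (𝓞 LM), dn M t = w ∧ la t x2 = 1) ∧
      ∃ t : HeightOneSpectrum (𝓞 LM), dn M t = w ∧ la t (x1 + x2) = 1 := by
  have hc : Cub M LM (algebraMap K M (a : K)) (algebraMap K M (b : K)) (algebraMap L0 LM θ0) :=
    U.cub
  obtain ⟨N2, _, _, _, _, _, r, D⟩ := exists_N2 (noroot_N hir hsq) hsq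
  obtain ⟨ε, hε⟩ := exists_eps hc D
  obtain ⟨o1, o2, o3, h12, h23, h31⟩ := exists_three (K := K) (M := M) (N := N) hodd h1
  obtain ⟨γ1, c1, c2, c3, c4⟩ := G.cyc o1 o2 o3 h12 h23 h31
  obtain ⟨τ1, hτN, hτr⟩ := D.lift γ1 (finRotate 3)
  have hτr' : ∀ m, τ1 (r m) = r (m + 1) := by
    intro m
    rw [hτr, finRotate_succ_apply]
  have d1 : ∀ x, γ1 (o1 x) = o2 x := fun x => DFunLike.congr_fun c1 x
  have d2 : ∀ x, γ1 (o2 x) = o3 x := fun x => DFunLike.congr_fun c2 x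
  have d3 : ∀ x, γ1 (o3 x) = o1 x := fun x => DFunLike.congr_fun c3 x
  obtain ⟨γ, hγ⟩ : ∃ γ : N ≃ₐ[K] N, ∀ x, γ x = γ1 (γ1 (γ1 (γ1 x))) :=
    ⟨γ1 * (γ1 * (γ1 * γ1)), fun _ => rfl⟩
  obtain ⟨τ0, hτ0⟩ : ∃ τ0 : N2 ≃ₐ[K] N2, ∀ x, τ0 x = τ1 (τ1 (τ1 (τ1 x))) :=
    ⟨τ1 * (τ1 * (τ1 * τ1)), fun _ => rfl⟩
  have hsq0 : ∀ (y : N2) (x : K), y ^ 2 = algebraMap K N2 x → τ0 y = y := by
    intro y x hy
    have h2 : (τ1 y) ^ 2 = y ^ 2 := by
      rw [← map_pow, hy, AlgEquiv.commutes]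
    rcases sq_eq_sq_iff_eq_or_eq_neg.1 h2 with h3 | h3
    · rw [hτ0, h3, h3, h3, h3]
    · rw [hτ0, h3, map_neg, h3, neg_neg, h3, map_neg, h3, neg_neg]
  have hN0 : ∀ z : N, τ0 (algebraMap N N2 z) = algebraMap N N2 (γ z) := by
    intro z
    rw [hτ0, hτN, hτN, hτN, hτN, hγ]
  have hr0 : ∀ m, τ0 (r m) = r (finRotate 3 m) := by
    intro m
    rw [hτ0, hτr', hτr', hτr', hτr', finRotate_succ_apply]
    congr 1
    revert m
    decide
  have hr0' : ∀ m, τ0 (r m) = r (m + 1) := by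
    intro m
    rw [hr0, finRotate_succ_apply]
  have g1 : γ.toAlgHom.comp o1 = o2 := by
    apply AlgHom.ext
    intro x
    change γ (o1 x) = o2 x
    rw [hγ, d1, d2, d3, d1]
  have g2 : γ.toAlgHom.comp o2 = o3 := by
    apply AlgHom.ext
    intro x
    change γ (o2 x) = o3 x
    rw [hγ, d2, d3, d1, d2]
  have g3 : γ.toAlgHom.comp o3 = o1 := by
    apply AlgHom.ext
    intro x
    change γ (o3 x) = o1 x
    rw [hγ, d3, d1, d2, d3]
  have g4 : ∀ o : M →ₐ[K] N, o ≠ o1 → o ≠ o2 → o ≠ o3 → γ.toAlgHom.comp o = o := by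
    intro o e1 e2 e3
    have d4 : ∀ x, γ1 (o x) = o x := fun x => DFunLike.congr_fun (c4 o e1 e2 e3) x
    apply AlgHom.ext
    intro x
    change γ (o x) = o x
    rw [hγ, d4, d4, d4, d4]
  have hGal : IsGalois K N2 := D.gal
  -- the three embeddings
  let oo : Fin 3 → (M →ₐ[K] N) := ![o1, o2, o3]
  have hoo : ∀ j, γ.toAlgHom.comp (oo j) = oo (j + 1) := by
    intro j
    fin_cases j
    · exact g1
    · exact g2
    · exact g3
  have hact : ∀ (j m : Fin 3) (x : LM), τ0 (ε (oo j) m x) = ε (oo (j + 1)) (m + 1) x := by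
    intro j m x
    have h2 := eps_act hc hε (g := τ0) (γ := γ) (σ := finRotate 3) hN0 hr0 (oo j) m
    have h3 := congrArg (fun f : LM →+* N2 => f x) h2
    rw [hoo, finRotate_succ_apply] at h3
    exact h3
  -- representatives
  obtain ⟨z1, hz1, hz1'⟩ := H76OD.exists_irep x1
  obtain ⟨z2, hz2, hz2'⟩ := H76OD.exists_irep x2
  choose rb hrb0 hrb using (fun c : SC K => H76OD.exists_irep c)
  obtain ⟨β, hβ⟩ : ∃ β : Finset (𝓞 K), β = hB.toFinset.image rb := ⟨_, rfl⟩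
  have hβ0 : ∀ d ∈ β, d ≠ 0 := by
    intro d hd
    rw [hβ, Finset.mem_image] at hd
    obtain ⟨c, -, rfl⟩ := hd
    exact hrb0 c
  let zr : Fin 4 → 𝓞 LM := ![z1, z1, z2, z2]
  let mm : Fin 4 → Fin 3 := ![0, 1, 0, 1]
  have hzr : ∀ i, zr i ≠ 0 := by
    intro i
    fin_cases i
    · exact hz1
    · exact hz1
    · exact hz2
    · exact hz2
  obtain ⟨zz, hzz⟩ : ∃ zz : Fin 4 → Fin 3 → 𝓞 N2,
      zz = fun i j => im (ε (oo j) (mm i + j)) (zr i) := ⟨_, rfl⟩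
  have hzzc : ∀ i j, (zz i j : N2) = ε (oo j) (mm i + j) (zr i : LM) := by
    intro i j
    rw [hzz]
    rfl
  have hzz0 : ∀ i j, zz i j ≠ 0 := by
    intro i j
    rw [hzz]
    exact im_ne (hzr i)
  have hzz1 : ∀ i j, τ0 (zz i j : N2) = (zz i (j + 1) : N2) := by
    intro i j
    rw [hzzc, hzzc, hact, add_assoc]
  -- the field `E`
  obtain ⟨E, _, _, _, _, _, _, s, hs⟩ := H76OD.exists_fieldM (K := K) N2
    (β.image (algebraMap (𝓞 K) (𝓞 N2)) ∪
      Finset.univ.image (fun p : Fin 4 × Fin 3 => zz p.1 p.2))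
  have hsβ : ∀ d ∈ β, s (algebraMap (𝓞 K) (𝓞 N2) d) ^ 2 = algebraMap K E (d : K) := by
    intro d hd
    rw [hs _ (Finset.mem_union_left _ (Finset.mem_image_of_mem _ hd))]
    exact (IsScalarTower.algebraMap_apply K N2 E (d : K)).symm
  have hsz : ∀ i j, s (zz i j) ^ 2 = algebraMap N2 E (zz i j : N2) := by
    intro i j
    exact hs _ (Finset.mem_union_right _ (Finset.mem_image.2 ⟨(i, j), Finset.mem_univ _, rfl⟩))
  have hcl : ∀ i j, sc (zz i j : N2) = cl (ε (oo j) (mm i + j)) (sc (zr i : LM)) := by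
    intro i j
    have h2 : (zr i : LM) ≠ 0 := H30MQ.coe_ne (hzr i)
    rw [hzzc, cl_sc _ h2]
  obtain ⟨τ, t1, t2, t3⟩ := exists_tau τ0 hsq0 β hβ0 zz hzz0 hzz1 s hsβ hsz (by
    intro α k hk
    refine indep hodd h1 G S0 U D hε hx1 hx2 hno h12 h23 h31 α k ?_
    rw [← hk, Fin.sum_univ_four]
    simp only [hcl]
    have e1 : sc (zr 0 : LM) = x1 := hz1'
    have e2 : sc (zr 1 : LM) = x1 := hz1'
    have e3 : sc (zr 2 : LM) = x2 := hz2'
    have e4 : sc (zr 3 : LM) = x2 := hz2'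
    rw [e1, e2, e3, e4]
    rfl) ![1, 0, 0, 1]
  let _ : Algebra N E := ((algebraMap N2 E).comp (algebraMap N N2)).toAlgebra
  have hT1 : IsScalarTower N N2 E := IsScalarTower.of_algebraMap_eq fun _ => rfl
  have hT2 : IsScalarTower K N E := IsScalarTower.of_algebraMap_eq fun x => by
    change _ = algebraMap N2 E (algebraMap N N2 (algebraMap K N x))
    rw [← IsScalarTower.algebraMap_apply K N N2, ← IsScalarTower.algebraMap_apply K N2 E]
  have T : TauD (E := E) r o1 o2 o3 γ τ := by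
    refine ⟨h12, h23, h31, g1, g2, g3, g4, fun z => ?_, fun m => ?_⟩
    · rw [t1, hN0]
    · rw [t1, hr0']
  obtain ⟨q, w, t, hq, hPr, hla, hdn, hodP, hlat⟩ := arith hc D hε T β hβ0
    (fun d => s (algebraMap (𝓞 K) (𝓞 N2) d)) hsβ t2 zr hzr mm (fun i => s (zz i 0)) (by
      intro i
      rw [hsz, hzzc, add_zero]
      rfl) ![1, 0, 0, 1] t3 hA₀
  have f1 : la (t 0) x1 = 1 := by
    have h2 := hlat 0
    rw [← hz1']
    exact h2
  have f2 : la (t 1) x2 = 1 := by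
    have h2 := hlat 3
    rw [← hz2']
    exact h2
  have f3 : la (t 0) x2 = 0 := by
    have h2 := hlat 2
    rw [← hz2']
    exact h2
  refine ⟨q, w, hq, hPr, fun c hcB => ?_, ⟨t 0, hdn 0, f1⟩, ⟨t 1, hdn 1, f2⟩, ⟨t 0, hdn 0, ?_⟩⟩
  · have h2 := hla (rb c) (by
      rw [hβ]
      exact Finset.mem_image_of_mem _ (hB.mem_toFinset.2 hcB))
    rwa [hrb] at h2
  · rw [H38T1.la_add (hodP 0), f1, f3, add_zero]

end H36GM
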