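import Pool.Agent.H76.GM.Df

/-!
Definitions for part B of the project MP_78d38b_GM (helper36, no row).  Paper: /team-store/H76_78d38b_GEN.md, step B.

`O` = the set of the embeddings `o : M → N` over `K`. `ε o m : LM → N2` (`M` via `o`, `θ ↦ r m`). For `x ∈ HH(M)` put
`X (o, m) = scm (ε o m) x ∈ SC N2`. The relation which has to be excluded is
`∑ α_i (X_i(o1,0) + X_i(o2,1) + X_i(o3,2)) + β_i (X_i(o1,1) + X_i(o2,2) + X_i(o3,0)) ∈ image of SC K`.
-/

set_option autoImplicit false
set_option linter.unusedSectionVars false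
open scoped Classical

open WithZero NumberField IsDedekindDomain H38RT
open H38T1 (SC sc scu rep eo la si OddP)
open H76PP (Cub LC ev scm dn)
open H88OD H26OD H76GM

namespace H36GM

/-- The class of `x` under the embedding `f`. -/
noncomputable def cl {F F' : Type} [Field F] [Field F'] (f : F →+* F') (x : SC F) : SC F' :=
  scm (f : F →* F') x

lemma cl_sc {F F' : Type} [Field F] [Field F'] (f : F →+* F') {x : F} (hx : x ≠ 0) :
    cl f (sc x) = sc (f x) := H76PP.scm_sc _ hx

lemma cl_comp {F F' F'' : Type} [Field F] [Field F'] [Field F''] (f : F →+* F') (g : F' →+* F'')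
    (x : SC F) : cl (g.comp f) x = cl g (cl f x) := by
  obtain ⟨y, hy, rfl⟩ := H38T1.sc_surj x
  rw [cl_sc _ hy, cl_sc _ hy, cl_sc _ ((map_ne_zero f).2 hy)]
  rfl

lemma cl_add {F F' : Type} [Field F] [Field F'] (f : F →+* F') (x y : SC F) :
    cl f (x + y) = cl f x + cl f y := map_add _ _ _

lemma cl_zero {F F' : Type} [Field F] [Field F'] (f : F →+* F') : cl f (0 : SC F) = 0 := map_zero _

/-- The place of `F` below a place of `E` with respect to an embedding. -/
noncomputable def below {F E : Type} [Field F] [NumberField F] [Field E] [NumberField E]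
    (f : F →+* E) (W : HeightOneSpectrum (𝓞 E)) : HeightOneSpectrum (𝓞 F) :=
  letI := f.toAlgebra
  dn F W

/-- The embeddings `ε` exist. -/
theorem exists_eps {K M N N2 LM : Type} [Field K] [Field M] [Field N] [Field N2] [Field LM]
    [Algebra K M] [Algebra K N] [Algebra K N2] [Algebra N N2] [IsScalarTower K N N2] [Algebra M LM]
    {a b : K} {θ : LM} {r : Fin 3 → N2} (hc : Cub M LM (algebraMap K M a) (algebraMap K M b) θ)
    (D : N2D K N N2 a b r) : ∃ ε : (M →ₐ[K] N) → Fin 3 → (LM →+* N2), EpsD θ r ε := by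
  have hr : ∀ i, (r i) ^ 3 + algebraMap K N2 a * (r i) + algebraMap K N2 b = 0 := by
    intro i
    rw [D.roots]
    fin_cases i <;> simp
  have hf : ∀ (o : M →ₐ[K] N) (x : K), ((algebraMap N N2).comp (o : M →+* N)) (algebraMap K M x) =
      algebraMap K N2 x := by
    intro o x
    rw [RingHom.comp_apply, RingHom.coe_coe, AlgHom.commutes, ← IsScalarTower.algebraMap_apply]
  refine ⟨fun o i => H36MX.rh hc ((algebraMap N N2).comp (o : M →+* N)) (t := r i) (by
    rw [hf, hf]; exact hr i), ⟨fun o i x => ?_, fun o i => ?_⟩⟩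
  · rw [H36MX.rh_algebraMap]
    rfl
  · rw [H36MX.rh_theta]

/-- Two embeddings of `LM` which agree on `M` and at `θ` are equal. -/
theorem hom_ext {M LM E : Type} [Field M] [Field LM] [Field E] [Algebra M LM] {A B : M} {θ : LM}
    (hc : Cub M LM A B θ) {f g : LM →+* E} (h1 : ∀ x : M, f (algebraMap M LM x) = g (algebraMap M LM x))
    (h2 : f θ = g θ) : f = g := by
  ext y
  obtain ⟨c0, c1, c2, rfl⟩ := hc.sp y
  simp only [map_add, map_mul, map_pow, h1, h2]

/-- The action of the Galois group of `N2 / K` on the embeddings. -/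
theorem eps_act {K M N N2 LM : Type} [Field K] [Field M] [Field N] [Field N2] [Field LM]
    [Algebra K M] [Algebra K N] [Algebra K N2] [Algebra N N2] [Algebra M LM]
    {A B : M} {θ : LM} {r : Fin 3 → N2} (hc : Cub M LM A B θ)
    {ε : (M →ₐ[K] N) → Fin 3 → (LM →+* N2)} (hε : EpsD θ r ε) {g : N2 ≃ₐ[K] N2} {γ : N ≃ₐ[K] N}
    {σ : Equiv.Perm (Fin 3)} (h1 : ∀ z : N, g (algebraMap N N2 z) = algebraMap N N2 (γ z))
    (h2 : ∀ m, g (r m) = r (σ m)) (o : M →ₐ[K] N) (i : Fin 3) :
    (g : N2 →+* N2).comp (ε o i) = ε (γ.toAlgHom.comp o) (σ i) := by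
  refine hom_ext hc (fun x => ?_) ?_
  · rw [RingHom.comp_apply, hε.m, hε.m]
    exact h1 _
  · rw [RingHom.comp_apply, hε.θ, hε.θ]
    exact h2 i

end H36GM
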