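import Pool.Agent.H36.GM.Df
import Pool.Agent.H76.OD.Cha

/-!
ROW Fr (MP_78d38b_GM, helper36, about 130 lines): the cube of the Frobenius element over a place of residue degree three.

PROOF. `q := dn K W`, `Q := Nat.card (𝓞 K ⧸ q)`. `hfr`: `τ • x ≡ x^Q mod W` for `x ∈ 𝓞 E` (`IsArithFrobAt`; see the beginning of `H76OD.int_of_frobW` in Pool/Agent/H76/OD/Cha.lean and `cheb_N` there for the manipulation of the cardinalities), so `τ • τ • τ • x ≡ x^(Q^3)`.
`t := dn F W`, `k := 𝓞 F ⧸ t` (a finite field which contains `𝓞 K ⧸ q`, so `|k| = Q^f`: `Module.card_eq_pow_finrank`). For `x ∈ 𝓞 F`: `x^(Q^3) = τ^3 x = x` in `k` (`h3`; `𝓞 F ⧸ t` embeds in `𝓞 E ⧸ W`), so `Q^f ≤ Q^3` (number of the roots of `X^(Q^3) - X`), `f ≤ 3`. `f ≠ 1`: otherwise `x^Q = x` for all `x ∈ k`, against `hne`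
(`τ • y ≡ y^Q`, `y` the image of an element of `𝓞 F`). `f ≠ 2`: otherwise `x^(Q^2) = x`, `x^(Q^3) = x^Q`, so `x^Q = x` for all `x ∈ k`. So `|k| = Q^3`, and `τ^3` (an automorphism over `F` by `h3`: `AlgEquiv.ofRingEquiv`) satisfies `τ^3 x ≡ x^{|k|} mod W`.
-/

set_option autoImplicit false
set_option linter.unusedSectionVars false
open scoped Classical

open WithZero NumberField IsDedekindDomain H38RT
open H38T1 (SC sc scu rep eo la si OddP)
open H76PP (Cub LC ev scm dn)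
open H88OD H26OD H76GM

namespace H36GM

/-- The order of a finite field `k` which contains a field with `Q` elements, in which all elements
satisfy `z ^ (Q ^ 3) = z` but not all satisfy `z ^ Q = z`. -/
theorem card_cube {k₀ k : Type} [Field k₀] [Field k] [Finite k₀] [Finite k] (φ : k₀ →+* k)
    (h3 : ∀ z : k, z ^ ((Nat.card k₀) ^ 3) = z) (h1 : ∃ z : k, z ^ (Nat.card k₀) ≠ z) :
    Nat.card k = (Nat.card k₀) ^ 3 := by
  let _ : Fintype k₀ := Fintype.ofFinite _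
  let _ : Fintype k := Fintype.ofFinite _
  let _ : Algebra k₀ k := φ.toAlgebra
  rw [Nat.card_eq_fintype_card] at h3 h1 ⊢
  rw [Nat.card_eq_fintype_card]
  obtain ⟨q, hq⟩ : ∃ q : ℕ, q = Fintype.card k₀ := ⟨_, rfl⟩
  rw [← hq] at h3 h1 ⊢
  have hq1 : 1 < q := by
    rw [hq]
    exact Fintype.one_lt_card
  have hfin : Module.Finite k₀ k := Module.Finite.of_finite
  have hcard : Fintype.card k = q ^ Module.finrank k₀ k := by
    rw [hq]
    exact Module.card_eq_pow_finrank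
  obtain ⟨f, hf⟩ : ∃ f : ℕ, f = Module.finrank k₀ k := ⟨_, rfl⟩
  have hf0 : 0 < f := by
    rw [hf]
    exact Module.finrank_pos
  rw [← hf] at hcard
  have hpow : ∀ z : k, z ^ (q ^ f) = z := by
    intro z
    rw [← hcard]
    exact FiniteField.pow_card z
  have hq3 : 1 < q ^ 3 := Nat.one_lt_pow (by norm_num) hq1
  have hle : f ≤ 3 := by
    obtain ⟨P, hP⟩ : ∃ P : Polynomial k, P = Polynomial.X ^ (q ^ 3) - Polynomial.X := ⟨_, rfl⟩
    have hP0 : P ≠ 0 := by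
      rw [hP]
      exact FiniteField.X_pow_card_sub_X_ne_zero _ hq3
    have hPd : P.natDegree = q ^ 3 := by
      rw [hP]
      exact FiniteField.X_pow_card_sub_X_natDegree_eq _ hq3
    have h7 : (Finset.univ : Finset k).val ⊆ P.roots := by
      intro z _
      rw [Polynomial.mem_roots hP0, hP, Polynomial.IsRoot.def, Polynomial.eval_sub,
        Polynomial.eval_pow, Polynomial.eval_X, h3, sub_self]
    have h8 := Polynomial.card_le_degree_of_subset_roots h7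
    rw [Finset.card_univ, hPd, hcard] at h8
    exact (Nat.pow_le_pow_iff_right hq1).1 h8
  obtain ⟨z, hz⟩ := h1
  have hf1 : f ≠ 1 := by
    intro h
    apply hz
    have h9 := hpow z
    rw [h, pow_one] at h9
    exact h9
  have hf2 : f ≠ 2 := by
    intro h
    apply hz
    have h9 := hpow z
    rw [h] at h9
    have h10 := h3 z
    rw [show q ^ 3 = q ^ 2 * q by ring, pow_mul, h9] at h10
    exact h10
  have hf3 : f = 3 := by omega
  rw [hcard, hf3]

theorem frob3 {K F E : Type} [Field K] [NumberField K] [Field F] [NumberField F] [Field E]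
    [NumberField E] [Algebra K F] [Algebra K E] [Algebra F E] [IsScalarTower K F E] [IsGalois K E]
    [IsGalois F E] {τ : E ≃ₐ[K] E} {W : HeightOneSpectrum (𝓞 E)}
    (hfr : IsArithFrobAt (𝓞 K) τ W.asIdeal)
    (h3 : ∀ x : F, τ (τ (τ (algebraMap F E x))) = algebraMap F E x)
    (hne : ∃ y : 𝓞 F, τ • (algebraMap (𝓞 F) (𝓞 E) y) - algebraMap (𝓞 F) (𝓞 E) y ∉ W.asIdeal) :
    ∃ g : E ≃ₐ[F] E, (∀ x : E, g x = τ (τ (τ x))) ∧ W.asIdeal.LiesOver (dn F W).asIdeal ∧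
      IsArithFrobAt (𝓞 F) g W.asIdeal := by
  have hmaxK : (dn K W).asIdeal.IsMaximal := (dn K W).isMaximal
  have hmaxF : (dn F W).asIdeal.IsMaximal := (dn F W).isMaximal
  have hmaxW : W.asIdeal.IsMaximal := W.isMaximal
  let _ : Field (𝓞 K ⧸ (dn K W).asIdeal) := Ideal.Quotient.field _
  let _ : Field (𝓞 F ⧸ (dn F W).asIdeal) := Ideal.Quotient.field _
  let _ : Field (𝓞 E ⧸ W.asIdeal) := Ideal.Quotient.field _
  have hfinK : Finite (𝓞 K ⧸ (dn K W).asIdeal) := by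
    apply Nat.finite_of_card_ne_zero
    exact (Ideal.absNorm_eq_zero_iff.not).2 (dn K W).ne_bot
  have hfinF : Finite (𝓞 F ⧸ (dn F W).asIdeal) := by
    apply Nat.finite_of_card_ne_zero
    exact (Ideal.absNorm_eq_zero_iff.not).2 (dn F W).ne_bot
  have hψ : ∀ x : 𝓞 K, algebraMap (𝓞 F) (𝓞 E) (algebraMap (𝓞 K) (𝓞 F) x) =
      algebraMap (𝓞 K) (𝓞 E) x := fun x => (IsScalarTower.algebraMap_apply (𝓞 K) (𝓞 F) (𝓞 E) x).symm
  have hleK : (dn K W).asIdeal ≤ (dn F W).asIdeal.comap (algebraMap (𝓞 K) (𝓞 F)) := by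
    intro x hx
    change algebraMap (𝓞 F) (𝓞 E) (algebraMap (𝓞 K) (𝓞 F) x) ∈ W.asIdeal
    rw [hψ]
    exact hx
  let φ : (𝓞 K ⧸ (dn K W).asIdeal) →+* (𝓞 F ⧸ (dn F W).asIdeal) :=
    Ideal.quotientMap (dn F W).asIdeal (algebraMap (𝓞 K) (𝓞 F)) hleK
  let ψ : (𝓞 F ⧸ (dn F W).asIdeal) →+* (𝓞 E ⧸ W.asIdeal) :=
    Ideal.quotientMap W.asIdeal (algebraMap (𝓞 F) (𝓞 E)) le_rfl
  obtain ⟨Q, hQ⟩ : ∃ Q : ℕ, Q = Nat.card (𝓞 K ⧸ (dn K W).asIdeal) := ⟨_, rfl⟩
  have h1 : ∀ x : 𝓞 E, Ideal.Quotient.mk W.asIdeal (τ • x) = (Ideal.Quotient.mk W.asIdeal x) ^ Q := by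
    intro x
    have h2 : τ • x - x ^ Q ∈ W.asIdeal := by
      rw [hQ]
      exact hfr x
    have h6 := Ideal.Quotient.eq_zero_iff_mem.2 h2
    rw [map_sub, map_pow, sub_eq_zero] at h6
    exact h6
  have h33 : ∀ x : 𝓞 E, Ideal.Quotient.mk W.asIdeal (τ • τ • τ • x) =
      (Ideal.Quotient.mk W.asIdeal x) ^ (Q ^ 3) := by
    intro x
    rw [h1, h1, h1, ← pow_mul, ← pow_mul]
    congr 1
    ring
  have h3' : ∀ y : 𝓞 F, τ • τ • τ • (algebraMap (𝓞 F) (𝓞 E) y) = algebraMap (𝓞 F) (𝓞 E) y := by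
    intro y
    apply RingOfIntegers.coe_injective
    exact h3 y
  have hcard : Nat.card (𝓞 F ⧸ (dn F W).asIdeal) = Q ^ 3 := by
    rw [hQ]
    refine card_cube φ ?_ ?_
    · intro z
      obtain ⟨y, rfl⟩ := Ideal.Quotient.mk_surjective z
      apply ψ.injective
      rw [map_pow, ← hQ]
      have e : ψ (Ideal.Quotient.mk (dn F W).asIdeal y) =
          Ideal.Quotient.mk W.asIdeal (algebraMap (𝓞 F) (𝓞 E) y) := Ideal.quotientMap_mk
      rw [e, ← h33, h3']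
    · obtain ⟨y, hy⟩ := hne
      refine ⟨Ideal.Quotient.mk (dn F W).asIdeal y, fun h => hy ?_⟩
      have h4 := congrArg ψ h
      rw [map_pow, ← hQ] at h4
      have e : ψ (Ideal.Quotient.mk (dn F W).asIdeal y) =
          Ideal.Quotient.mk W.asIdeal (algebraMap (𝓞 F) (𝓞 E) y) := Ideal.quotientMap_mk
      rw [e, ← h1] at h4
      exact Ideal.Quotient.eq.1 h4
  let g : E ≃ₐ[F] E := AlgEquiv.ofRingEquiv (f := (τ * τ * τ).toRingEquiv) h3
  have hW : W.asIdeal.LiesOver (dn F W).asIdeal := ⟨rfl⟩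
  refine ⟨g, fun x => rfl, hW, ?_⟩
  intro x
  have e1 : Nat.card (𝓞 F ⧸ W.asIdeal.under (𝓞 F)) = Q ^ 3 := hcard
  rw [e1]
  have h5 := h33 x
  rw [← map_pow] at h5
  exact Ideal.Quotient.eq.1 h5

end H36GM
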