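import Pool.Agent.H36.GM.Df

/-!
ROW Ka (MP_78d38b_GM, helper36, about 80 lines): elements of `L0` from invariant families.

PROOF. Interpolation: there are `c0, c1, c2 ∈ N2` with `c0 + c1 r_m + c2 r_m^2 = Z m` for `m = 0, 1, 2` (the `r m` are distinct, `D.inj`; explicit Lagrange formulas or `Matrix.vandermonde`), and they are unique. For `g ∈ Gal(N2/K)` there is a permutation
`σ` with `g (r m) = r (σ m)` (`g (r m)` is a root: `D.roots`, injectivity `D.inj`, a map `Fin 3 → Fin 3` injective is a permutation); by `hZ` the `g c_i` solve the system for the family `Z (σ m)`, i.e. the same system, so `g c_i = c_i`. `IsGalois K N2` (`D.gal`,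
`IsGalois.mem_range_algebraMap_iff_fixed`): `c_i = algebraMap K N2 k_i`; `y := k0 + k1 θ0 + k2 θ0^2`.
-/

set_option autoImplicit false
set_option linter.unusedSectionVars false
open scoped Classical

open WithZero NumberField IsDedekindDomain H38RT
open H38T1 (SC sc scu rep eo la si OddP)
open H76PP (Cub LC ev scm dn)
open H88OD H26OD H76GM

namespace H36GM

theorem exists_down {K N N2 L0 : Type} [Field K] [NumberField K] [Field N] [NumberField N]
    [Field N2] [NumberField N2] [Field L0] [NumberField L0] [Algebra K N] [Algebra K N2]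
    [Algebra N N2] [IsScalarTower K N N2] [Algebra K L0] {a b : K} {θ0 : L0} {r : Fin 3 → N2}
    (D : N2D K N N2 a b r) (η : Fin 3 → (L0 →+* N2))
    (h1 : ∀ (m : Fin 3) (x : K), η m (algebraMap K L0 x) = algebraMap K N2 x)
    (h2 : ∀ m : Fin 3, η m θ0 = r m) (Z : Fin 3 → N2)
    (hZ : ∀ (g : N2 ≃ₐ[K] N2) (σ : Equiv.Perm (Fin 3)), (∀ m, g (r m) = r (σ m)) →
      ∀ m, g (Z m) = Z (σ m)) : ∃ y : L0, ∀ m, η m y = Z m := by
  have hdet : IsUnit (Matrix.vandermonde r).det :=
    IsUnit.mk0 _ (Matrix.det_vandermonde_ne_zero_iff.mpr D.inj)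
  have hinj : Function.Injective (Matrix.vandermonde r).mulVec :=
    Matrix.mulVec_injective_of_isUnit ((Matrix.isUnit_iff_isUnit_det _).mpr hdet)
  set c : Fin 3 → N2 := (Matrix.vandermonde r)⁻¹.mulVec Z with hc
  have hcZ : (Matrix.vandermonde r).mulVec c = Z := by
    rw [hc, Matrix.mulVec_mulVec, Matrix.mul_nonsing_inv _ hdet, Matrix.one_mulVec]
  have hexp : ∀ (d : Fin 3 → N2) (m : Fin 3),
      (Matrix.vandermonde r).mulVec d m = d 0 + d 1 * r m + d 2 * r m ^ 2 := by
    intro d m
    rw [Matrix.mulVec, dotProduct, Fin.sum_univ_three]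
    simp only [Matrix.vandermonde_apply, Fin.val_zero, Fin.val_one, Fin.val_two, pow_zero, pow_one]
    ring
  have hfix : ∀ (g : N2 ≃ₐ[K] N2) (j : Fin 3), g (c j) = c j := by
    intro g
    have hex : ∀ m : Fin 3, ∃ s : Fin 3, g (r m) = r s := by
      intro m
      have h3 : (r m) ^ 3 + algebraMap K N2 a * (r m) + algebraMap K N2 b = 0 := by
        rw [D.roots]
        fin_cases m <;> simp
      have h4 : (g (r m)) ^ 3 + algebraMap K N2 a * (g (r m)) + algebraMap K N2 b = 0 := by
        have h5 := congrArg g h3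
        rw [map_add, map_add, map_mul, map_pow, AlgEquiv.commutes, AlgEquiv.commutes, map_zero] at h5
        exact h5
      rw [D.roots] at h4
      rcases mul_eq_zero.mp h4 with h4 | h4
      · rcases mul_eq_zero.mp h4 with h4 | h4
        · exact ⟨0, sub_eq_zero.mp h4⟩
        · exact ⟨1, sub_eq_zero.mp h4⟩
      · exact ⟨2, sub_eq_zero.mp h4⟩
    choose s hs using hex
    have hsinj : Function.Injective s := by
      intro m m' h
      apply D.inj
      apply g.injective
      rw [hs, hs, h]
    have hsbij : Function.Bijective s := Finite.injective_iff_bijective.mp hsinj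
    have hperm := hZ g (Equiv.ofBijective s hsbij) (fun m => hs m)
    have hsol : (Matrix.vandermonde r).mulVec (fun j => g (c j)) = Z := by
      funext m'
      obtain ⟨m, rfl⟩ := hsbij.2 m'
      have h6 : Z (s m) = g (Z m) := (hperm m).symm
      rw [h6, ← hcZ, hexp, hexp, map_add, map_add, map_mul, map_mul, map_pow, hs]
    have heq : (fun j => g (c j)) = c := hinj (hsol.trans hcZ.symm)
    exact fun j => congrFun heq j
  have hgal := D.gal
  have hk : ∀ j : Fin 3, ∃ k : K, algebraMap K N2 k = c j := by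
    intro j
    exact (IsGalois.mem_range_algebraMap_iff_fixed (c j)).mpr (fun g => hfix g j)
  choose k hk using hk
  refine ⟨algebraMap K L0 (k 0) + algebraMap K L0 (k 1) * θ0 + algebraMap K L0 (k 2) * θ0 ^ 2,
    fun m => ?_⟩
  rw [map_add, map_add, map_mul, map_mul, map_pow, h1, h1, h1, h2, hk, hk, hk, ← hexp, hcZ]

end H36GM
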