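import Pool.Agent.H36.GM.Hs

/-!
ROW Kb (MP_78d38b_GM, helper36, about 90 lines): the norm to `K` of the descended element is a square.

PROOF. `algebraMap K N2 (norm_{L0/K} y) = η 0 y * η 1 y * η 2 y` (`H30OR.norm_prod3` with `i := algebraMap K N2` and `η m = H36MX.rh hc0 ..`; as in Hs.lean), `= ∏_m ∏_o ε o m z = ∏_o (ε o 0 z * ε o 1 z * ε o 2 z) = ∏_o algebraMap N N2 (o (norm_{LM/M} z))`
(`eps_norm`) `= (algebraMap N N2 (∏_o o t))^2` if `norm z = t^2`. The element `u := ∏_o o t ∈ N` is fixed by `Gal(N/K)` (composition with `g` permutes the `o`: `Fintype.prod_equiv` / `Finset.prod_bij`), so `u = algebraMap K N s`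
(`IsGalois.mem_range_algebraMap_iff_fixed`), `norm y = s^2` (injectivity of `algebraMap K N2`).
-/

set_option autoImplicit false
set_option linter.unusedSectionVars false
open scoped Classical

open WithZero NumberField IsDedekindDomain H38RT
open H38T1 (SC sc scu rep eo la si OddP)
open H76PP (Cub LC ev scm dn)
open H88OD H26OD H76GM

namespace H36GM

theorem norm_down {K M N N2 LM L0 : Type} [Field K] [NumberField K] [Field M] [NumberField M]
    [Field N] [NumberField N] [Field N2] [NumberField N2] [Field LM] [NumberField LM] [Field L0]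
    [NumberField L0] [Algebra K M] [Algebra K N] [Algebra K N2] [Algebra N N2]
    [IsScalarTower K N N2] [Algebra M LM] [Algebra K L0] [IsGalois K N] {a b : K} {θ : LM} {θ0 : L0}
    {r : Fin 3 → N2} (hc : Cub M LM (algebraMap K M a) (algebraMap K M b) θ) (hc0 : Cub K L0 a b θ0)
    (D : N2D K N N2 a b r) {ε : (M →ₐ[K] N) → Fin 3 → (LM →+* N2)} (hε : EpsD θ r ε)
    (η : Fin 3 → (L0 →+* N2)) (h1 : ∀ (m : Fin 3) (x : K), η m (algebraMap K L0 x) = algebraMap K N2 x)
    (h2 : ∀ m : Fin 3, η m θ0 = r m) [Fintype (M →ₐ[K] N)] {z : LM} {y : L0}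
    (hy : ∀ m, η m y = ∏ o : M →ₐ[K] N, ε o m z) (hz : IsSquare (Algebra.norm M z)) :
    IsSquare (Algebra.norm K y) := by
  -- the roots
  have R : H30OR.R3 (algebraMap K N2 a) (algebraMap K N2 b) r := by
    have e0 := D.roots 0
    have e1 := D.roots 1
    have e2 := D.roots (-1)
    have hs1 : r 0 + r 1 + r 2 = 0 := by
      have h2 : (2 : N2) ≠ 0 := two_ne_zero
      have h3 : (2 : N2) * (r 0 + r 1 + r 2) = 0 := by linear_combination e1 + e2 - 2 * e0
      exact (mul_eq_zero.1 h3).resolve_left h2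
    refine ⟨hs1, ?_, ?_, D.inj.ne (by decide), D.inj.ne (by decide), D.inj.ne (by decide)⟩
    · linear_combination e0 - e1 + hs1
    · linear_combination e0
  have hη : ∀ m, η m = H36MX.rh hc0 (algebraMap K N2) (R.root m) := by
    intro m
    refine hom_ext hc0 (fun x => ?_) ?_
    · rw [h1, H36MX.rh_algebraMap]
    · rw [h2, H36MX.rh_theta]
  have key : algebraMap K N2 (Algebra.norm K y) = η 0 y * η 1 y * η 2 y := by
    rw [hη 0, hη 1, hη 2, H30OR.norm_prod3 hc0 (algebraMap K N2) R y]
  obtain ⟨t, ht⟩ := hz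
  have key2 : algebraMap K N2 (Algebra.norm K y) =
      algebraMap N N2 ((∏ o : M →ₐ[K] N, o t) * ∏ o : M →ₐ[K] N, o t) := by
    rw [key, hy, hy, hy, ← Finset.prod_mul_distrib, ← Finset.prod_mul_distrib,
      ← Finset.prod_mul_distrib, map_prod]
    refine Finset.prod_congr rfl fun o _ => ?_
    rw [eps_norm hc D hε o z, ht, map_mul, map_mul]
  have : FiniteDimensional K N := Module.Finite.of_restrictScalars_finite ℚ K N
  have hfix : ∀ g : N ≃ₐ[K] N, g (∏ o : M →ₐ[K] N, o t) = ∏ o : M →ₐ[K] N, o t := by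
    intro g
    rw [map_prod]
    exact Fintype.prod_equiv (AlgEquiv.arrowCongr AlgEquiv.refl g) _ _ (fun o => rfl)
  obtain ⟨s, hs⟩ := (IsGalois.mem_range_algebraMap_iff_fixed (F := K) (E := N) _).2 hfix
  refine ⟨s, ?_⟩
  apply (algebraMap K N2).injective
  rw [key2, map_mul, map_mul, ← hs, ← IsScalarTower.algebraMap_apply]

end H36GM
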