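import Pool.Agent.H36.GM.Ka
import Pool.Agent.H36.GM.Kb
import Pool.Agent.H36.GM.Kc

/-!
ROW Kd (MP_78d38b_GM, helper36, about 100 lines): a class whose conjugates do not depend on the embedding comes from `K`.

PROOF. `x = sc z`, `z ≠ 0`, `norm_{LM/M} z` a square. Fix an embedding `o₀` (it exists: `IsScalarTower.toAlgHom K M N`), `η m := (ε o₀ m).comp (algebraMap L0 LM)`: `η m (algebraMap K L0 x) = algebraMap K N2 x` (`U.tower` (F := K): `algebraMap L0 LM (algebraMap K L0 x) = algebraMap M LM (algebraMap K M x)`,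
`hε.m`, `o₀.commutes`), `η m θ0 = r m` (`hε.θ`). `Z m := ∏_o ε o m z`: `g (Z m) = Z (σ m)` by `eps_act` (with `γ := g.restrictNormal N`; `o ↦ γ ∘ o` is a bijection of `M →ₐ[K] N`). `exists_down`: `y ∈ L0`, `η m y = Z m` (`≠ 0`, so `y ≠ 0`). `norm_down`: `y0 := sc y ∈ HH K L0`.
`cl (ε o₀ 0) (scm (algebraMap L0 LM) y0) = sc (η 0 y) = sc (∏_o ε o 0 z) = ∑_o cl (ε o 0) x = (number of embeddings) • cl (ε o₀ 0) x` (hypothesis `hconst`) `= cl (ε o₀ 0) x`, because `Fintype.card (M →ₐ[K] N) = Module.finrank K M` is odd (`N` is normal over `K` and contains `M`: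
`AlgHom.card_of_splits` / `IsGalois`, separable) and `2 • _ = 0` (`H38T1.SC.two_smul`). The difference `scm .. y0 - x` (or `+`) is in `HH M LM` (`U.norm`: the norm of `algebraMap L0 LM y` is `algebraMap K M (norm y)`, a square) and is killed by `cl (ε o₀ 0)`: `eps_inj`.
-/

set_option autoImplicit false
set_option linter.unusedSectionVars false
open scoped Classical

open WithZero NumberField IsDedekindDomain H38RT
open H38T1 (SC sc scu rep eo la si OddP)
open H76PP (Cub LC ev scm dn)
open H88OD H26OD H76GM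

namespace H36GM

/-- the class of a product -/
theorem Kd_sc_prod {F ι : Type} [Field F] (s : Finset ι) (f : ι → F) (hf : ∀ i ∈ s, f i ≠ 0) :
    sc (∏ i ∈ s, f i) = ∑ i ∈ s, sc (f i) := by
  classical
  induction s using Finset.induction_on with
  | empty =>
    rw [Finset.prod_empty, Finset.sum_empty, H38T1.sc_eq_zero one_ne_zero]
    exact ⟨1, (mul_one 1).symm⟩
  | insert i s hi ih =>
    have h1 : f i ≠ 0 := hf i (Finset.mem_insert_self i s)
    have h2 : ∀ j ∈ s, f j ≠ 0 := fun j hj => hf j (Finset.mem_insert_of_mem hj)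
    rw [Finset.prod_insert hi, Finset.sum_insert hi,
      H38T1.sc_mul h1 (Finset.prod_ne_zero_iff.2 h2), ih h2]

theorem Kd_odd {F : Type} [Field F] {n : ℕ} (hn : Odd n) (c : SC F) : n • c = c := by
  obtain ⟨k, rfl⟩ := hn
  rw [add_smul, mul_comm, mul_smul, H38T1.SC.two_smul, smul_zero, one_smul, zero_add]

theorem from_K {K M N N2 LM L0 : Type} [Field K] [NumberField K] [Field M] [NumberField M]
    [Field N] [NumberField N] [Field N2] [NumberField N2] [Field LM] [NumberField LM] [Field L0]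
    [NumberField L0] [Algebra K M] [Algebra K N] [Algebra M N] [IsScalarTower K M N] [Algebra K N2]
    [Algebra N N2] [IsScalarTower K N N2] [Algebra M LM] [Algebra K L0] [Algebra L0 LM]
    [IsGalois K N] (hodd : Odd (Module.finrank K M)) {a b : K} {θ0 : L0} {r : Fin 3 → N2}
    (S0 : Ext K K L0 a b θ0) (U : UpN S0 M LM) (D : N2D K N N2 a b r)
    {ε : (M →ₐ[K] N) → Fin 3 → (LM →+* N2)} (hε : EpsD (algebraMap L0 LM θ0) r ε) {x : SC LM}
    (hx : x ∈ H30ZO.HH M LM) (hconst : ∀ (o o' : M →ₐ[K] N) (m : Fin 3),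
      cl (ε o m) x = cl (ε o' m) x) :
    ∃ y0 ∈ H30ZO.HH K L0, scm (algebraMap L0 LM : L0 →* LM) y0 = x := by
  obtain ⟨z, hz, rfl⟩ := H38T1.sc_surj x
  have hnz : IsSquare (Algebra.norm M z) := (H30ZO.mem_HH hz).1 hx
  have hc : Cub M LM (algebraMap K M a) (algebraMap K M b) (algebraMap L0 LM θ0) := U.cub
  have hc0 : Cub K L0 a b θ0 := S0.cub
  have _i1 : FiniteDimensional K M := Module.Finite.of_restrictScalars_finite ℚ K M
  have _i1 : FiniteDimensional K N := Module.Finite.of_restrictScalars_finite ℚ K N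
  have _i2 : Algebra.IsSeparable K M := Algebra.IsSeparable.of_integral K M
  let o0 : M →ₐ[K] N := IsScalarTower.toAlgHom K M N
  let η : Fin 3 → (L0 →+* N2) := fun m => (ε o0 m).comp (algebraMap L0 LM)
  have h1 : ∀ (m : Fin 3) (u : K), η m (algebraMap K L0 u) = algebraMap K N2 u := by
    intro m u
    show ε o0 m (algebraMap L0 LM (algebraMap K L0 u)) = _
    have e1 : algebraMap L0 LM (algebraMap K L0 u) = algebraMap M LM (algebraMap K M u) :=
      U.tower u
    rw [e1, hε.m, AlgHom.commutes, ← IsScalarTower.algebraMap_apply]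
  have h2 : ∀ m : Fin 3, η m θ0 = r m := fun m => hε.θ o0 m
  set Z : Fin 3 → N2 := fun m => ∏ o : M →ₐ[K] N, ε o m z with hZdef
  have hZ : ∀ (g : N2 ≃ₐ[K] N2) (σ : Equiv.Perm (Fin 3)), (∀ m, g (r m) = r (σ m)) →
      ∀ m, g (Z m) = Z (σ m) := by
    intro g σ hg m
    have hγ : ∀ u : N, g (algebraMap N N2 u) = algebraMap N N2 (g.restrictNormal N u) := fun u =>
      (AlgEquiv.restrictNormal_commutes g N u).symm
    show g (∏ o : M →ₐ[K] N, ε o m z) = ∏ o : M →ₐ[K] N, ε o (σ m) z
    rw [map_prod]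
    let e : (M →ₐ[K] N) ≃ (M →ₐ[K] N) :=
      { toFun := fun o => (g.restrictNormal N).toAlgHom.comp o
        invFun := fun o => (g.restrictNormal N).symm.toAlgHom.comp o
        left_inv := fun o => by
          ext u
          exact (g.restrictNormal N).symm_apply_apply (o u)
        right_inv := fun o => by
          ext u
          exact (g.restrictNormal N).apply_symm_apply (o u) }
    refine Fintype.prod_equiv e _ _ fun o => ?_
    have h3 := eps_act hc hε hγ hg o m
    exact congrArg (fun f : LM →+* N2 => f z) h3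
  obtain ⟨y, hy⟩ := exists_down D η h1 h2 Z hZ
  have hZne : ∀ m, Z m ≠ 0 := fun m =>
    Finset.prod_ne_zero_iff.2 fun o _ => (map_ne_zero (ε o m)).2 hz
  have hy0 : y ≠ 0 := by
    rintro rfl
    exact hZne 0 (by rw [← hy 0, map_zero])
  have hny : IsSquare (Algebra.norm K y) := norm_down hc hc0 D hε η h1 h2 hy hnz
  have hyH : sc y ∈ H30ZO.HH K L0 := (H30ZO.mem_HH hy0).2 hny
  refine ⟨sc y, hyH, ?_⟩
  have hinj : Function.Injective (algebraMap L0 LM) := (algebraMap L0 LM).injective
  have hy1 : algebraMap L0 LM y ≠ 0 := (map_ne_zero (algebraMap L0 LM)).2 hy0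
  have hs1 : scm (algebraMap L0 LM : L0 →* LM) (sc y) = sc (algebraMap L0 LM y) :=
    H76PP.scm_sc _ hy0
  rw [hs1]
  have hmem : sc (algebraMap L0 LM y) ∈ H30ZO.HH M LM := by
    rw [H30ZO.mem_HH hy1]
    obtain ⟨s, hs⟩ := hny
    have e2 : Algebra.norm M (algebraMap L0 LM y) = algebraMap K M (Algebra.norm K y) := U.norm y
    refine ⟨algebraMap K M s, ?_⟩
    rw [e2, hs, map_mul]
  have hkey : cl (ε o0 0) (sc (algebraMap L0 LM y)) = cl (ε o0 0) (sc z) := by
    rw [cl_sc _ hy1]
    have e3 : ε o0 0 (algebraMap L0 LM y) = ∏ o : M →ₐ[K] N, ε o 0 z := hy 0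
    rw [e3, Kd_sc_prod _ _ (fun o _ => (map_ne_zero (ε o 0)).2 hz)]
    have e4 : ∀ o ∈ (Finset.univ : Finset (M →ₐ[K] N)), sc (ε o 0 z) = cl (ε o0 0) (sc z) := by
      intro o _
      rw [← cl_sc _ hz]
      exact hconst o o0 0
    rw [Finset.sum_congr rfl e4, Finset.sum_const, Finset.card_univ]
    have e5 : Fintype.card (M →ₐ[K] N) = Module.finrank K M := by
      refine AlgHom.card_of_splits K M N fun u => ?_
      have e6 : minpoly K (algebraMap M N u) = minpoly K u :=
        minpoly.algebraMap_eq (algebraMap M N).injective u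
      rw [← e6]
      exact Normal.splits (inferInstance : Normal K N) (algebraMap M N u)
    rw [e5]
    exact Kd_odd hodd _
  have hdiff : sc (algebraMap L0 LM y) - sc z = 0 := by
    refine eps_inj hc D hε o0 (sub_mem hmem hx) ?_
    have e7 : cl (ε o0 0) (sc (algebraMap L0 LM y) - sc z) =
        cl (ε o0 0) (sc (algebraMap L0 LM y)) - cl (ε o0 0) (sc z) := map_sub _ _ _
    rw [e7, hkey, sub_self]
  exact sub_eq_zero.1 hdiff

end H36GM
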