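import Pool.Agent.H36.GM.Df

/-!
ROW Nt (MP_78d38b_GM, helper36, about 160 lines): the field `N2`.

`hno`: no root of `f = x^3 + a x + b` in `N`; `hsq`: the discriminant `-(4 a^3 + 27 b^2)` is not a square in `N`.
PROOF. Work inside `Ω = AlgebraicClosure N` (algebraic closure of `K`, `Normal K Ω`). Let `r0, r1, r2 ∈ Ω` be the roots of `f` (`x^3 + a x + b = (x - r0)(x - r1)(x - r2)`, distinct because the discriminant is not `0`:
`H88OD.Ex_disc`). `N2 := N(r0, r1, r2)` as an intermediate field of `Ω / K` (`fieldRange of N ⊔ adjoin K {r0, r1, r2}`; see `H76OD.exists_fieldM` in Pool/Agent/H76/OD/Cha.lean for the same construction with instances: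
there the normal closure is taken; here `N ⊔ K(r0,r1,r2)` is already normal: every `K`-embedding maps `N` (normal) and the set of the roots into itself, `IntermediateField.normal_iff_forall_map_le` / `normal_sup`).
`gen`: an automorphism which fixes `N` and the roots is the identity (`N2` is generated by them: `IntermediateField.adjoin_induction` or `algHom_ext_of_adjoin`).
`lift`: (1) `Gal(N2 / N)` induces ALL permutations of the roots: the homomorphism `Gal(N2/N) → Perm (Fin 3)` is injective (`gen`); it is transitive because `f` is irreducible over `N` (degree 3 without root), and it contains an odd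
permutation because `δ = (r0-r1)(r0-r2)(r1-r2)` has `δ^2 = -(4a^3+27b^2)` which is not a square in `N`, so some `g ∈ Gal(N2/N)` moves `δ` (`IsGalois.mem_range_algebraMap_iff_fixed`); a subgroup of `Perm (Fin 3)` which is transitive and contains an odd
permutation is everything (`decide` on the images of 0,1,2, or: its order is divisible by 3 and by 2). (2) `γ ∈ Gal(N/K)` lifts to some `g ∈ Gal(N2/K)` (`AlgEquiv.restrictNormalHom_surjective`), `g (r m) = r (π m)` for a permutation `π`
(roots of `f ∈ K[x]`); multiply by the element of `Gal(N2/N)` which induces `σ π^{-1}`.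
-/

set_option autoImplicit false
set_option linter.unusedSectionVars false
open scoped Classical

open WithZero NumberField IsDedekindDomain H38RT
open H38T1 (SC sc scu rep eo la si OddP)
open H76PP (Cub LC ev scm dn)
open H88OD H26OD H76GM

namespace H36GM

private lemma Nt_even : ∀ π : Equiv.Perm (Fin 3), Equiv.Perm.sign π = 1 →
    (π 0 = 0 ∧ π 1 = 1 ∧ π 2 = 2) ∨ (π 0 = 1 ∧ π 1 = 2 ∧ π 2 = 0) ∨
      (π 0 = 2 ∧ π 1 = 0 ∧ π 2 = 1) := by
  decide

private lemma Nt_words : ∀ τ π ρ : Equiv.Perm (Fin 3), Equiv.Perm.sign τ ≠ 1 → π 0 = 1 → ρ 0 = 2 →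
    ∀ σ : Equiv.Perm (Fin 3), σ = 1 ∨ σ = π ∨ σ = π * π ∨ σ = τ ∨ σ = τ * π ∨ σ = τ * (π * π) ∨
      σ = ρ ∨ σ = ρ * ρ ∨ σ = τ * ρ ∨ σ = τ * (ρ * ρ) ∨ σ = π * ρ ∨ σ = ρ * π ∨ σ = τ * (π * ρ) ∨
      σ = τ * (ρ * π) := by
  decide

/-- A set of permutations of three letters which is closed under products, contains the identity, an
odd permutation and permutations which map `0` to `1` and to `2`, is everything. -/
private lemma Nt_perm (S : Equiv.Perm (Fin 3) → Prop) (h1 : S 1) (hm : ∀ π ρ, S π → S ρ → S (π * ρ))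
    {τ π ρ : Equiv.Perm (Fin 3)} (hτ : S τ) (hτ' : Equiv.Perm.sign τ ≠ 1) (hπ : S π) (hπ' : π 0 = 1)
    (hρ : S ρ) (hρ' : ρ 0 = 2) (σ : Equiv.Perm (Fin 3)) : S σ := by
  rcases Nt_words τ π ρ hτ' hπ' hρ' σ with h | h | h | h | h | h | h | h | h | h | h | h | h | h <;>
    rw [h]
  · exact h1
  · exact hπ
  · exact hm _ _ hπ hπ
  · exact hτ
  · exact hm _ _ hτ hπ
  · exact hm _ _ hτ (hm _ _ hπ hπ)
  · exact hρ
  · exact hm _ _ hρ hρ
  · exact hm _ _ hτ hρ
  · exact hm _ _ hτ (hm _ _ hρ hρ)
  · exact hm _ _ hπ hρ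
  · exact hm _ _ hρ hπ
  · exact hm _ _ hτ (hm _ _ hπ hρ)
  · exact hm _ _ hτ (hm _ _ hρ hπ)

private theorem Nt_aux {K N N2 : Type} [Field K] [NumberField K] [Field N] [NumberField N] [Field N2]
    [NumberField N2] [Algebra K N] [Algebra K N2] [Algebra N N2] [IsScalarTower K N N2]
    [IsGalois K N] {a b : K}
    (hno : ∀ t : N, t ^ 3 + algebraMap K N a * t + algebraMap K N b ≠ 0)
    (hsq : ¬ IsSquare (algebraMap K N (-(4 * a ^ 3 + 27 * b ^ 2))))
    [hsf : ((Polynomial.X ^ 3 + Polynomial.C a * Polynomial.X + Polynomial.C b :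
      Polynomial K).map (algebraMap K N)).IsSplittingField N N2] :
    ∃ r : Fin 3 → N2, N2D K N N2 a b r := by
  have hfdNK : FiniteDimensional K N := Module.Finite.of_restrictScalars_finite ℚ K N
  have hfd2 : FiniteDimensional N N2 := Module.Finite.of_restrictScalars_finite ℚ N N2
  have hfd3 : FiniteDimensional K N2 := Module.Finite.of_restrictScalars_finite ℚ K N2
  have hf3 : (Polynomial.X ^ 3 + Polynomial.C a * Polynomial.X + Polynomial.C b :
      Polynomial K).natDegree = 3 := by
    compute_degree!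
  have hfm : (Polynomial.X ^ 3 + Polynomial.C a * Polynomial.X + Polynomial.C b :
      Polynomial K).Monic := by
    monicity!
  set f : Polynomial K := Polynomial.X ^ 3 + Polynomial.C a * Polynomial.X + Polynomial.C b with hf
  set g : Polynomial N := f.map (algebraMap K N) with hg
  have hgm : g.Monic := hfm.map _
  have hg3 : g.natDegree = 3 := by rw [hg, hfm.natDegree_map, hf3]
  have hgal : IsGalois K N2 := by
    obtain ⟨p, hp, hps⟩ := IsGalois.is_separable_splitting_field K N
    have hsf2 : (p * f).IsSplittingField K N2 :=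
      Polynomial.IsSplittingField.mul (K := N) N2 p f hp.ne_zero hfm.ne_zero
    have hn : Normal K N2 := Normal.of_isSplittingField (p * f)
    exact { }
  have hgal2 : IsGalois N N2 := IsGalois.tower_top_of_isGalois K N N2
  have hsp : (g.map (algebraMap N N2)).Splits := Polynomial.IsSplittingField.splits N2 g
  have hfF : (g.map (algebraMap N N2)).natDegree = 3 := by
    rw [hgm.natDegree_map, hg3]
  have hcard : (g.map (algebraMap N N2)).roots.card = 3 := by
    rw [← hsp.natDegree_eq_card_roots, hfF]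
  obtain ⟨r0, r1, r2, hrs⟩ := Multiset.card_eq_three.mp hcard
  obtain ⟨r, hr⟩ : ∃ r : Fin 3 → N2, r = ![r0, r1, r2] := ⟨_, rfl⟩
  have hev : ∀ x : N2, x ^ 3 + algebraMap K N2 a * x + algebraMap K N2 b =
      (x - r 0) * (x - r 1) * (x - r 2) := by
    intro x
    have h := hsp.eval_eq_prod_roots_of_monic (hgm.map _) x
    rw [hrs, hg, hf] at h
    simp only [Polynomial.map_add, Polynomial.map_mul, Polynomial.map_pow, Polynomial.map_X,
      Polynomial.map_C, Polynomial.eval_add, Polynomial.eval_mul, Polynomial.eval_pow,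
      Polynomial.eval_X, Polynomial.eval_C, ← IsScalarTower.algebraMap_apply] at h
    rw [h, hr]
    simp [mul_assoc]
  have hroot : ∀ i, (r i) ^ 3 + algebraMap K N2 a * r i + algebraMap K N2 b = 0 := by
    intro i
    rw [hev]
    fin_cases i <;> simp
  have hroot' : ∀ x : N2, x ^ 3 + algebraMap K N2 a * x + algebraMap K N2 b = 0 → ∃ i, x = r i := by
    intro x hx
    rw [hev] at hx
    rcases mul_eq_zero.1 hx with h | h
    · rcases mul_eq_zero.1 h with h | h
      · exact ⟨0, sub_eq_zero.1 h⟩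
      · exact ⟨1, sub_eq_zero.1 h⟩
    · exact ⟨2, sub_eq_zero.1 h⟩
  have e0 := hev 0
  have e1 := hev 1
  have e2 := hev (-1)
  have hs1 : r 0 + r 1 + r 2 = 0 := by
    have : (2 : N2) * (r 0 + r 1 + r 2) = 0 := by linear_combination e1 + e2 - 2 * e0
    simpa using this
  have hs2 : r 0 * r 1 + r 0 * r 2 + r 1 * r 2 = algebraMap K N2 a := by
    have : (2 : N2) * (r 0 * r 1 + r 0 * r 2 + r 1 * r 2 - algebraMap K N2 a) = 0 := by
      linear_combination e2 - e1
    have h := (mul_eq_zero.mp this).resolve_left two_ne_zero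
    linear_combination h
  have hs3 : r 0 * r 1 * r 2 = -algebraMap K N2 b := by linear_combination e0
  have hdisc := Ex_disc hs1 hs2 hs3
  have hdisc' : algebraMap N N2 (algebraMap K N (-(4 * a ^ 3 + 27 * b ^ 2))) =
      ((r 0 - r 1) * (r 0 - r 2) * (r 1 - r 2)) * ((r 0 - r 1) * (r 0 - r 2) * (r 1 - r 2)) := by
    rw [← hdisc, ← IsScalarTower.algebraMap_apply]
    simp only [map_neg, map_add, map_mul, map_pow, map_ofNat]
  have hδ0 : (r 0 - r 1) * (r 0 - r 2) * (r 1 - r 2) ≠ 0 := by
    intro h0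
    rw [h0, mul_zero, map_eq_zero] at hdisc'
    rw [hdisc'] at hsq
    exact hsq ⟨0, by simp⟩
  have h01 : r 0 ≠ r 1 := fun h => hδ0 (by rw [h]; ring)
  have h02 : r 0 ≠ r 2 := fun h => hδ0 (by rw [h]; ring)
  have h12 : r 1 ≠ r 2 := fun h => hδ0 (by rw [h]; ring)
  have hne : ∀ i j : Fin 3, i ≠ j → r i ≠ r j := by
    intro i j hij
    fin_cases i <;> fin_cases j
    · exact absurd rfl hij
    · exact h01
    · exact h02
    · exact h01.symm
    · exact absurd rfl hij
    · exact h12
    · exact h02.symm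
    · exact h12.symm
    · exact absurd rfl hij
  have hinj : Function.Injective r := fun i j h => by_contra fun hne' => hne i j hne' h
  -- permutations
  have hperm : ∀ h : N2 ≃ₐ[K] N2, ∃ π : Equiv.Perm (Fin 3), ∀ m, h (r m) = r (π m) := by
    intro h
    have h1 : ∀ m, ∃ i, h (r m) = r i := by
      intro m
      apply hroot'
      have h2 := congrArg h (hroot m)
      rw [map_add, map_add, map_mul, map_pow, h.commutes, h.commutes, map_zero] at h2
      exact h2
    choose q hq using h1
    have hqi : Function.Injective q := by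
      intro i j hij
      apply hinj
      apply h.injective
      rw [hq, hq, hij]
    exact ⟨Equiv.ofBijective q (Finite.injective_iff_bijective.1 hqi), hq⟩
  have hirr : Irreducible g := by
    rw [hgm.irreducible_iff_roots_eq_zero_of_degree_le_three (by omega) (by omega)]
    rw [Multiset.eq_zero_iff_forall_notMem]
    intro t ht
    have h1 := Polynomial.isRoot_of_mem_roots ht
    rw [Polynomial.IsRoot.def, hg, hf] at h1
    simp only [Polynomial.map_add, Polynomial.map_mul, Polynomial.map_pow, Polynomial.map_X,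
      Polynomial.map_C, Polynomial.eval_add, Polynomial.eval_mul, Polynomial.eval_pow,
      Polynomial.eval_X, Polynomial.eval_C] at h1
    exact hno t h1
  have haev : ∀ x : N2, Polynomial.aeval x g =
      x ^ 3 + algebraMap K N2 a * x + algebraMap K N2 b := by
    intro x
    rw [hg, hf]
    simp only [Polynomial.map_add, Polynomial.map_mul, Polynomial.map_pow, Polynomial.map_X,
      Polynomial.map_C, map_add, map_mul, map_pow, Polynomial.aeval_X, Polynomial.aeval_C,
      ← IsScalarTower.algebraMap_apply]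
  have hmin : ∀ i, g = minpoly N (r i) := fun i =>
    minpoly.eq_of_irreducible_of_monic hirr (by rw [haev, hroot]) hgm
  have htrans : ∀ i, ∃ h : N2 ≃ₐ[N] N2, h (r 0) = r i := by
    intro i
    have h1 : IsConjRoot N (r i) (r 0) := by
      rw [IsConjRoot, ← hmin, ← hmin]
    obtain ⟨h, hh⟩ := isConjRoot_iff_exists_algEquiv.1 h1
    exact ⟨h, hh⟩
  have hall : ∀ σ : Equiv.Perm (Fin 3), ∃ h : N2 ≃ₐ[N] N2, ∀ m, h (r m) = r (σ m) := by
    have hp' : ∀ h : N2 ≃ₐ[N] N2, ∃ π : Equiv.Perm (Fin 3), ∀ m, h (r m) = r (π m) :=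
      fun h => hperm (h.restrictScalars K)
    obtain ⟨τ, hτ, hτ'⟩ : ∃ τ : Equiv.Perm (Fin 3), (∃ h : N2 ≃ₐ[N] N2, ∀ m, h (r m) = r (τ m)) ∧
        Equiv.Perm.sign τ ≠ 1 := by
      by_contra hcon
      push Not at hcon
      have hfix : ∀ h : N2 ≃ₐ[N] N2, h ((r 0 - r 1) * (r 0 - r 2) * (r 1 - r 2)) =
          (r 0 - r 1) * (r 0 - r 2) * (r 1 - r 2) := by
        intro h
        obtain ⟨π, hπ⟩ := hp' h
        have h1 := hcon π ⟨h, hπ⟩
        rw [map_mul, map_mul, map_sub, map_sub, map_sub, hπ, hπ, hπ]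
        rcases Nt_even π h1 with ⟨p0, p1, p2⟩ | ⟨p0, p1, p2⟩ | ⟨p0, p1, p2⟩ <;> rw [p0, p1, p2]
        · ring
        · ring
      obtain ⟨d, hd⟩ := (IsGalois.mem_range_algebraMap_iff_fixed _).2 hfix
      apply hsq
      refine ⟨d, (algebraMap N N2).injective ?_⟩
      rw [hdisc', map_mul, hd]
    obtain ⟨h1, hh1⟩ := htrans 1
    obtain ⟨h2, hh2⟩ := htrans 2
    obtain ⟨π, hπ⟩ := hp' h1
    obtain ⟨ρ, hρ⟩ := hp' h2
    refine Nt_perm (fun σ => ∃ h : N2 ≃ₐ[N] N2, ∀ m, h (r m) = r (σ m))
      ⟨AlgEquiv.refl, fun m => rfl⟩ ?_ hτ hτ' ⟨h1, hπ⟩ ?_ ⟨h2, hρ⟩ ?_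
    · rintro π₁ ρ₁ ⟨g₁, hg₁⟩ ⟨g₂, hg₂⟩
      refine ⟨g₂.trans g₁, fun m => ?_⟩
      rw [AlgEquiv.trans_apply, hg₂, hg₁]
      rfl
    · exact hinj ((hπ 0).symm.trans hh1)
    · exact hinj ((hρ 0).symm.trans hh2)
  refine ⟨r, hgal, hinj, hev, ?_, ?_⟩
  · intro h hN hr'
    have h1 : ∀ x : N2, h x = x := by
      intro x
      have hx : x ∈ Algebra.adjoin N (g.rootSet N2) := by
        rw [Polynomial.IsSplittingField.adjoin_rootSet N2 g]
        exact Algebra.mem_top
      induction hx using Algebra.adjoin_induction with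
      | mem x hx =>
        have h2 := (Polynomial.mem_rootSet.1 hx).2
        rw [haev] at h2
        obtain ⟨i, rfl⟩ := hroot' x h2
        exact hr' i
      | algebraMap z => exact hN z
      | add x y _ _ hx hy => rw [map_add, hx, hy]
      | mul x y _ _ hx hy => rw [map_mul, hx, hy]
    exact AlgEquiv.ext h1
  · intro γ σ
    obtain ⟨g₀, hg₀⟩ := AlgEquiv.restrictNormalHom_surjective (F := K) (K₁ := N) N2 γ
    have hg₁ : ∀ z : N, g₀ (algebraMap N N2 z) = algebraMap N N2 (γ z) := by
      intro z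
      rw [← hg₀]
      exact (AlgEquiv.restrictNormal_commutes g₀ N z).symm
    obtain ⟨π, hπ⟩ := hperm g₀
    obtain ⟨h, hh⟩ := hall (σ * π⁻¹)
    refine ⟨g₀.trans (h.restrictScalars K), fun z => ?_, fun m => ?_⟩
    · rw [AlgEquiv.trans_apply, hg₁]
      exact h.commutes _
    · rw [AlgEquiv.trans_apply, hπ]
      change h (r (π m)) = r (σ m)
      rw [hh, Equiv.Perm.mul_apply, Equiv.Perm.inv_def, Equiv.symm_apply_apply]

theorem exists_N2 {K N : Type} [Field K] [NumberField K] [Field N] [NumberField N] [Algebra K N]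
    [IsGalois K N] {a b : K} (hno : ∀ t : N, t ^ 3 + algebraMap K N a * t + algebraMap K N b ≠ 0)
    (hsq : ¬ IsSquare (algebraMap K N (-(4 * a ^ 3 + 27 * b ^ 2)))) :
    ∃ (N2 : Type) (_ : Field N2) (_ : NumberField N2) (_ : Algebra K N2) (_ : Algebra N N2)
      (_ : IsScalarTower K N N2) (r : Fin 3 → N2), N2D K N N2 a b r := by
  obtain ⟨g, hg⟩ : ∃ g : Polynomial N, g = (Polynomial.X ^ 3 + Polynomial.C a * Polynomial.X +
    Polynomial.C b : Polynomial K).map (algebraMap K N) := ⟨_, rfl⟩
  have hfd2 : FiniteDimensional N g.SplittingField :=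
    Polynomial.IsSplittingField.finiteDimensional g.SplittingField g
  have hch : CharZero g.SplittingField :=
    charZero_of_injective_algebraMap (algebraMap N g.SplittingField).injective
  have hfd3 : FiniteDimensional ℚ g.SplittingField := Module.Finite.trans N g.SplittingField
  have hnf : NumberField g.SplittingField :=
    { to_charZero := hch, to_finiteDimensional := hfd3 }
  have hsf : ((Polynomial.X ^ 3 + Polynomial.C a * Polynomial.X + Polynomial.C b :
      Polynomial K).map (algebraMap K N)).IsSplittingField N g.SplittingField := by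
    rw [← hg]
    infer_instance
  obtain ⟨r, hr⟩ := Nt_aux (K := K) (N := N) (N2 := g.SplittingField) hno hsq
  exact ⟨g.SplittingField, inferInstance, hnf, inferInstance, inferInstance, inferInstance, r, hr⟩

end H36GM
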