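import Pool.Agent.H36.GM.Df

/-!
ROW Ph (MP_78d38b_GM, helper36, about 50 lines): functionals with prescribed values.

PROOF. Linear algebra over `ZMod 2`: `let _ : Module (ZMod 2) W := AddCommGroup.zmodModule ..` (see `H76OD.exists_fun` in Pool/Agent/H76/OD/Ch.lean). The linear map `A : (ι → ZMod 2) → W`, `α ↦ ∑ i, α i • v i`, and the functional `T : (ι → ZMod 2) → ZMod 2`, `α ↦ ∑ i, α i * t i`: `ker A ≤ ker T` by `h`, so `T` factors through the range
of `A` (`LinearMap.exists_extend`, `Submodule.liftQ`, or `LinearMap.exists_leftInverse ..`; e.g. `(LinearMap.range_dualMap_eq_dualAnnihilator_ker A)`: `T ∈ (ker A).dualAnnihilator = range A.dualMap`), i.e. there is `φ : W → ZMod 2` linear with `φ (A α) = T α`; apply it to the basis vectors `Pi.single i 1`.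
-/

set_option autoImplicit false
set_option linter.unusedSectionVars false
open scoped Classical

open WithZero NumberField IsDedekindDomain H38RT
open H38T1 (SC sc scu rep eo la si OddP)
open H76PP (Cub LC ev scm dn)
open H88OD H26OD H76GM

namespace H36GM

theorem exists_phi {W : Type} [AddCommGroup W] (h2 : ∀ w : W, w + w = 0) {ι : Type} [Fintype ι]
    (v : ι → W) (t : ι → ZMod 2)
    (h : ∀ α : ι → ZMod 2, (∑ i, if α i = 0 then 0 else v i) = 0 → ∑ i, α i * t i = 0) :
    ∃ φ : W →+ ZMod 2, ∀ i, φ (v i) = t i := by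
  let _ : Module (ZMod 2) W := AddCommGroup.zmodModule (n := 2) (by intro x; rw [two_nsmul]; exact h2 x)
  let A : (ι → ZMod 2) →ₗ[ZMod 2] W := Fintype.linearCombination (ZMod 2) v
  let T : (ι → ZMod 2) →ₗ[ZMod 2] ZMod 2 := Fintype.linearCombination (ZMod 2) t
  have hA : ∀ α : ι → ZMod 2, A α = ∑ i, if α i = 0 then 0 else v i := by
    intro α
    show Fintype.linearCombination (ZMod 2) v α = _
    rw [Fintype.linearCombination_apply]
    refine Finset.sum_congr rfl fun i _ => ?_
    have h01 : ∀ x : ZMod 2, x = 0 ∨ x = 1 := by decide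
    rcases h01 (α i) with h0 | h1
    · rw [h0, zero_smul, if_pos rfl]
    · rw [h1, one_smul, if_neg (by decide)]
  have hT : ∀ α : ι → ZMod 2, T α = ∑ i, α i * t i := by
    intro α
    show Fintype.linearCombination (ZMod 2) t α = _
    rw [Fintype.linearCombination_apply]
    rfl
  have hker : LinearMap.ker A ≤ LinearMap.ker T := by
    intro α hα
    rw [LinearMap.mem_ker] at hα ⊢
    rw [hT]
    exact h α (by rw [← hA]; exact hα)
  have hmem : T ∈ LinearMap.range (LinearMap.dualMap A) := by
    rw [LinearMap.range_dualMap_eq_dualAnnihilator_ker, Submodule.mem_dualAnnihilator]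
    intro w hw
    exact hker hw
  obtain ⟨φ, hφ⟩ := hmem
  refine ⟨φ.toAddMonoidHom, fun i => ?_⟩
  have e1 : φ (A (Pi.single i 1)) = T (Pi.single i 1) := by
    rw [← hφ]; rfl
  have e2 : A (Pi.single i 1) = v i := by
    show Fintype.linearCombination (ZMod 2) v (Pi.single i 1) = _
    rw [Fintype.linearCombination_apply_single, one_smul]
  have e3 : T (Pi.single i 1) = t i := by
    show Fintype.linearCombination (ZMod 2) t (Pi.single i 1) = _
    rw [Fintype.linearCombination_apply_single, one_smul]
  rw [e2, e3] at e1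
  exact e1

end H36GM
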